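import Pool.Agent.H22.OW.AdvMass

/-!
MP_9d9f9c_lc: the adversary (OW-T8, part 2, helper53): definition and properties.
-/

open MeasureTheory Set Filter Topology

namespace OWD

open Nat.Partrec (Code)
open Nat.Partrec.Code (evaln)

/-- The `e`-th partial recursive function halts on `x` within `n` steps. -/
def hal (e n x : ℕ) : Prop := (evaln n (Denumerable.ofNat Code e) x).isSome = true

lemma hal_mono {e n n' x : ℕ} (h : n ≤ n') (hh : hal e n x) : hal e n' x := by
  unfold hal at hh ⊢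
  rw [Option.isSome_iff_exists] at hh ⊢
  obtain ⟨a, ha⟩ := hh
  exact ⟨a, Nat.Partrec.Code.evaln_mono h ha⟩

lemma hal_lt {e n x : ℕ} (hh : hal e n x) : x < n := by
  unfold hal at hh
  rw [Option.isSome_iff_exists] at hh
  obtain ⟨a, ha⟩ := hh
  exact Nat.Partrec.Code.evaln_bound ha

/-- Pairs of codes of rational numbers. -/
abbrev PQ := (ℕ × ℕ × ℕ) × (ℕ × ℕ × ℕ)

/-- The cell `(n, i)` is inside the open interval `p`. -/
def inI (p : PQ) (n i : ℕ) : Prop :=
  p.1.1 * 2 ^ n < i * (p.1.2.2 + 1) + p.1.2.1 * 2 ^ n ∧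
  (i + 1) * (p.2.2.2 + 1) + p.2.2.1 * 2 ^ n < p.2.1 * 2 ^ n

/-- The stage `n` approximation of the `e`-th effectively open set. -/
def uu (e n i : ℕ) : Prop :=
  e < n ∧ i < 2 ^ n ∧ ∃ j, j < n ∧ hal e n j ∧ inI (Denumerable.ofNat PQ j) n i

/-- The list of the `l` last binary digits of `m`. -/
def bitsL (l m : ℕ) : List Bool :=
  (List.range l).map fun k => decide (m / 2 ^ (l - 1 - k) % 2 = 1)

/-- The stage `n` approximation of the component number `e + 13` of the `e`-th test. -/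
def SS (e n i : ℕ) : Prop :=
  i < 2 ^ n ∧ ∃ l, l < n + 1 ∧ hal e n (Encodable.encode ((e + 13, bitsL l (i / 2 ^ (n - l))) :
    ℕ × List Bool))

open Classical in
/-- Number of cells. -/
noncomputable def cS (e n : ℕ) : ℕ := ((Finset.range (2 ^ n)).filter fun i => SS e n i).card

/-- The same with the cut-off of the measure. -/
def vv (e n i : ℕ) : Prop :=
  e < n ∧ ∃ n', n' < n + 1 ∧ cS e n' * 2 ^ (e + 13) ≤ 2 ^ n' ∧ SS e n' (i / 2 ^ (n - n'))

open Classical in
/-- The density of the adversary. -/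
noncomputable def FF (n i : ℕ) : ℕ :=
  ∑ e ∈ Finset.range n, ((if uu e n i then 2 ^ (n - e - 1) else 0) +
    (if vv e n i then 2 ^ (n + 12) else 0))

/-! ### The families increase -/

lemma inI_up {p : PQ} {n i : ℕ} (h : inI p n i) :
    inI p (n + 1) (2 * i) ∧ inI p (n + 1) (2 * i + 1) := by
  obtain ⟨h1, h2⟩ := h
  unfold inI
  rw [pow_succ']
  refine ⟨⟨?_, ?_⟩, ?_, ?_⟩ <;> nlinarith

lemma uu_up {e n i : ℕ} (h : uu e n i) : uu e (n + 1) (2 * i) ∧ uu e (n + 1) (2 * i + 1) := by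
  obtain ⟨h1, h2, j, hj, h3, h4⟩ := h
  have h5 := inI_up h4
  have h6 : (2 : ℕ) ^ (n + 1) = 2 * 2 ^ n := pow_succ' 2 n
  exact ⟨⟨by omega, by omega, j, by omega, hal_mono (by omega) h3, h5.1⟩,
    by omega, by omega, j, by omega, hal_mono (by omega) h3, h5.2⟩

lemma uu_zero (e i : ℕ) : ¬ uu e 0 i := fun h => by have := h.1; omega

lemma SS_up {e n i : ℕ} (h : SS e n i) : SS e (n + 1) (2 * i) ∧ SS e (n + 1) (2 * i + 1) := by
  obtain ⟨h1, l, hl, h2⟩ := h
  have h6 : (2 : ℕ) ^ (n + 1) = 2 * 2 ^ n := pow_succ' 2 n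
  have h3 : (2 : ℕ) ^ (n + 1 - l) = 2 * 2 ^ (n - l) := by
    rw [show n + 1 - l = (n - l) + 1 by omega, pow_succ']
  refine ⟨⟨by omega, l, by omega, hal_mono (Nat.le_succ n) ?_⟩, by omega, l, by omega,
    hal_mono (Nat.le_succ n) ?_⟩
  · rw [h3, ← Nat.div_div_eq_div_mul, show 2 * i / 2 = i by omega]
    exact h2
  · rw [h3, ← Nat.div_div_eq_div_mul, show (2 * i + 1) / 2 = i by omega]
    exact h2

lemma vv_up {e n i : ℕ} (h : vv e n i) : vv e (n + 1) (2 * i) ∧ vv e (n + 1) (2 * i + 1) := by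
  obtain ⟨h1, n', hn, h2, h3⟩ := h
  have h4 : (2 : ℕ) ^ (n + 1 - n') = 2 * 2 ^ (n - n') := by
    rw [show n + 1 - n' = (n - n') + 1 by omega, pow_succ']
  refine ⟨⟨by omega, n', by omega, h2, ?_⟩, by omega, n', by omega, h2, ?_⟩
  · rw [h4, ← Nat.div_div_eq_div_mul, show 2 * i / 2 = i by omega]
    exact h3
  · rw [h4, ← Nat.div_div_eq_div_mul, show (2 * i + 1) / 2 = i by omega]
    exact h3

lemma vv_zero (e i : ℕ) : ¬ vv e 0 i := fun h => by have := h.1; omega

lemma half_up {V : ℕ → ℕ → Prop}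
    (hup : ∀ n i, V n i → V (n + 1) (2 * i) ∧ V (n + 1) (2 * i + 1)) {n i : ℕ}
    (h : V n (i / 2)) : V (n + 1) i := by
  rcases Nat.even_or_odd' i with ⟨q, hq | hq⟩
  · have h1 : i / 2 = q := by omega
    rw [h1] at h
    rw [hq]
    exact (hup _ _ h).1
  · have h1 : i / 2 = q := by omega
    rw [h1] at h
    rw [hq]
    exact (hup _ _ h).2

/-! ### The density is admissible -/

open Classical in
lemma card_vv (e n : ℕ) :
    ((Finset.range (2 ^ n)).filter fun k => vv e n k).card * 2 ^ (e + 13) ≤ 2 ^ n := by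
  by_cases hex : ∃ n', n' < n + 1 ∧ cS e n' * 2 ^ (e + 13) ≤ 2 ^ n'
  · obtain ⟨N, hN, hmax⟩ : ∃ N, (N < n + 1 ∧ cS e N * 2 ^ (e + 13) ≤ 2 ^ N) ∧
        ∀ n', n' < n + 1 ∧ cS e n' * 2 ^ (e + 13) ≤ 2 ^ n' → n' ≤ N := by
      obtain ⟨n0, h0⟩ := hex
      refine ⟨Nat.findGreatest (fun n' => n' < n + 1 ∧ cS e n' * 2 ^ (e + 13) ≤ 2 ^ n') n, ?_, ?_⟩
      · exact Nat.findGreatest_spec
          (P := fun n' => n' < n + 1 ∧ cS e n' * 2 ^ (e + 13) ≤ 2 ^ n') (by omega) h0
      · intro n' hn'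
        exact Nat.le_findGreatest (by omega) hn'
    have h1 : ((Finset.range (2 ^ n)).filter fun k => vv e n k).card ≤
        ∑ k ∈ Finset.range (2 ^ N * 2 ^ (n - N)),
          (fun k => if SS e N k then 1 else 0) (k / 2 ^ (n - N)) := by
      rw [← pow_add, show N + (n - N) = n by omega, Finset.card_filter]
      refine Finset.sum_le_sum fun k _ => ?_
      change (if vv e n k then 1 else 0) ≤ (if SS e N (k / 2 ^ (n - N)) then 1 else 0)
      split_ifs with h2 h3 h3
      · exact le_rfl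
      · exfalso
        apply h3
        obtain ⟨-, n', hn', h4, h5⟩ := h2
        have h6 := hmax n' ⟨hn', h4⟩
        refine Den.up_iter (W := SS e) (fun _ _ => SS_up) h6 ?_
        rw [Nat.div_div_eq_div_mul, ← pow_add, show n - N + (N - n') = n - n' by omega]
        exact h5
      · exact Nat.zero_le _
      · exact le_rfl
    rw [sum_blocks (fun k => if SS e N k then 1 else 0) _ _ (by positivity),
      ← Finset.card_filter] at h1
    calc _ ≤ 2 ^ (n - N) * cS e N * 2 ^ (e + 13) := Nat.mul_le_mul_right _ h1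
      _ = 2 ^ (n - N) * (cS e N * 2 ^ (e + 13)) := by ring
      _ ≤ 2 ^ (n - N) * 2 ^ N := Nat.mul_le_mul_left _ hN.2
      _ = 2 ^ n := by rw [← pow_add]; congr 1; omega
  · have h1 : ((Finset.range (2 ^ n)).filter fun k => vv e n k) = ∅ := by
      rw [Finset.filter_eq_empty_iff]
      rintro k - ⟨-, n', hn', h4, -⟩
      exact hex ⟨n', hn', h4⟩
    rw [h1]
    simp

lemma geo_sum (n : ℕ) : ∑ e ∈ Finset.range n, 2 ^ (n - e - 1) + 1 = 2 ^ n := by
  induction n with
  | zero => simp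
  | succ n ih =>
    rw [Finset.sum_range_succ']
    have h1 : ∑ e ∈ Finset.range n, 2 ^ (n + 1 - (e + 1) - 1) =
        ∑ e ∈ Finset.range n, 2 ^ (n - e - 1) := by
      refine Finset.sum_congr rfl fun e _ => ?_
      congr 1
      omega
    rw [h1, pow_succ, show n + 1 - 0 - 1 = n by omega]
    omega

open Classical in
theorem dens_FF : Dens FF where
  zero i := by simp [FF]
  up n i := by
    unfold FF
    rw [Finset.mul_sum, Finset.sum_range_succ]
    refine le_trans (Finset.sum_le_sum fun e he => ?_) (Nat.le_add_right _ _)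
    rw [Finset.mem_range] at he
    have e1 : (2 : ℕ) ^ (n + 1 - e - 1) = 2 * 2 ^ (n - e - 1) := by
      rw [show n + 1 - e - 1 = (n - e - 1) + 1 by omega, pow_succ']
    have e2 : (2 : ℕ) ^ (n + 1 + 12) = 2 * 2 ^ (n + 12) := by
      rw [show n + 1 + 12 = (n + 12) + 1 by omega, pow_succ']
    rw [mul_add, e1, e2]
    refine Nat.add_le_add ?_ ?_
    · split_ifs with h1 h2 h2
      · exact le_rfl
      · exact absurd (half_up (V := uu e) (fun _ _ => uu_up) h1) h2
      · exact Nat.zero_le _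
      · exact le_rfl
    · split_ifs with h1 h2 h2
      · exact le_rfl
      · exact absurd (half_up (V := vv e) (fun _ _ => vv_up) h1) h2
      · exact Nat.zero_le _
      · exact le_rfl
  total n := by
    unfold FF
    rw [Finset.sum_comm]
    have h1 : ∀ e ∈ Finset.range n, ∑ k ∈ Finset.range (2 ^ n),
        ((if uu e n k then 2 ^ (n - e - 1) else 0) + (if vv e n k then 2 ^ (n + 12) else 0)) ≤
        2 * 2 ^ n * 2 ^ (n - e - 1) := by
      intro e he
      rw [Finset.mem_range] at he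
      rw [Finset.sum_add_distrib, ← Finset.sum_filter, ← Finset.sum_filter, Finset.sum_const,
        Finset.sum_const, smul_eq_mul, smul_eq_mul]
      have h2 : ((Finset.range (2 ^ n)).filter fun k => uu e n k).card ≤ 2 ^ n := by
        refine (Finset.card_filter_le _ _).trans ?_
        rw [Finset.card_range]
      have h3 := card_vv e n
      have h4 : ((Finset.range (2 ^ n)).filter fun k => vv e n k).card * 2 ^ (n + 12) ≤
          2 ^ n * 2 ^ (n - e - 1) := by
        have h5 : ((Finset.range (2 ^ n)).filter fun k => vv e n k).card * 2 ^ (n + 12) *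
            2 ^ (e + 1) ≤ 2 ^ n * 2 ^ (n - e - 1) * 2 ^ (e + 1) := by
          calc _ = ((Finset.range (2 ^ n)).filter fun k => vv e n k).card * 2 ^ (e + 13) *
                2 ^ n := by
                rw [mul_assoc, mul_assoc, ← pow_add, ← pow_add]; congr 2; omega
            _ ≤ 2 ^ n * 2 ^ n := Nat.mul_le_mul_right _ h3
            _ = _ := by rw [mul_assoc, ← pow_add 2 (n - e - 1)]; congr 2; omega
        exact Nat.le_of_mul_le_mul_right h5 (by positivity)
      calc _ ≤ 2 ^ n * 2 ^ (n - e - 1) + 2 ^ n * 2 ^ (n - e - 1) :=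
            Nat.add_le_add (Nat.mul_le_mul_right _ h2) h4
        _ = _ := by ring
    refine (Finset.sum_le_sum h1).trans ?_
    rw [← Finset.mul_sum]
    have h2 := geo_sum n
    have h3 : ∑ e ∈ Finset.range n, 2 ^ (n - e - 1) ≤ 2 ^ n := by omega
    calc _ ≤ 2 * 2 ^ n * 2 ^ n := Nat.mul_le_mul_left _ h3
      _ = 2 * 4 ^ n := by
        rw [mul_assoc, ← mul_pow]; norm_num

/-! ### The families are attacked -/

open Classical in
/-- the density as a sum with more terms -/
lemma FF_eq {n N : ℕ} (h : n ≤ N) (i : ℕ) : FF n i =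
    ∑ e ∈ Finset.range N, ((if uu e n i then 2 ^ (n - e - 1) else 0) +
      (if vv e n i then 2 ^ (n + 12) else 0)) := by
  unfold FF
  refine Finset.sum_subset (Finset.range_mono h) fun e _ he => ?_
  rw [Finset.mem_range] at he
  rw [if_neg (fun h1 => he h1.1), if_neg (fun h1 => he h1.1), add_zero]

open Classical in
lemma FF_diff (m p q e : ℕ) (he : e < m + p) :
    2 ^ p * FF m (q / 2 ^ p) +
      (if uu e (m + p) q ∧ ¬ uu e m (q / 2 ^ p) then 2 ^ (m + p - e - 1) else 0) +
      (if vv e (m + p) q ∧ ¬ vv e m (q / 2 ^ p) then 2 ^ (m + p + 12) else 0) ≤ FF (m + p) q := by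
  have hmem : e ∈ Finset.range (m + p) := Finset.mem_range.2 he
  rw [FF_eq (n := m + p) le_rfl q, FF_eq (Nat.le_add_right m p) (q / 2 ^ p), Finset.mul_sum,
    ← Finset.add_sum_erase _ _ hmem, ← Finset.add_sum_erase _ _ hmem]
  have hu : ∀ e', uu e' m (q / 2 ^ p) → uu e' (m + p) q := fun e' h =>
    Den.up_iter (W := uu e') (fun _ _ => uu_up) (Nat.le_add_right m p)
      (by rw [Nat.add_sub_cancel_left]; exact h)
  have hv : ∀ e', vv e' m (q / 2 ^ p) → vv e' (m + p) q := fun e' h =>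
    Den.up_iter (W := vv e') (fun _ _ => vv_up) (Nat.le_add_right m p)
      (by rw [Nat.add_sub_cancel_left]; exact h)
  have e1 : ∀ e', e' < m → (2 : ℕ) ^ (m + p - e' - 1) = 2 ^ p * 2 ^ (m - e' - 1) := by
    intro e' h; rw [← pow_add]; congr 1; omega
  have e2 : (2 : ℕ) ^ (m + p + 12) = 2 ^ p * 2 ^ (m + 12) := by
    rw [← pow_add]; congr 1; omega
  have hterm : ∀ e', 2 ^ p * ((if uu e' m (q / 2 ^ p) then 2 ^ (m - e' - 1) else 0) +
      (if vv e' m (q / 2 ^ p) then 2 ^ (m + 12) else 0)) +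
      (if uu e' (m + p) q ∧ ¬ uu e' m (q / 2 ^ p) then 2 ^ (m + p - e' - 1) else 0) +
      (if vv e' (m + p) q ∧ ¬ vv e' m (q / 2 ^ p) then 2 ^ (m + p + 12) else 0) ≤
      (if uu e' (m + p) q then 2 ^ (m + p - e' - 1) else 0) +
      (if vv e' (m + p) q then 2 ^ (m + p + 12) else 0) := by
    intro e'
    have ha : 2 ^ p * (if uu e' m (q / 2 ^ p) then 2 ^ (m - e' - 1) else 0) +
        (if uu e' (m + p) q ∧ ¬ uu e' m (q / 2 ^ p) then 2 ^ (m + p - e' - 1) else 0) ≤
        (if uu e' (m + p) q then 2 ^ (m + p - e' - 1) else 0) := by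
      by_cases h1 : uu e' m (q / 2 ^ p)
      · have h2 := hu e' h1
        simp only [h1, h2, if_true, not_true, and_false, if_false, add_zero]
        rw [e1 e' h1.1]
      · by_cases h2 : uu e' (m + p) q
        · simp [h1, h2]
        · simp [h1, h2]
    have hb : 2 ^ p * (if vv e' m (q / 2 ^ p) then 2 ^ (m + 12) else 0) +
        (if vv e' (m + p) q ∧ ¬ vv e' m (q / 2 ^ p) then 2 ^ (m + p + 12) else 0) ≤
        (if vv e' (m + p) q then 2 ^ (m + p + 12) else 0) := by
      by_cases h1 : vv e' m (q / 2 ^ p)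
      · have h2 := hv e' h1
        simp only [h1, h2, if_true, not_true, and_false, if_false, add_zero]
        rw [e2]
      · by_cases h2 : vv e' (m + p) q
        · simp [h1, h2]
        · simp [h1, h2]
    rw [mul_add]
    omega
  have h1 := hterm e
  have h2 : ∑ x ∈ (Finset.range (m + p)).erase e, 2 ^ p *
      ((if uu x m (q / 2 ^ p) then 2 ^ (m - x - 1) else 0) +
      (if vv x m (q / 2 ^ p) then 2 ^ (m + 12) else 0)) ≤
      ∑ x ∈ (Finset.range (m + p)).erase e, ((if uu x (m + p) q then 2 ^ (m + p - x - 1) else 0) +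
      (if vv x (m + p) q then 2 ^ (m + p + 12) else 0)) := by
    refine Finset.sum_le_sum fun x _ => ?_
    have := hterm x
    omega
  omega

theorem wfam_uu (e : ℕ) : WFam (muF FF) (uu e) (1 / 2 ^ (e + 1)) := by
  classical
  refine dens_FF.wfam (by positivity) (uu_zero e) (fun _ _ => uu_up) fun m p q h1 h2 => ?_
  have h3 := FF_diff m p q e h1.1
  rw [if_pos ⟨h1, h2⟩] at h3
  have h4 : 2 ^ p * FF m (q / 2 ^ p) + 2 ^ (m + p - e - 1) ≤ FF (m + p) q := by omega
  have h5 : (2 : ℝ) ^ p * FF m (q / 2 ^ p) + 2 ^ (m + p - e - 1) ≤ FF (m + p) q := by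
    exact_mod_cast h4
  have h6 : 1 / (2 : ℝ) ^ (e + 1) * 2 ^ (m + p) = 2 ^ (m + p - e - 1) := by
    rw [div_mul_eq_mul_div, one_mul, div_eq_iff (by positivity), ← pow_add]
    congr 1
    have := h1.1
    omega
  linarith

theorem wfam_vv (e : ℕ) : WFam (muF FF) (vv e) 4096 := by
  classical
  refine dens_FF.wfam (by positivity) (vv_zero e) (fun _ _ => vv_up) fun m p q h1 h2 => ?_
  have h3 := FF_diff m p q e h1.1
  rw [if_pos (c := vv e (m + p) q ∧ _) ⟨h1, h2⟩] at h3
  have h4 : 2 ^ p * FF m (q / 2 ^ p) + 2 ^ (m + p + 12) ≤ FF (m + p) q := by omega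
  have h5 : (2 : ℝ) ^ p * FF m (q / 2 ^ p) + 2 ^ (m + p + 12) ≤ FF (m + p) q := by
    exact_mod_cast h4
  have h6 : (4096 : ℝ) * 2 ^ (m + p) = 2 ^ (m + p + 12) := by
    rw [pow_add _ _ 12]; norm_num; ring
  linarith

end OWD
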