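import Pool.Agent.H22.OW.Fam

/-!
MP_9d9f9c_lc: measure of the cylinders of Cantor space (OW-T11, helper53).
-/

open MeasureTheory Set Filter Topology

namespace OWD

lemma val_lt (Z : ℕ → Bool) (n : ℕ) : val Z n < 2 ^ n := by
  induction n with
  | zero => simp [val]
  | succ n ih =>
    rw [val, pow_succ]
    split_ifs <;> omega

lemma val_succ_div (Z : ℕ → Bool) (n : ℕ) : val Z (n + 1) / 2 = val Z n := by
  rw [val]
  split_ifs <;> omega

lemma val_div (Z : ℕ → Bool) (n m : ℕ) : val Z (n + m) / 2 ^ m = val Z n := by
  induction m with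
  | zero => simp
  | succ m ih =>
    rw [← add_assoc, pow_succ', ← Nat.div_div_eq_div_mul, val_succ_div, ih]

/-- a cylinder is a box -/
lemma val_eq_box (n : ℕ) : ∀ i, i < 2 ^ n →
    ∃ t : ℕ → Bool, {Z | val Z n = i} = {Z : ℕ → Bool | ∀ k < n, Z k = t k} := by
  induction n with
  | zero =>
    intro i hi
    refine ⟨fun _ => true, ?_⟩
    ext Z
    simp only [val, mem_ofPred_eq, Nat.not_lt_zero, false_implies, implies_true, iff_true]
    simp only [pow_zero] at hi
    omega
  | succ n ih =>
    intro i hi
    obtain ⟨t, ht⟩ := ih (i / 2) (by rw [pow_succ] at hi; omega)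
    refine ⟨Function.update t n (decide (i % 2 = 1)), ?_⟩
    ext Z
    have h1 : val Z n = i / 2 ↔ ∀ k < n, Z k = t k := by
      have := Set.ext_iff.1 ht Z
      simpa only [mem_ofPred_eq] using this
    simp only [mem_ofPred_eq, val]
    constructor
    · intro h k hk
      rcases Nat.lt_succ_iff_lt_or_eq.1 hk with hk | rfl
      · rw [Function.update_of_ne (by omega)]
        refine h1.1 ?_ k hk
        split_ifs at h <;> omega
      · rw [Function.update_self]
        cases hz : Z k
        · rw [hz] at h
          simp only [Bool.false_eq_true, if_false] at h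
          symm
          rw [decide_eq_false_iff_not]
          omega
        · rw [hz] at h
          simp only [if_true] at h
          symm
          rw [decide_eq_true_iff]
          omega
    · intro h
      have h2 : val Z n = i / 2 := h1.2 fun k hk => by
        have := h k (by omega)
        rwa [Function.update_of_ne (by omega)] at this
      have h3 := h n (by omega)
      rw [Function.update_self] at h3
      rw [h2, h3]
      by_cases h4 : i % 2 = 1
      · simp only [h4, decide_true, if_true]
        omega
      · simp only [h4, decide_false, Bool.false_eq_true, if_false]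
        omega

/-- OW-T11: the measure of a cylinder. -/
theorem cantor_cyl (n i : ℕ) (hi : i < 2 ^ n) :
    cantor {Z | val Z n = i} = (2⁻¹ : ENNReal) ^ n := by
  obtain ⟨t, ht⟩ := val_eq_box n i hi
  rw [ht]
  have h1 : {Z : ℕ → Bool | ∀ k < n, Z k = t k} =
      Set.pi ↑(Finset.range n) (fun k => {t k}) := by
    ext Z
    simp [Set.mem_pi]
  rw [h1]
  unfold cantor
  rw [Measure.infinitePi_pi _ (fun _ _ => measurableSet_singleton _)]
  have h2 : ∀ b : Bool, (PMF.uniformOfFintype Bool).toMeasure {b} = 2⁻¹ := by
    intro b
    rw [PMF.toMeasure_apply_singleton _ _ (measurableSet_singleton _)]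
    simp
  simp [h2]

lemma meas_val (n i : ℕ) : MeasurableSet {Z : ℕ → Bool | val Z n = i} := by
  by_cases hi : i < 2 ^ n
  · obtain ⟨t, ht⟩ := val_eq_box n i hi
    rw [ht]
    have h1 : {Z : ℕ → Bool | ∀ k < n, Z k = t k} = ⋂ k ∈ Finset.range n, {Z | Z k = t k} := by
      ext Z; simp
    rw [h1]
    refine Finset.measurableSet_biInter _ fun k _ => ?_
    exact (measurable_pi_apply (X := fun _ : ℕ => Bool) k) (measurableSet_singleton (t k))
  · have : {Z : ℕ → Bool | val Z n = i} = ∅ := by
      ext Z
      simp only [mem_ofPred_eq, mem_empty_iff_false, iff_false]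
      intro h
      have := val_lt Z n
      omega
    rw [this]
    exact MeasurableSet.empty

/-- the measure of a finite union of cylinders of the same length -/
lemma cantor_finset (n : ℕ) (S : Finset ℕ) (hS : ∀ i ∈ S, i < 2 ^ n) :
    cantor {Z | val Z n ∈ S} = S.card * (2⁻¹ : ENNReal) ^ n := by
  have h1 : {Z : ℕ → Bool | val Z n ∈ S} = ⋃ i ∈ S, {Z | val Z n = i} := by
    ext Z; simp
  rw [h1, measure_biUnion_finset]
  · rw [Finset.sum_congr rfl fun i hi => cantor_cyl n i (hS i hi)]
    simp
  · intro i _ j _ hij
    rw [Function.onFun, Set.disjoint_left]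
    intro Z h2 h3
    exact hij (h2.symm.trans h3)
  · intro i _
    exact meas_val n i

lemma valL_append (σ : List Bool) (b : Bool) :
    valL (σ ++ [b]) = 2 * valL σ + (if b then 1 else 0) := by
  unfold valL
  rw [List.foldl_append]
  rfl

lemma pre_succ (Z : ℕ → Bool) (n : ℕ) : pre Z (n + 1) = pre Z n ++ [Z n] := by
  unfold pre
  rw [List.range_succ, List.map_append]
  rfl

lemma length_pre (Z : ℕ → Bool) (n : ℕ) : (pre Z n).length = n := by
  unfold pre; simp

lemma valL_pre (Z : ℕ → Bool) (n : ℕ) : valL (pre Z n) = val Z n := by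
  induction n with
  | zero => rfl
  | succ n ih => rw [pre_succ, valL_append, ih, val]

lemma valL_lt (σ : List Bool) : valL σ < 2 ^ σ.length := by
  induction σ using List.reverseRecOn with
  | nil => simp [valL]
  | append_singleton σ b ih =>
    rw [valL_append, List.length_append, List.length_singleton, pow_succ]
    split_ifs <;> omega

lemma valL_inj : ∀ {σ τ : List Bool}, σ.length = τ.length → valL σ = valL τ → σ = τ := by
  intro σ
  induction σ using List.reverseRecOn with
  | nil =>
    intro τ h _
    symm
    exact List.length_eq_zero_iff.1 h.symm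
  | append_singleton σ b ih =>
    intro τ h h'
    rcases List.eq_nil_or_concat τ with rfl | ⟨τ', b', rfl⟩
    · simp at h
    · rw [List.concat_eq_append] at h h' ⊢
      rw [List.length_append, List.length_append, List.length_singleton,
        List.length_singleton] at h
      rw [valL_append, valL_append] at h'
      have h1 : valL σ = valL τ' ∧ b = b' := by
        cases b <;> cases b' <;> simp at h' ⊢ <;> omega
      rw [ih (by omega) h1.1, h1.2]

lemma pre_eq_iff {Z : ℕ → Bool} {n : ℕ} {σ : List Bool} :
    pre Z n = σ ↔ σ.length = n ∧ valL σ = val Z n := by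
  constructor
  · rintro rfl
    exact ⟨length_pre Z n, valL_pre Z n⟩
  · rintro ⟨h1, h2⟩
    exact valL_inj (by rw [length_pre, h1]) (by rw [valL_pre, h2])

end OWD
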