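import Pool.Agent.H22.OW.AdvDef
import Pool.Agent.H22.OW.Cyl

/-!
MP_9d9f9c_lc: the adversary attacks all effectively open sets and all tests
(OW-T8, part 3, helper53).
-/

open MeasureTheory Set Filter Topology

namespace OWD

open Nat.Partrec (Code)
open Nat.Partrec.Code (evaln)

/-- enumeration of the recursively enumerable sets -/
lemma re_code {α : Type} [Primcodable α] {W : α → Prop} (hW : REPred W) :
    ∃ e : ℕ, ∀ a, W a ↔ ∃ n, hal e n (Encodable.encode a) := by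
  obtain ⟨c, hc⟩ := Nat.Partrec.Code.exists_code.1 hW
  refine ⟨Encodable.encode c, fun a => ?_⟩
  have h1 : W a ↔ (c.eval (Encodable.encode a)).Dom := by
    rw [hc]
    simp [Encodable.encodek, Part.assert]
  have h2 : (c.eval (Encodable.encode a)).Dom ↔ ∃ n, hal (Encodable.encode c) n (Encodable.encode a) := by
    rw [Part.dom_iff_mem]
    unfold hal
    simp only [Denumerable.ofNat_encode, Option.isSome_iff_exists]
    constructor
    · rintro ⟨y, hy⟩
      obtain ⟨k, hk⟩ := Nat.Partrec.Code.evaln_complete.1 hy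
      exact ⟨k, y, hk⟩
    · rintro ⟨k, y, hk⟩
      exact ⟨y, Nat.Partrec.Code.evaln_complete.2 ⟨k, hk⟩⟩
  rw [h1, h2]

lemma rat_lt (p : ℕ × ℕ × ℕ) (n i : ℕ) :
    ((rat p : ℚ) : ℝ) < (i : ℝ) / 2 ^ n ↔ p.1 * 2 ^ n < i * (p.2.2 + 1) + p.2.1 * 2 ^ n := by
  unfold rat
  push_cast
  rw [div_lt_div_iff₀ (by positivity) (by positivity)]
  constructor
  · intro h
    have : (p.1 : ℝ) * 2 ^ n < i * (p.2.2 + 1) + p.2.1 * 2 ^ n := by linarith
    exact_mod_cast this
  · intro h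
    have : (p.1 : ℝ) * 2 ^ n < i * (p.2.2 + 1) + p.2.1 * 2 ^ n := by exact_mod_cast h
    linarith

lemma lt_rat (p : ℕ × ℕ × ℕ) (n i : ℕ) :
    ((i : ℝ) + 1) / 2 ^ n < ((rat p : ℚ) : ℝ) ↔
      (i + 1) * (p.2.2 + 1) + p.2.1 * 2 ^ n < p.1 * 2 ^ n := by
  unfold rat
  push_cast
  rw [div_lt_div_iff₀ (by positivity) (by positivity)]
  constructor
  · intro h
    have : ((i : ℝ) + 1) * (p.2.2 + 1) + p.2.1 * 2 ^ n < p.1 * 2 ^ n := by linarith
    exact_mod_cast this
  · intro h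
    have : ((i : ℝ) + 1) * (p.2.2 + 1) + p.2.1 * 2 ^ n < p.1 * 2 ^ n := by exact_mod_cast h
    linarith

lemma inI_iff (p : PQ) (n i : ℕ) : inI p n i ↔
    ((rat p.1 : ℚ) : ℝ) < (i : ℝ) / 2 ^ n ∧ ((i : ℝ) + 1) / 2 ^ n < ((rat p.2 : ℚ) : ℝ) := by
  rw [rat_lt, lt_rat]
  rfl

/-- The effectively open sets are attacked. -/
theorem adv_open {U : Set ℝ} (hU : EffOpen U) : ∃ e, (⋃ n, Wset (uu e) n) ⊆ U ∧
    ∀ z ∈ U, 0 < z → z < 1 → z ∈ ⋃ n, Wset (uu e) n := by
  obtain ⟨W, hW, rfl⟩ := hU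
  obtain ⟨e, he⟩ := re_code hW
  refine ⟨e, ?_, ?_⟩
  · intro z hz
    simp only [Wset, mem_iUnion, mem_ofPred_eq, exists_prop] at hz ⊢
    obtain ⟨n, i, ⟨-, -, j, -, hj, hI⟩, hzi⟩ := hz
    refine ⟨Denumerable.ofNat PQ j, (he _).2 ⟨n, ?_⟩, ?_⟩
    · rw [Denumerable.encode_ofNat]; exact hj
    · rw [inI_iff] at hI
      exact ⟨hI.1.trans_le hzi.1, hzi.2.trans hI.2⟩
  · intro z hz hz0 hz1
    simp only [mem_iUnion, mem_ofPred_eq, exists_prop] at hz
    obtain ⟨p, hp, hzp⟩ := hz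
    obtain ⟨n0, hn0⟩ := (he p).1 hp
    have hpos : 0 < min (z - (rat p.1 : ℝ)) ((rat p.2 : ℝ) - z) := by
      apply lt_min <;> linarith [hzp.1, hzp.2]
    obtain ⟨n1, hn1⟩ := exists_pow_lt_of_lt_one hpos (show (1 / 2 : ℝ) < 1 by norm_num)
    set n := max (max n0 n1) (max (e + 1) (Encodable.encode p + 1)) with hn
    have g1 : n0 ≤ n := (le_max_left _ _).trans (le_max_left _ _)
    have g2 : n1 ≤ n := (le_max_right _ _).trans (le_max_left _ _)
    have g3 : e + 1 ≤ n := (le_max_left _ _).trans (le_max_right _ _)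
    have g4 : Encodable.encode p + 1 ≤ n := (le_max_right _ _).trans (le_max_right _ _)
    have h1 : (1 : ℝ) / 2 ^ n < min (z - (rat p.1 : ℝ)) ((rat p.2 : ℝ) - z) := by
      refine lt_of_le_of_lt ?_ hn1
      rw [← one_div_pow]
      exact pow_le_pow_of_le_one (by norm_num) (by norm_num) g2
    have h2 := lt_of_lt_of_le h1 (min_le_left _ _)
    have h3 := lt_of_lt_of_le h1 (min_le_right _ _)
    have h4 : z ∈ cellSet n ⌊z * 2 ^ n⌋₊ := by
      rw [Den.mem_cell]
      exact ⟨Nat.floor_le (by positivity), Nat.lt_floor_add_one _⟩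
    set i := ⌊z * 2 ^ n⌋₊ with hi
    have h5 : ((i : ℝ) + 1) / 2 ^ n = (i : ℝ) / 2 ^ n + 1 / 2 ^ n := by rw [add_div]
    refine mem_iUnion.2 ⟨n, mem_iUnion₂.2 ⟨i, ?_, h4⟩⟩
    have hp2 : (0 : ℝ) < 2 ^ n := by positivity
    refine ⟨by omega, ?_, Encodable.encode p, by omega, hal_mono g1 hn0, ?_⟩
    · have h6 : (i : ℝ) < 2 ^ n := by
        have := (Den.mem_cell.1 h4).1
        nlinarith
      exact_mod_cast h6
    · rw [Denumerable.ofNat_encode, inI_iff]
      constructor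
      · have := h4.2
        rw [h5] at this
        linarith
      · have := h4.1
        rw [h5]
        linarith

lemma bitsL_val (Z : ℕ → Bool) (l : ℕ) : bitsL l (val Z l) = pre Z l := by
  unfold bitsL pre
  refine List.map_congr_left fun k hk => ?_
  rw [List.mem_range] at hk
  have h1 : val Z l / 2 ^ (l - 1 - k) = val Z (k + 1) := by
    have := val_div Z (k + 1) (l - 1 - k)
    rwa [show k + 1 + (l - 1 - k) = l by omega] at this
  rw [h1, val]
  cases h2 : Z k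
  · simp
  · simp only [if_true]
    rw [decide_eq_true_iff]
    omega

lemma bitsL_pre (Z : ℕ → Bool) {n l : ℕ} (h : l ≤ n) :
    bitsL l (val Z n / 2 ^ (n - l)) = pre Z l := by
  have h1 : val Z n / 2 ^ (n - l) = val Z l := by
    have := val_div Z l (n - l)
    rwa [show l + (n - l) = n by omega] at this
  rw [h1, bitsL_val]

/-- The tests are attacked. -/
theorem adv_test {G : ℕ → Set (ℕ → Bool)} (hG : UnifSigma G)
    (hm : ∀ k, cantor (G k) ≤ (2⁻¹ : ENNReal) ^ k) :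
    ∃ e k, ∀ Z ∈ G k, ∃ n, vv e n (val Z n) := by
  classical
  obtain ⟨W, hW, hGW⟩ := hG
  obtain ⟨e, he⟩ := re_code hW
  refine ⟨e, e + 13, ?_⟩
  have hsub : ∀ n, {Z | val Z n ∈ (Finset.range (2 ^ n)).filter fun i => SS e n i} ⊆
      G (e + 13) := by
    intro n Z hZ
    rw [mem_ofPred_eq, Finset.mem_filter] at hZ
    obtain ⟨-, -, l, hl, h1⟩ := hZ
    rw [hGW]
    refine ⟨l, (he _).2 ⟨n, ?_⟩⟩
    rw [← bitsL_pre Z (n := n) (by omega)]
    exact h1
  have hcut : ∀ n, cS e n * 2 ^ (e + 13) ≤ 2 ^ n := by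
    intro n
    have h1 := cantor_finset n ((Finset.range (2 ^ n)).filter fun i => SS e n i)
      (fun i hi => Finset.mem_range.1 (Finset.mem_filter.1 hi).1)
    have h2 : ((cS e n : ℕ) : ENNReal) * (2⁻¹ : ENNReal) ^ n ≤ (2⁻¹ : ENNReal) ^ (e + 13) := by
      have h3 : cS e n = ((Finset.range (2 ^ n)).filter fun i => SS e n i).card := by
        unfold cS; congr
      rw [h3, ← h1]
      exact (measure_mono (hsub n)).trans (hm _)
    have h3 : ((cS e n : ℕ) : ℝ) * (2⁻¹ : ℝ) ^ n ≤ (2⁻¹ : ℝ) ^ (e + 13) := by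
      have h4 := ENNReal.toReal_mono (by
        apply ENNReal.pow_ne_top
        simp) h2
      simpa using h4
    have h4 : ((cS e n : ℕ) : ℝ) * 2 ^ (e + 13) ≤ 2 ^ n := by
      rw [inv_pow, inv_pow, ← div_eq_mul_inv, div_le_iff₀ (by positivity), ← one_div,
        one_div_mul_eq_div, le_div_iff₀ (by positivity)] at h3
      exact h3
    exact_mod_cast h4
  intro Z hZ
  rw [hGW] at hZ
  obtain ⟨l, hl⟩ := hZ
  obtain ⟨n0, hn0⟩ := (he _).1 hl
  set n := max n0 (max l (e + 1)) with hn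
  have g1 : n0 ≤ n := le_max_left _ _
  have g2 : l ≤ n := (le_max_left _ _).trans (le_max_right _ _)
  have g3 : e + 1 ≤ n := (le_max_right _ _).trans (le_max_right _ _)
  refine ⟨n, by omega, n, by omega, hcut n, ?_, l, by omega, ?_⟩
  · rw [Nat.sub_self, pow_zero, Nat.div_one]
    exact val_lt Z n
  · rw [Nat.sub_self, pow_zero, Nat.div_one, bitsL_pre Z g2]
    exact hal_mono g1 hn0

end OWD
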