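import Pool.Agent.H22.OW.Density

/-!
MP_9d9f9c_lc: masses from densities (OW-T8, part 1, helper53).
`F n q` is `2 ^ n` times the value of the function `f_n` on the cell `(n, q)`.
-/

open MeasureTheory Set Filter Topology

namespace OWD

/-- The mass of the cell `(L, i)` for the density `F n`, times `4 ^ n * 2 ^ L`. -/
def MF (F : ℕ → ℕ → ℕ) (n L i : ℕ) : ℕ := ∑ k ∈ Finset.range (2 ^ n), F n ((i * 2 ^ n + k) / 2 ^ L)

/-- The mass function. -/
noncomputable def muF (F : ℕ → ℕ → ℕ) (n L i : ℕ) : ℝ := (MF F n L i : ℝ) / (4 ^ n * 2 ^ L)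

/-- Admissible densities. -/
structure Dens (F : ℕ → ℕ → ℕ) : Prop where
  zero : ∀ i, F 0 i = 0
  up : ∀ n i, 2 * F n (i / 2) ≤ F (n + 1) i
  total : ∀ n, ∑ k ∈ Finset.range (2 ^ n), F n k ≤ 2 * 4 ^ n

lemma sum_blocks (g : ℕ → ℕ) (N P : ℕ) (hP : 0 < P) :
    ∑ k ∈ Finset.range (N * P), g (k / P) = P * ∑ k ∈ Finset.range N, g k := by
  induction N with
  | zero => simp
  | succ N ih =>
    rw [Nat.succ_mul, Finset.sum_range_add, ih, Finset.sum_range_succ, mul_add]
    congr 1
    rw [Finset.sum_congr rfl (g := fun _ => g N)]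
    · simp
    · intro l hl
      rw [Finset.mem_range] at hl
      congr 1
      rw [mul_comm, Nat.mul_add_div hP, Nat.div_eq_of_lt hl, add_zero]

/-- the mass of stage `m` at the resolution of stage `m + p` -/
lemma MF_refine (F : ℕ → ℕ → ℕ) (m p L i : ℕ) :
    ∑ k ∈ Finset.range (2 ^ (m + p)), F m ((i * 2 ^ (m + p) + k) / 2 ^ L / 2 ^ p) =
      2 ^ p * MF F m L i := by
  unfold MF
  rw [← sum_blocks (fun k => F m ((i * 2 ^ m + k) / 2 ^ L)) (2 ^ m) (2 ^ p) (by positivity),
    ← pow_add]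
  refine Finset.sum_congr rfl fun k _ => ?_
  congr 1
  rw [Nat.div_div_eq_div_mul, mul_comm (2 ^ L) (2 ^ p), ← Nat.div_div_eq_div_mul]
  congr 1
  rw [pow_add, ← mul_assoc, mul_comm (i * 2 ^ m) (2 ^ p), Nat.mul_add_div (by positivity)]

lemma Dens.up_pow {F : ℕ → ℕ → ℕ} (h : Dens F) (m p q : ℕ) :
    2 ^ p * F m (q / 2 ^ p) ≤ F (m + p) q := by
  induction p generalizing q with
  | zero => simp
  | succ p ih =>
    have h1 := h.up (m + p) q
    have h2 := ih (q / 2)
    rw [Nat.div_div_eq_div_mul, ← pow_succ'] at h2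
    have h3 : (2 : ℕ) ^ (p + 1) = 2 * 2 ^ p := pow_succ' 2 p
    rw [← add_assoc, h3, mul_assoc, ← h3]
    exact (Nat.mul_le_mul_left 2 h2).trans h1

lemma MF_split (F : ℕ → ℕ → ℕ) (n L i : ℕ) :
    MF F n (L + 1) (2 * i) + MF F n (L + 1) (2 * i + 1) = 2 * MF F n L i := by
  unfold MF
  have h1 := sum_blocks (fun k => F n ((i * 2 ^ n + k) / 2 ^ L)) (2 ^ n) 2 (by norm_num)
  rw [← h1, mul_two, Finset.sum_range_add]
  have key : ∀ k, (i * 2 ^ n + k / 2) / 2 ^ L = (2 * i * 2 ^ n + k) / 2 ^ (L + 1) := by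
    intro k
    rw [pow_succ', ← Nat.div_div_eq_div_mul]
    congr 1
    rw [mul_assoc, Nat.mul_add_div (by norm_num)]
  congr 1
  · refine Finset.sum_congr rfl fun k _ => ?_
    rw [key]
  · refine Finset.sum_congr rfl fun k _ => ?_
    rw [key]
    congr 2
    ring

lemma MF_mono {F : ℕ → ℕ → ℕ} (h : Dens F) (m p L i : ℕ) :
    4 ^ p * MF F m L i ≤ MF F (m + p) L i := by
  have h1 : 4 ^ p * MF F m L i = 2 ^ p * (2 ^ p * MF F m L i) := by
    rw [← mul_assoc, ← mul_pow]; norm_num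
  rw [h1, ← MF_refine, Finset.mul_sum]
  unfold MF
  refine Finset.sum_le_sum fun k _ => ?_
  exact h.up_pow m p _

/-- The masses of an admissible density are an adversary. -/
theorem Dens.adv {F : ℕ → ℕ → ℕ} (h : Dens F) : Adv (muF F) where
  nonneg n L i := by unfold muF; positivity
  split n L i := by
    have h1 := MF_split F n L i
    have h2 : (MF F n (L + 1) (2 * i) : ℝ) + MF F n (L + 1) (2 * i + 1) = 2 * MF F n L i := by
      exact_mod_cast h1
    unfold muF
    rw [pow_succ, ← add_div, h2]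
    field_simp
  mono n L i := by
    have h1 := MF_mono h n 1 L i
    have h2 : (4 : ℝ) * MF F n L i ≤ MF F (n + 1) L i := by exact_mod_cast (by simpa using h1)
    unfold muF
    rw [div_le_div_iff₀ (by positivity) (by positivity), pow_succ]
    have h3 : (0 : ℝ) < 4 ^ n * 2 ^ L := by positivity
    nlinarith
  zero L i := by
    unfold muF MF
    simp [h.zero]
  total n := by
    unfold muF MF
    simp only [zero_mul, zero_add, pow_zero, Nat.div_one, mul_one]
    rw [div_le_iff₀ (by positivity)]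
    exact_mod_cast h.total n

/-- The volume of the part of a cell in the set `W n`. -/
lemma vol_cell_inter (W : ℕ → ℕ → Prop) [∀ n i, Decidable (W n i)] (n L i : ℕ) :
    (volume (cellSet L i ∩ Wset W n)).toReal ≤
      ((Finset.range (2 ^ n)).filter fun k => W n ((i * 2 ^ n + k) / 2 ^ L)).card / 2 ^ (L + n) := by
  set S := (Finset.range (2 ^ n)).filter fun k => W n ((i * 2 ^ n + k) / 2 ^ L) with hS
  have hsub : cellSet L i ∩ Wset W n ⊆ ⋃ k ∈ S, cellSet (L + n) (i * 2 ^ n + k) := by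
    rintro x ⟨hx, hxW⟩
    have hx0 : 0 ≤ x := Den.Wset_nonneg hxW
    have hxc : x ∈ cellSet (L + n) ⌊x * 2 ^ (L + n)⌋₊ := by
      rw [Den.mem_cell]
      exact ⟨Nat.floor_le (by positivity), Nat.lt_floor_add_one _⟩
    set j := ⌊x * 2 ^ (L + n)⌋₊ with hj
    have h1 : i = j / 2 ^ n := by
      have := Den.cell_up (L := L) (by omega) hxc
      rw [Nat.add_sub_cancel_left] at this
      exact Den.cell_unique hx this
    have h2 := Nat.div_add_mod j (2 ^ n)
    have h3 : j % 2 ^ n < 2 ^ n := Nat.mod_lt _ (by positivity)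
    have h4 : i * 2 ^ n + j % 2 ^ n = j := by rw [h1, mul_comm]; exact h2
    simp only [mem_iUnion, exists_prop]
    refine ⟨j % 2 ^ n, ?_, by rw [h4]; exact hxc⟩
    rw [hS, Finset.mem_filter, Finset.mem_range, h4]
    refine ⟨h3, ?_⟩
    simp only [Wset, mem_iUnion, mem_ofPred_eq, exists_prop] at hxW
    obtain ⟨i', hi', hx'⟩ := hxW
    have h5 := Den.cell_up (L := n) (by omega) hxc
    rw [Nat.add_sub_cancel] at h5
    rw [← Den.cell_unique hx' h5]
    exact hi'
  have hfin : ∀ k, volume (cellSet (L + n) (i * 2 ^ n + k)) ≠ ⊤ := by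
    intro k
    unfold cellSet
    rw [Real.volume_Ico]
    exact ENNReal.ofReal_ne_top
  have h1 : (volume (cellSet L i ∩ Wset W n)).toReal ≤
      ∑ k ∈ S, (volume (cellSet (L + n) (i * 2 ^ n + k))).toReal := by
    rw [← ENNReal.toReal_sum (fun k _ => hfin k)]
    apply ENNReal.toReal_mono
    · exact (ENNReal.sum_lt_top.2 fun k _ => (hfin k).lt_top).ne
    · exact (measure_mono hsub).trans (measure_biUnion_finset_le _ _)
  refine h1.trans (le_of_eq ?_)
  rw [Finset.sum_congr rfl fun k _ => Den.vol_cell _ _]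
  rw [Finset.sum_const, nsmul_eq_mul]
  ring

/-- Criterion for attacked families. -/
theorem Dens.wfam {F : ℕ → ℕ → ℕ} {W : ℕ → ℕ → Prop} {κ : ℝ} (h : Dens F)
    (hκ : 0 < κ) (h0 : ∀ i, ¬ W 0 i)
    (hup : ∀ n i, W n i → W (n + 1) (2 * i) ∧ W (n + 1) (2 * i + 1))
    (hF : ∀ m p q, W (m + p) q → ¬ W m (q / 2 ^ p) →
      κ * 2 ^ (m + p) + (2 : ℝ) ^ p * F m (q / 2 ^ p) ≤ F (m + p) q) : WFam (muF F) W κ where
  pos := hκ
  zero := h0
  up := hup
  mass := by
    classical
    intro m n L i hmn hmL hW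
    obtain ⟨p, rfl⟩ := Nat.exists_eq_add_of_le hmn
    have h1 := vol_cell_inter W (m + p) L i
    set S := (Finset.range (2 ^ (m + p))).filter
      fun k => W (m + p) ((i * 2 ^ (m + p) + k) / 2 ^ L) with hS
    have hq : ∀ k ∈ Finset.range (2 ^ (m + p)),
        (i * 2 ^ (m + p) + k) / 2 ^ L / 2 ^ p = i / 2 ^ (L - m) := by
      intro k hk
      rw [Finset.mem_range] at hk
      obtain ⟨r, rfl⟩ := Nat.exists_eq_add_of_le hmL
      rw [Nat.add_sub_cancel_left, Nat.div_div_eq_div_mul, ← pow_add,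
        show m + r + p = (m + p) + r by ring, pow_add 2 (m + p) r, ← Nat.div_div_eq_div_mul]
      congr 1
      rw [mul_comm, Nat.mul_add_div (by positivity), Nat.div_eq_of_lt hk, add_zero]
    have h2 : (2 : ℝ) ^ p * (2 ^ p * MF F m L i) + κ * 2 ^ (m + p) * S.card ≤
        MF F (m + p) L i := by
      have e1 : ((2 ^ p * MF F m L i : ℕ) : ℝ) = ∑ k ∈ Finset.range (2 ^ (m + p)),
          (F m ((i * 2 ^ (m + p) + k) / 2 ^ L / 2 ^ p) : ℝ) := by
        rw [← MF_refine]; push_cast; rfl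
      have e2 : (2 : ℝ) ^ p * MF F m L i = ((2 ^ p * MF F m L i : ℕ) : ℝ) := by push_cast; ring
      rw [e2, e1, Finset.mul_sum]
      have e3 : κ * 2 ^ (m + p) * (S.card : ℝ) = ∑ k ∈ Finset.range (2 ^ (m + p)),
          if W (m + p) ((i * 2 ^ (m + p) + k) / 2 ^ L) then κ * 2 ^ (m + p) else 0 := by
        rw [← Finset.sum_filter, Finset.sum_const, nsmul_eq_mul]
        ring
      rw [e3, ← Finset.sum_add_distrib]
      unfold MF
      push_cast
      refine Finset.sum_le_sum fun k hk => ?_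
      split_ifs with h3
      · have := hF m p _ h3 (by rw [hq k hk]; exact hW)
        linarith
      · have := h.up_pow m p ((i * 2 ^ (m + p) + k) / 2 ^ L)
        rw [add_zero]
        exact_mod_cast this
    have h3 : muF F (m + p) L i - muF F m L i =
        (MF F (m + p) L i - (2 : ℝ) ^ p * (2 ^ p * MF F m L i)) / (4 ^ (m + p) * 2 ^ L) := by
      unfold muF
      rw [sub_div]
      congr 1
      rw [div_eq_div_iff (by positivity) (by positivity), pow_add,
        show (4 : ℝ) ^ p = 2 ^ p * 2 ^ p by rw [← mul_pow]; norm_num]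
      ring
    rw [h3, le_div_iff₀ (by positivity)]
    have h4 : κ * (volume (cellSet L i ∩ Wset W (m + p))).toReal * (4 ^ (m + p) * 2 ^ L) ≤
        κ * (S.card / 2 ^ (L + (m + p))) * (4 ^ (m + p) * 2 ^ L) := by
      gcongr
    have h5 : κ * ((S.card : ℝ) / 2 ^ (L + (m + p))) * (4 ^ (m + p) * 2 ^ L) =
        κ * 2 ^ (m + p) * S.card := by
      rw [pow_add 2 L, show (4 : ℝ) ^ (m + p) = 2 ^ (m + p) * 2 ^ (m + p) by
        rw [← mul_pow]; norm_num]
      field_simp
    linarith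

end OWD
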