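import Pool.Agent.H22.OW.AdvDef

/-!
MP_9d9f9c_lc: the adversary is primitive recursive (OW-T8, part 4, helper53).
-/

open Set Filter Topology

namespace OWD

open Nat.Partrec (Code)
open Nat.Partrec.Code (evaln)

namespace Pr

variable {α : Type} [Primcodable α]

lemma add {f g : α → ℕ} (hf : Primrec f) (hg : Primrec g) : Primrec fun a => f a + g a :=
  Primrec.nat_add.comp hf hg

lemma sub {f g : α → ℕ} (hf : Primrec f) (hg : Primrec g) : Primrec fun a => f a - g a :=
  Primrec.nat_sub.comp hf hg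

lemma mul {f g : α → ℕ} (hf : Primrec f) (hg : Primrec g) : Primrec fun a => f a * g a :=
  Primrec.nat_mul.comp hf hg

lemma div {f g : α → ℕ} (hf : Primrec f) (hg : Primrec g) : Primrec fun a => f a / g a :=
  Primrec.nat_div.comp hf hg

lemma mod {f g : α → ℕ} (hf : Primrec f) (hg : Primrec g) : Primrec fun a => f a % g a :=
  Primrec.nat_mod.comp hf hg

lemma nat_pow : Primrec₂ ((· ^ ·) : ℕ → ℕ → ℕ) := Primrec₂.unpaired'.1 Nat.Primrec.pow

lemma pow {f g : α → ℕ} (hf : Primrec f) (hg : Primrec g) : Primrec fun a => f a ^ g a :=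
  nat_pow.comp hf hg

lemma two_pow {g : α → ℕ} (hg : Primrec g) : Primrec fun a => 2 ^ g a :=
  pow (Primrec.const 2) hg

lemma lt {f g : α → ℕ} (hf : Primrec f) (hg : Primrec g) : PrimrecPred fun a => f a < g a :=
  Primrec.nat_lt.comp hf hg

lemma le {f g : α → ℕ} (hf : Primrec f) (hg : Primrec g) : PrimrecPred fun a => f a ≤ g a :=
  Primrec.nat_le.comp hf hg

lemma eqn {f g : α → ℕ} (hf : Primrec f) (hg : Primrec g) : PrimrecPred fun a => f a = g a :=
  Primrec.eq.comp hf hg

/-- bounded sums -/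
lemma sum {f : α → ℕ → ℕ} {g : α → ℕ} (hf : Primrec fun p : α × ℕ => f p.1 p.2)
    (hg : Primrec g) : Primrec fun a => ∑ k ∈ Finset.range (g a), f a k := by
  have h0 : Primrec₂ (fun (a : α) (q : ℕ × ℕ) => q.2 + f a q.1) := by
    refine Primrec.nat_add.comp (Primrec.snd.comp Primrec.snd) ?_
    exact hf.comp (Primrec.fst.pair (Primrec.fst.comp Primrec.snd))
  have h1 := Primrec.nat_rec' (h := fun (a : α) (q : ℕ × ℕ) => q.2 + f a q.1) hg
    (Primrec.const 0) h0
  refine h1.of_eq fun a => ?_
  induction g a with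
  | zero => rfl
  | succ n ih =>
    rw [Finset.sum_range_succ, ← ih]

/-- bounded existence -/
lemma ex {p : α → ℕ → Prop} {g : α → ℕ} (hp : PrimrecPred fun q : α × ℕ => p q.1 q.2)
    (hg : Primrec g) : PrimrecPred fun a => ∃ k, k < g a ∧ p a k := by
  have h1 : PrimrecRel fun (k : ℕ) (a : α) => p a k := hp.comp (Primrec.snd.pair Primrec.fst)
  exact (PrimrecRel.comp (PrimrecRel.exists_mem_list h1) (Primrec.list_range.comp hg)
    Primrec.id).of_eq fun a => by simp

lemma hal {f g h : α → ℕ} (hf : Primrec f) (hg : Primrec g) (hh : Primrec h) :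
    PrimrecPred fun a => hal (f a) (g a) (h a) := by
  have h1 : Primrec fun a => (evaln (g a) (Denumerable.ofNat Code (f a)) (h a)).isSome :=
    Primrec.option_isSome.comp (Nat.Partrec.Code.primrec_evaln.comp
      ((hg.pair ((Primrec.ofNat Code).comp hf)).pair hh))
  exact Primrec.eq.comp h1 (Primrec.const true)

lemma inI {p : α → PQ} {f g : α → ℕ} (hp : Primrec p) (hf : Primrec f) (hg : Primrec g) :
    PrimrecPred fun a => inI (p a) (f a) (g a) := by
  have h1 : Primrec fun a => (p a).1 := Primrec.fst.comp hp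
  have h2 : Primrec fun a => (p a).2 := Primrec.snd.comp hp
  have h11 : Primrec fun a => (p a).1.1 := Primrec.fst.comp h1
  have h12 : Primrec fun a => (p a).1.2 := Primrec.snd.comp h1
  have h121 : Primrec fun a => (p a).1.2.1 := Primrec.fst.comp h12
  have h122 : Primrec fun a => (p a).1.2.2 := Primrec.snd.comp h12
  have h21 : Primrec fun a => (p a).2.1 := Primrec.fst.comp h2
  have h22 : Primrec fun a => (p a).2.2 := Primrec.snd.comp h2
  have h221 : Primrec fun a => (p a).2.2.1 := Primrec.fst.comp h22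
  have h222 : Primrec fun a => (p a).2.2.2 := Primrec.snd.comp h22
  have hP := two_pow hf
  have c1 := Primrec.const (α := α) (1 : ℕ)
  exact (lt (mul h11 hP) (add (mul hg (add h122 c1)) (mul h121 hP))).and
    (lt (add (mul (add hg c1) (add h222 c1)) (mul h221 hP)) (mul h21 hP))

lemma uu {e n i : α → ℕ} (he : Primrec e) (hn : Primrec n) (hi : Primrec i) :
    PrimrecPred fun a => uu (e a) (n a) (i a) := by
  have h1 : PrimrecPred fun q : α × ℕ => OWD.hal (e q.1) (n q.1) q.2 ∧
      OWD.inI (Denumerable.ofNat PQ q.2) (n q.1) (i q.1) :=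
    (hal (he.comp Primrec.fst) (hn.comp Primrec.fst) Primrec.snd).and
      (inI ((Primrec.ofNat PQ).comp Primrec.snd) (hn.comp Primrec.fst) (hi.comp Primrec.fst))
  exact (lt he hn).and ((lt hi (two_pow hn)).and (ex h1 hn))

lemma bitsL {l m : α → ℕ} (hl : Primrec l) (hm : Primrec m) :
    Primrec fun a => bitsL (l a) (m a) := by
  refine Primrec.list_map (Primrec.list_range.comp hl) ?_
  have h1 : PrimrecPred fun q : α × ℕ => m q.1 / 2 ^ (l q.1 - 1 - q.2) % 2 = 1 :=
    eqn (mod (div (hm.comp Primrec.fst) (two_pow (sub (sub (hl.comp Primrec.fst)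
      (Primrec.const 1)) Primrec.snd))) (Primrec.const 2)) (Primrec.const 1)
  exact h1.decide

lemma SS {e n i : α → ℕ} (he : Primrec e) (hn : Primrec n) (hi : Primrec i) :
    PrimrecPred fun a => SS (e a) (n a) (i a) := by
  have h1 : PrimrecPred fun q : α × ℕ => OWD.hal (e q.1) (n q.1)
      (Encodable.encode ((e q.1 + 13, OWD.bitsL q.2 (i q.1 / 2 ^ (n q.1 - q.2))) :
        ℕ × List Bool)) := by
    refine hal (he.comp Primrec.fst) (hn.comp Primrec.fst) (Primrec.encode.comp ?_)
    refine (add (he.comp Primrec.fst) (Primrec.const 13)).pair ?_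
    exact bitsL Primrec.snd (div (hi.comp Primrec.fst)
      (two_pow (sub (hn.comp Primrec.fst) Primrec.snd)))
  exact (lt hi (two_pow hn)).and (ex h1 (add hn (Primrec.const 1)))

lemma cS {e n : α → ℕ} (he : Primrec e) (hn : Primrec n) :
    Primrec fun a => cS (e a) (n a) := by
  classical
  have h1 : Primrec fun q : α × ℕ => if OWD.SS (e q.1) (n q.1) q.2 then 1 else 0 :=
    Primrec.ite (SS (he.comp Primrec.fst) (hn.comp Primrec.fst) Primrec.snd) (Primrec.const 1)
      (Primrec.const 0)
  refine (sum (f := fun a k => if OWD.SS (e a) (n a) k then 1 else 0) h1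
    (two_pow hn)).of_eq fun a => ?_
  unfold OWD.cS
  rw [Finset.card_filter]

lemma vv {e n i : α → ℕ} (he : Primrec e) (hn : Primrec n) (hi : Primrec i) :
    PrimrecPred fun a => vv (e a) (n a) (i a) := by
  have h1 : PrimrecPred fun q : α × ℕ => OWD.cS (e q.1) q.2 * 2 ^ (e q.1 + 13) ≤ 2 ^ q.2 ∧
      OWD.SS (e q.1) q.2 (i q.1 / 2 ^ (n q.1 - q.2)) := by
    have he' : Primrec fun q : α × ℕ => e q.1 := he.comp Primrec.fst
    have hn' : Primrec fun q : α × ℕ => n q.1 := hn.comp Primrec.fst
    have hi' : Primrec fun q : α × ℕ => i q.1 := hi.comp Primrec.fst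
    exact (le (mul (cS he' Primrec.snd) (two_pow (add he' (Primrec.const 13))))
      (two_pow Primrec.snd)).and
      (SS he' Primrec.snd (div hi' (two_pow (sub hn' Primrec.snd))))
  exact (lt he hn).and (ex h1 (add hn (Primrec.const 1)))

lemma FF {n i : α → ℕ} (hn : Primrec n) (hi : Primrec i) :
    Primrec fun a => FF (n a) (i a) := by
  classical
  have hn' : Primrec fun q : α × ℕ => n q.1 := hn.comp Primrec.fst
  have hi' : Primrec fun q : α × ℕ => i q.1 := hi.comp Primrec.fst
  have h1 : Primrec fun q : α × ℕ =>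
      (if OWD.uu q.2 (n q.1) (i q.1) then 2 ^ (n q.1 - q.2 - 1) else 0) +
      (if OWD.vv q.2 (n q.1) (i q.1) then 2 ^ (n q.1 + 12) else 0) := by
    refine add (Primrec.ite (uu Primrec.snd hn' hi') ?_ (Primrec.const 0))
      (Primrec.ite (vv Primrec.snd hn' hi') ?_ (Primrec.const 0))
    · exact two_pow (sub (sub hn' Primrec.snd) (Primrec.const 1))
    · exact two_pow (add hn' (Primrec.const 12))
  refine (sum (f := fun a k => (if OWD.uu k (n a) (i a) then 2 ^ (n a - k - 1) else 0) +
    (if OWD.vv k (n a) (i a) then 2 ^ (n a + 12) else 0)) h1 hn).of_eq fun a => ?_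
  unfold OWD.FF
  refine Finset.sum_congr rfl fun k _ => ?_
  congr

lemma MFF {n L i : α → ℕ} (hn : Primrec n) (hL : Primrec L) (hi : Primrec i) :
    Primrec fun a => MF OWD.FF (n a) (L a) (i a) := by
  have hn' : Primrec fun q : α × ℕ => n q.1 := hn.comp Primrec.fst
  have hi' : Primrec fun q : α × ℕ => i q.1 := hi.comp Primrec.fst
  have hL' : Primrec fun q : α × ℕ => L q.1 := hL.comp Primrec.fst
  have h1 : Primrec fun q : α × ℕ =>
      OWD.FF (n q.1) ((i q.1 * 2 ^ n q.1 + q.2) / 2 ^ L q.1) :=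
    FF hn' (div (add (mul hi' (two_pow hn')) Primrec.snd) (two_pow hL'))
  exact sum h1 (two_pow hn)

end Pr

end OWD
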