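import Pool.Agent.H22.OW.AdvEnum
import Pool.Agent.H22.OW.AdvPrim

/-!
MP_9d9f9c_lc: the adversary (OW-T8, helper53).
-/

open MeasureTheory Set Filter Topology

namespace OWD

/-- OW-T8 (the adversary). -/
theorem exists_adversary : ∃ M : ℕ → ℕ → ℕ → ℕ,
    (Primrec fun p : ℕ × ℕ × ℕ => M p.1 p.2.1 p.2.2) ∧
    Adv (fun n L i => (M n L i : ℝ) / (4 ^ n * 2 ^ L)) ∧
    (∀ U : Set ℝ, EffOpen U → ∃ (W : ℕ → ℕ → Prop) (κ : ℝ),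
      WFam (fun n L i => (M n L i : ℝ) / (4 ^ n * 2 ^ L)) W κ ∧ (⋃ n, Wset W n) ⊆ U ∧
      ∀ z ∈ U, 0 < z → z < 1 → (∀ L i : ℕ, z ≠ (i : ℝ) / 2 ^ L) → z ∈ ⋃ n, Wset W n) ∧
    (∀ G : ℕ → Set (ℕ → Bool), UnifSigma G → (∀ k, cantor (G k) ≤ (2⁻¹ : ENNReal) ^ k) →
      ∃ (W : ℕ → ℕ → Prop) (κ : ℝ),
        WFam (fun n L i => (M n L i : ℝ) / (4 ^ n * 2 ^ L)) W κ ∧ 2048 < κ ∧
        ∃ k, ∀ Z ∈ G k, ∃ n, W n (val Z n)) := by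
  refine ⟨MF FF, ?_, dens_FF.adv, ?_, ?_⟩
  · exact Pr.MFF Primrec.fst (Primrec.fst.comp Primrec.snd) (Primrec.snd.comp Primrec.snd)
  · intro U hU
    obtain ⟨e, h1, h2⟩ := adv_open hU
    exact ⟨uu e, 1 / 2 ^ (e + 1), wfam_uu e, h1, fun z hz h3 h4 _ => h2 z hz h3 h4⟩
  · intro G hG hm
    obtain ⟨e, k, h1⟩ := adv_test hG hm
    exact ⟨vv e, 4096, wfam_vv e, by norm_num, k, h1⟩

end OWD
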