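import Pool.Agent.H22.OW.Growth

/-!
MP_9d9f9c_lc: the measure of the test sets is at most `9 (β - β m)`.
-/

open Finset

namespace OWD

variable {μ : ℕ → ℕ → ℕ → ℝ} {n N E : ℕ}

/-- A record of positive depth whose cell has length at most `H`. -/
def Small (H : ℝ) (r : Rec) : Prop := r.d ≠ 0 ∧ 1 / (2 : ℝ) ^ r.L ≤ H

section defs
variable {X : Type} (cyl : ℕ → ℕ → Set X)

open Classical in
/-- The union of the cells of the maximal small records. -/
noncomputable def Cov (H : ℝ) : Tr → Set X
  | .leaf r => if Small H r then cyl r.L r.i else ∅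
  | .node r l t => if Small H r then cyl r.L r.i else Cov H l ∪ Cov H t

open Classical in
/-- The sum of the weighted ages of the maximal small records. -/
noncomputable def Th (H : ℝ) (N E : ℕ) : Tr → ℝ
  | .leaf r => if Small H r then (2 / 3) ^ r.d * age N E r else 0
  | .node r l t => if Small H r then (2 / 3) ^ r.d * age N E r else Th H N E l + Th H N E t

open Classical in
/-- The sum of the weights of the maximal small records. -/
noncomputable def Wt (H : ℝ) : Tr → ℝ
  | .leaf r => if Small H r then (2 / 3) ^ r.d else 0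
  | .node r l t => if Small H r then (2 / 3) ^ r.d else Wt H l + Wt H t

open Classical in
/-- Sum of `2 ^ -k` over `k` in a finite set with a given property. -/
noncomputable def SumP (s : Finset ℕ) (P : ℝ → Prop) : ℝ :=
  ∑ k ∈ s.filter (fun k => P (1 / (2 : ℝ) ^ k)), 1 / (2 : ℝ) ^ k

theorem Cov_leaf_pos {H : ℝ} {r : Rec} (h : Small H r) : Cov cyl H (.leaf r) = cyl r.L r.i :=
  if_pos h
theorem Cov_leaf_neg {H : ℝ} {r : Rec} (h : ¬ Small H r) : Cov cyl H (.leaf r) = ∅ := if_neg h
theorem Cov_node_pos {H : ℝ} {r : Rec} {l t : Tr} (h : Small H r) :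
    Cov cyl H (.node r l t) = cyl r.L r.i := if_pos h
theorem Cov_node_neg {H : ℝ} {r : Rec} {l t : Tr} (h : ¬ Small H r) :
    Cov cyl H (.node r l t) = Cov cyl H l ∪ Cov cyl H t := if_neg h
theorem Th_leaf_pos {H : ℝ} {N E : ℕ} {r : Rec} (h : Small H r) :
    Th H N E (.leaf r) = (2 / 3) ^ r.d * age N E r := if_pos h
theorem Th_leaf_neg {H : ℝ} {N E : ℕ} {r : Rec} (h : ¬ Small H r) : Th H N E (.leaf r) = 0 :=
  if_neg h
theorem Th_node_pos {H : ℝ} {N E : ℕ} {r : Rec} {l t : Tr} (h : Small H r) :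
    Th H N E (.node r l t) = (2 / 3) ^ r.d * age N E r := if_pos h
theorem Th_node_neg {H : ℝ} {N E : ℕ} {r : Rec} {l t : Tr} (h : ¬ Small H r) :
    Th H N E (.node r l t) = Th H N E l + Th H N E t := if_neg h

end defs

theorem SumP_nonneg (s : Finset ℕ) (P : ℝ → Prop) : 0 ≤ SumP s P :=
  Finset.sum_nonneg fun _ _ => by positivity

theorem SumP_mono {s s' : Finset ℕ} (h : s ⊆ s') (P : ℝ → Prop) : SumP s P ≤ SumP s' P := by
  classical
  unfold SumP
  apply Finset.sum_le_sum_of_subset_of_nonneg (Finset.filter_subset_filter _ h)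
  intro i _ _; positivity

theorem SumP_union {s s' s'' : Finset ℕ} (hd : Disjoint s s') (hu : s ∪ s' ⊆ s'')
    (P : ℝ → Prop) : SumP s P + SumP s' P ≤ SumP s'' P := by
  classical
  refine le_trans (le_of_eq ?_) (SumP_mono hu P)
  unfold SumP
  rw [Finset.filter_union, Finset.sum_union (Finset.disjoint_filter_filter hd)]

theorem SumP_single {k : ℕ} {s : Finset ℕ} (hk : k ∈ s) {P : ℝ → Prop}
    (hP : P (1 / (2 : ℝ) ^ k)) : 1 / (2 : ℝ) ^ k ≤ SumP s P := by
  classical
  unfold SumP
  exact Finset.single_le_sum (f := fun k => 1 / (2 : ℝ) ^ k) (fun i _ => by positivity)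
    (Finset.mem_filter.2 ⟨hk, hP⟩)

theorem SumP_split {H H' : ℝ} (hH : H ≤ H') (s : Finset ℕ) :
    SumP s (fun x => x ≤ H) + SumP s (fun x => H < x ∧ x ≤ H') = SumP s (fun x => x ≤ H') := by
  classical
  unfold SumP
  rw [Finset.sum_filter, Finset.sum_filter, Finset.sum_filter, ← Finset.sum_add_distrib]
  apply Finset.sum_congr rfl
  intro k _
  by_cases h1 : 1 / (2 : ℝ) ^ k ≤ H
  · rw [if_pos h1, if_neg (fun h => absurd h.1 (not_lt.2 h1)), if_pos (h1.trans hH), add_zero]
  · by_cases h2 : 1 / (2 : ℝ) ^ k ≤ H'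
    · rw [if_neg h1, if_pos ⟨not_le.1 h1, h2⟩, if_pos h2, zero_add]
    · rw [if_neg h1, if_neg (fun h => h2 h.2), if_neg h2, zero_add]

/-- Total length of the dyadic lengths that are at most `H`. -/
theorem SumP_le (H : ℝ) (hH : 0 ≤ H) (E : ℕ) :
    SumP (Finset.range (E + 1)) (fun x => x ≤ H) ≤ 2 * H := by
  classical
  have key : ∀ E : ℕ, (1 / (2 : ℝ) ^ E ≤ H →
      SumP (Finset.range (E + 1)) (fun x => x ≤ H) + 1 / 2 ^ E ≤ 2 * H) ∧
      (H < 1 / (2 : ℝ) ^ E → SumP (Finset.range (E + 1)) (fun x => x ≤ H) = 0) := by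
    intro E
    induction E with
    | zero =>
      constructor
      · intro h
        unfold SumP
        norm_num at h
        rw [Finset.sum_filter]
        norm_num [h]
      · intro h
        unfold SumP
        norm_num at h
        rw [Finset.sum_filter]
        norm_num
        exact h
    | succ E ih =>
      have hs : SumP (Finset.range (E + 1 + 1)) (fun x => x ≤ H) =
          SumP (Finset.range (E + 1)) (fun x => x ≤ H) +
            (if 1 / (2 : ℝ) ^ (E + 1) ≤ H then 1 / (2 : ℝ) ^ (E + 1) else 0) := by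
        unfold SumP
        rw [Finset.sum_filter, Finset.sum_filter, Finset.sum_range_succ]
      have e : (1 : ℝ) / 2 ^ (E + 1) = (1 / 2 ^ E) / 2 := by rw [pow_succ]; field_simp
      have hp : (0 : ℝ) < 1 / 2 ^ E := by positivity
      constructor
      · intro h
        rw [hs, if_pos h]
        by_cases h2 : 1 / (2 : ℝ) ^ E ≤ H
        · have := ih.1 h2
          rw [e]; linarith
        · have := ih.2 (not_le.1 h2)
          rw [this]; linarith
      · intro h
        rw [hs, if_neg (not_le.2 h)]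
        have h2 : H < 1 / (2 : ℝ) ^ E := by rw [e] at h; linarith
        rw [ih.2 h2]; simp
  by_cases h : 1 / (2 : ℝ) ^ E ≤ H
  · have := (key E).1 h
    have hp : (0 : ℝ) < 1 / 2 ^ E := by positivity
    linarith
  · have := (key E).2 (not_le.1 h)
    linarith

/-! ### The weights -/

theorem Wt_nonneg (H : ℝ) (t : Tr) : 0 ≤ Wt H t := by
  induction t with
  | leaf r => unfold Wt; split_ifs <;> positivity
  | node r l t ihl iht => unfold Wt; split_ifs <;> positivity

/-- If the last record is not small then no record is small. -/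
theorem Wt_zero {H : ℝ} {n' : ℕ} {t : Tr} (h : TrOK μ n' N E t)
    (hs : H < 1 / (2 : ℝ) ^ t.last) : Wt H t = 0 := by
  have key : ∀ r : Rec, r.L ≤ t.last → ¬ Small H r := by
    rintro r hr ⟨_, h2⟩
    have : (1 : ℝ) / 2 ^ t.last ≤ 1 / 2 ^ r.L := by
      apply one_div_le_one_div_of_le (by positivity)
      exact pow_le_pow_right₀ (by norm_num) hr
    linarith
  clear hs
  induction t with
  | leaf r => simp [Wt, key r le_rfl]
  | node r l t ihl iht =>
    have hle := h.rt_le_last
    obtain ⟨h1, h2, h3, h4, h5, h6, h7, h8⟩ := h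
    have h9 := h3.rt_le_last
    simp only [rt_node, last_node] at hle key
    unfold Wt
    rw [if_neg (key r hle), ihl h2 (fun q hq => key q (by omega)), iht h3 key]
    ring

theorem Wt_le {H : ℝ} {n' : ℕ} {t : Tr} (h : TrOK μ n' N E t) :
    Wt H t ≤ 3 * (2 / 3) ^ t.rt.d := by
  induction t with
  | leaf r =>
    have hp : (0 : ℝ) < (2 / 3) ^ r.d := by positivity
    simp only [Wt, rt_leaf]
    split_ifs <;> linarith
  | node r l t ihl iht =>
    obtain ⟨h1, h2, h3, h4, h5, h6, h7, h8⟩ := h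
    have hp : (0 : ℝ) < (2 / 3) ^ r.d := by positivity
    have a1 := ihl h2
    have a2 := iht h3
    rw [h4.d, pow_succ] at a1
    rw [h6.d, pow_succ] at a2
    simp only [rt_node]
    by_cases hr : Small H r
    · simp only [Wt, hr, if_true]; linarith
    · simp only [Wt, hr, if_false]
      by_cases ht : Small H t.rt
      · have : Wt H t = (2 / 3) ^ (r.d + 1) := by
          rw [← h6.d]
          cases t with
          | leaf q => simp only [Wt, rt_leaf] at ht ⊢; rw [if_pos ht]
          | node q _ _ => simp only [Wt, rt_node] at ht ⊢; rw [if_pos ht]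
        rw [this, pow_succ]
        linarith
      · have hlt : H < 1 / (2 : ℝ) ^ t.rt.L := by
          by_contra hcon
          exact ht ⟨by rw [h6.d]; omega, not_lt.1 hcon⟩
        have : Wt H l = 0 := by
          apply Wt_zero h2
          refine hlt.trans_le ?_
          apply one_div_le_one_div_of_le (by positivity)
          exact pow_le_pow_right₀ (by norm_num) h8.le
        rw [this]
        linarith

/-! ### Ages -/

theorem Th_nonneg {H : ℝ} {n' : ℕ} {t : Tr} (h : TrOK μ n' N E t) : 0 ≤ Th H N E t := by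
  induction t with
  | leaf r =>
    have := RecOK.age0 h
    unfold Th; split_ifs <;> positivity
  | node r l t ihl iht =>
    have h1 := h.1.age0
    have h2 := ihl h.2.1
    have h3 := iht h.2.2.1
    unfold Th; split_ifs <;> positivity

theorem Th_grow {H : ℝ} {N' E' : ℕ} {δ : ℝ}
    (hN : (N' : ℝ) / 2 ^ E' = (N : ℝ) / 2 ^ E + δ) (t : Tr) :
    Th H N' E' t = Th H N E t + δ * Wt H t := by
  have key : ∀ r : Rec, age N' E' r = age N E r + δ := by
    intro r; unfold age; rw [hN]; ring
  induction t with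
  | leaf r => simp only [Th, Wt, key]; split_ifs <;> ring
  | node r l t ihl iht => simp only [Th, Wt, key, ihl, iht]; split_ifs <;> ring

theorem Th_ext {H : ℝ} {n' : ℕ} {t : Tr} (h : TrOK μ n' N E t) :
    Th H N E (ext μ n N E t) ≤ Th H N E t := by
  have hc : ∀ (r : Rec) (s : ℕ), age N E (child μ n N E r s) = 0 := by
    intro r s; simp [age, child, place]
  have hc' : ∀ (r : Rec) (s : ℕ), Th H N E (.leaf (child μ n N E r s)) = 0 := by
    intro r s
    by_cases hs : Small H (child μ n N E r s)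
    · rw [Th_leaf_pos hs, hc, mul_zero]
    · rw [Th_leaf_neg hs]
  induction t with
  | leaf r =>
    have e : ext μ n N E (.leaf r) = .node r (.leaf (child μ n N E r 0))
      (.leaf (child μ n N E r 1)) := rfl
    rw [e]
    by_cases hs : Small H r
    · rw [Th_node_pos hs, Th_leaf_pos hs]
    · rw [Th_node_neg hs, hc', hc', Th_leaf_neg hs, add_zero]
  | node r l t ihl iht =>
    have h2 := ihl h.2.1
    have h3 := iht h.2.2.1
    have h4 := Th_nonneg (H := H) h.2.2.1
    by_cases h' : Phi μ n l ≤ Phi μ n t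
    · have e : ext μ n N E (.node r l t) = .node r (ext μ n N E l)
        (.leaf (child μ n N E r 1)) := if_pos h'
      rw [e]
      by_cases hs : Small H r
      · rw [Th_node_pos hs, Th_node_pos hs]
      · rw [Th_node_neg hs, Th_node_neg hs, hc']; linarith
    · have e : ext μ n N E (.node r l t) = .node r l (ext μ n N E t) := if_neg h'
      rw [e]
      by_cases hs : Small H r
      · rw [Th_node_pos hs, Th_node_pos hs]
      · rw [Th_node_neg hs, Th_node_neg hs]; linarith

/-! ### Measures -/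

section meas
variable {X : Type} {ν : Set X → ℝ} {cyl : ℕ → ℕ → Set X}

/-- The properties of the measure that are used. -/
structure MeasOK (ν : Set X → ℝ) (cyl : ℕ → ℕ → Set X) : Prop where
  zero : ν ∅ = 0
  mono : ∀ s t, s ⊆ t → ν s ≤ ν t
  sub : ∀ s t, ν (s ∪ t) ≤ ν s + ν t
  cylm : ∀ L i, ν (cyl L i) ≤ 1 / 2 ^ L
  nest : ∀ L i, cyl (L + 1) i ⊆ cyl L (i / 2)

theorem MeasOK.diff_cyl (hν : MeasOK ν cyl) (L i : ℕ) (s : Set X) :
    ν (cyl L i \ s) ≤ 1 / 2 ^ L :=
  (hν.mono _ _ Set.sdiff_subset).trans (hν.cylm L i)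

theorem MeasOK.nonneg (hν : MeasOK ν cyl) (s : Set X) : 0 ≤ ν s := by
  rw [← hν.zero]; exact hν.mono _ _ (Set.empty_subset s)

theorem MeasOK.diff_union (hν : MeasOK ν cyl) (a b c d : Set X) :
    ν ((a ∪ b) \ (c ∪ d)) ≤ ν (a \ c) + ν (b \ d) := by
  refine (hν.mono _ ((a \ c) ∪ (b \ d)) ?_).trans (hν.sub _ _)
  rintro x ⟨ha | hb, hn⟩
  · exact Or.inl ⟨ha, fun h => hn (Or.inl h)⟩
  · exact Or.inr ⟨hb, fun h => hn (Or.inr h)⟩

theorem life_w (r : Rec) : (2 / 3 : ℝ) ^ r.d * life r = 1 / 2 ^ r.L := by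
  unfold life
  rw [← mul_div_assoc, ← mul_pow]
  norm_num

theorem Cov_expi (hν : MeasOK ν cyl) {H : ℝ} {n' : ℕ} {t : Tr} (h : TrOK μ n' N E t) :
    ν (Cov cyl H (expi μ n N E t) \ Cov cyl H t) + Th H N E (expi μ n N E t) ≤ Th H N E t := by
  have hage : ∀ r : Rec, age N E (place μ n N E r) = 0 := by
    intro r; simp [age, place]
  have key : ∀ r : Rec, Expired N E r → Small H r → ∀ s : Set X,
      ν (Cov cyl H (.leaf (place μ n N E r)) \ s) + Th H N E (.leaf (place μ n N E r)) ≤
        (2 / 3) ^ r.d * age N E r := by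
    intro r he hs s
    have hs' : Small H (place μ n N E r) := hs
    rw [Cov_leaf_pos cyl hs', Th_leaf_pos hs', hage, mul_zero, add_zero]
    refine (hν.diff_cyl _ _ _).trans ?_
    have : (place μ n N E r).L = r.L := rfl
    rw [this, ← life_w]
    exact mul_le_mul_of_nonneg_left he.2 (by positivity)
  have key2 : ∀ r : Rec, ¬ Small H r → ∀ s : Set X,
      ν (Cov cyl H (.leaf (place μ n N E r)) \ s) + Th H N E (.leaf (place μ n N E r)) = 0 := by
    intro r hs s
    have hs' : ¬ Small H (place μ n N E r) := hs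
    rw [Cov_leaf_neg cyl hs', Th_leaf_neg hs', Set.empty_sdiff, hν.zero, add_zero]
  have key3 : ∀ s : Set X, ν (s \ s) = 0 := by intro s; rw [Set.sdiff_self, hν.zero]
  induction t with
  | leaf r =>
    by_cases h' : Expired N E r
    · have e : expi μ n N E (.leaf r) = .leaf (place μ n N E r) := if_pos h'
      rw [e]
      by_cases hs : Small H r
      · rw [Th_leaf_pos hs]; exact key r h' hs _
      · rw [key2 r hs]
        exact Th_nonneg h
    · have e : expi μ n N E (.leaf r) = .leaf r := if_neg h'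
      rw [e, key3, zero_add]
  | node r l t ihl iht =>
    by_cases h' : Expired N E r
    · have e : expi μ n N E (.node r l t) = .leaf (place μ n N E r) := if_pos h'
      rw [e]
      by_cases hs : Small H r
      · rw [Th_node_pos hs]; exact key r h' hs _
      · rw [key2 r hs]
        exact Th_nonneg h
    · have e : expi μ n N E (.node r l t) = .node r (expi μ n N E l) (expi μ n N E t) :=
        if_neg h'
      rw [e]
      by_cases hs : Small H r
      · rw [Cov_node_pos cyl hs, Cov_node_pos cyl hs, Th_node_pos hs, Th_node_pos hs, key3,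
          zero_add]
      · rw [Cov_node_neg cyl hs, Cov_node_neg cyl hs, Th_node_neg hs, Th_node_neg hs]
        have h2 := ihl h.2.1
        have h3 := iht h.2.2.1
        have h4 := hν.diff_union (Cov cyl H (expi μ n N E l)) (Cov cyl H (expi μ n N E t))
          (Cov cyl H l) (Cov cyl H t)
        linarith

theorem Cov_ext (hν : MeasOK ν cyl) {H : ℝ} {n' : ℕ} {t : Tr} (h : TrOK μ n' N E t)
    (hdep : ∀ q, Tr.Mem q t → q.d ≤ n) :
    ν (Cov cyl H (ext μ n N E t) \ Cov cyl H t) ≤
      SumP (Finset.Ioc E (E + n + 4 + 2 * (n - t.rt.d) + 1)) (fun x => x ≤ H) := by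
  have key3 : ∀ s : Set X, ν (s \ s) = 0 := by intro s; rw [Set.sdiff_self, hν.zero]
  have keyc : ∀ (r : Rec) (s : ℕ), s ≤ 1 → ∀ A : Set X,
      ν (Cov cyl H (.leaf (child μ n N E r s)) \ A) ≤
        SumP {E + n + 4 + 2 * (n - r.d) + s} (fun x => x ≤ H) := by
    intro r s hs A
    by_cases hsm : Small H (child μ n N E r s)
    · rw [Cov_leaf_pos cyl hsm]
      refine (hν.diff_cyl _ _ _).trans ?_
      exact SumP_single (k := E + n + 4 + 2 * (n - r.d) + s) (Finset.mem_singleton_self _) hsm.2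
    · rw [Cov_leaf_neg cyl hsm, Set.empty_sdiff, hν.zero]
      exact SumP_nonneg _ _
  induction t with
  | leaf r =>
    have e : ext μ n N E (.leaf r) = .node r (.leaf (child μ n N E r 0))
      (.leaf (child μ n N E r 1)) := rfl
    rw [e, rt_leaf]
    by_cases hs : Small H r
    · rw [Cov_node_pos cyl hs, Cov_leaf_pos cyl hs, key3]
      exact SumP_nonneg _ _
    · have e2 : Cov cyl H (.leaf r) = ∅ ∪ ∅ := by rw [Cov_leaf_neg cyl hs, Set.union_empty]
      rw [Cov_node_neg cyl hs, e2]
      refine (hν.diff_union _ _ _ _).trans ?_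
      refine (add_le_add (keyc r 0 (by omega) _) (keyc r 1 (by omega) _)).trans ?_
      apply SumP_union
      · rw [Finset.disjoint_singleton]; omega
      · intro k hk
        simp only [Finset.mem_union, Finset.mem_singleton] at hk
        rw [Finset.mem_Ioc]; omega
  | node r l t ihl iht =>
    obtain ⟨h1, h2, h3, h4, h5, h6, h7, h8⟩ := h
    have hd4 := h4.d
    have hd6 := h6.d
    rw [rt_node]
    by_cases h' : Phi μ n l ≤ Phi μ n t
    · have e : ext μ n N E (.node r l t) = .node r (ext μ n N E l)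
        (.leaf (child μ n N E r 1)) := if_pos h'
      rw [e]
      by_cases hs : Small H r
      · rw [Cov_node_pos cyl hs, Cov_node_pos cyl hs, key3]
        exact SumP_nonneg _ _
      · rw [Cov_node_neg cyl hs, Cov_node_neg cyl hs]
        refine (hν.diff_union _ _ _ _).trans ?_
        have a1 := ihl h2 (fun q hq => hdep q (Or.inr (Or.inl hq)))
        have hl : l.rt.d ≤ n := hdep _ (Or.inr (Or.inl (mem_rt l)))
        refine (add_le_add a1 (keyc r 1 (by omega) _)).trans ?_
        apply SumP_union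
        · rw [Finset.disjoint_singleton_right, Finset.mem_Ioc]; omega
        · intro k hk
          simp only [Finset.mem_union, Finset.mem_singleton, Finset.mem_Ioc] at hk
          rw [Finset.mem_Ioc]; omega
    · have e : ext μ n N E (.node r l t) = .node r l (ext μ n N E t) := if_neg h'
      rw [e]
      by_cases hs : Small H r
      · rw [Cov_node_pos cyl hs, Cov_node_pos cyl hs, key3]
        exact SumP_nonneg _ _
      · rw [Cov_node_neg cyl hs, Cov_node_neg cyl hs]
        refine (hν.diff_union _ _ _ _).trans ?_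
        rw [key3, zero_add]
        refine (iht h3 (fun q hq => hdep q (Or.inr (Or.inr hq)))).trans ?_
        apply SumP_mono
        intro k hk
        rw [Finset.mem_Ioc] at hk ⊢; omega

/-- The increase of `H`. -/
theorem Cov_H (hν : MeasOK ν cyl) {H H' : ℝ} (hH : H ≤ H') {n' : ℕ} {t : Tr}
    (h : TrOK μ n' N E t) :
    ν (Cov cyl H' t \ Cov cyl H t) ≤
        SumP (Finset.Icc t.rt.L t.last) (fun x => H < x ∧ x ≤ H') ∧
      Th H' N E t ≤ Th H N E t +
        2 * SumP (Finset.Icc t.rt.L t.last) (fun x => H < x ∧ x ≤ H') := by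
  have key3 : ∀ s : Set X, ν (s \ s) = 0 := by intro s; rw [Set.sdiff_self, hν.zero]
  have hsm : ∀ r : Rec, Small H r → Small H' r := fun r hr => ⟨hr.1, hr.2.trans hH⟩
  have keyage : ∀ r : Rec, RecOK μ n' N E r → r.d ≠ 0 →
      (2 / 3 : ℝ) ^ r.d * age N E r ≤ 2 * (1 / 2 ^ r.L) := by
    intro r hr hd
    rw [← life_w]
    have h1 := hr.age hd
    have h2 : (0 : ℝ) < (2 / 3) ^ r.d := by positivity
    nlinarith
  induction t with
  | leaf r =>
    rw [rt_leaf, last_leaf]
    have hnn := SumP_nonneg (Finset.Icc r.L r.L) (fun x => H < x ∧ x ≤ H')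
    by_cases h1 : Small H r
    · have h2 := hsm r h1
      rw [Cov_leaf_pos cyl h1, Cov_leaf_pos cyl h2, Th_leaf_pos h1, Th_leaf_pos h2, key3]
      exact ⟨hnn, by linarith⟩
    · by_cases h2 : Small H' r
      · have h3 : H < 1 / (2 : ℝ) ^ r.L := by
          by_contra hcon; exact h1 ⟨h2.1, not_lt.1 hcon⟩
        have h4 : 1 / (2 : ℝ) ^ r.L ≤ SumP (Finset.Icc r.L r.L) (fun x => H < x ∧ x ≤ H') :=
          SumP_single (Finset.mem_Icc.2 ⟨le_rfl, le_rfl⟩) ⟨h3, h2.2⟩
        rw [Cov_leaf_neg cyl h1, Cov_leaf_pos cyl h2, Th_leaf_neg h1, Th_leaf_pos h2]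
        refine ⟨(hν.diff_cyl _ _ _).trans h4, ?_⟩
        have := keyage r h h2.1
        linarith
      · rw [Cov_leaf_neg cyl h1, Cov_leaf_neg cyl h2, Th_leaf_neg h1, Th_leaf_neg h2, key3]
        exact ⟨hnn, by linarith⟩
  | node r l t ihl iht =>
    have hTh := Th_nonneg (H := H) h
    have hle := h.rt_le_last
    obtain ⟨h1, h2, h3, h4, h5, h6, h7, h8⟩ := h
    rw [rt_node, last_node] at hle ⊢
    have hnn := SumP_nonneg (Finset.Icc r.L t.last) (fun x => H < x ∧ x ≤ H')
    by_cases s1 : Small H r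
    · have s2 := hsm r s1
      rw [Cov_node_pos cyl s1, Cov_node_pos cyl s2, Th_node_pos s1, Th_node_pos s2, key3]
      exact ⟨hnn, by linarith⟩
    · by_cases s2 : Small H' r
      · have a3 : H < 1 / (2 : ℝ) ^ r.L := by
          by_contra hcon; exact s1 ⟨s2.1, not_lt.1 hcon⟩
        have a4 : 1 / (2 : ℝ) ^ r.L ≤ SumP (Finset.Icc r.L t.last) (fun x => H < x ∧ x ≤ H') :=
          SumP_single (Finset.mem_Icc.2 ⟨le_rfl, hle⟩) ⟨a3, s2.2⟩
        have a5 := keyage r h1 s2.1
        rw [Cov_node_pos cyl s2, Th_node_pos s2]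
        exact ⟨(hν.diff_cyl _ _ _).trans a4, by linarith⟩
      · obtain ⟨b1, b2⟩ := ihl h2
        obtain ⟨c1, c2⟩ := iht h3
        have hl := h2.rt_le_last
        have ht := h3.rt_le_last
        have hLL := h4.LL
        have hu : SumP (Finset.Icc l.rt.L l.last) (fun x => H < x ∧ x ≤ H') +
            SumP (Finset.Icc t.rt.L t.last) (fun x => H < x ∧ x ≤ H') ≤
            SumP (Finset.Icc r.L t.last) (fun x => H < x ∧ x ≤ H') := by
          apply SumP_union
          · rw [Finset.disjoint_left]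
            intro k hk hk'
            rw [Finset.mem_Icc] at hk hk'; omega
          · intro k hk
            simp only [Finset.mem_union, Finset.mem_Icc] at hk
            rw [Finset.mem_Icc]; omega
        rw [Cov_node_neg cyl s1, Cov_node_neg cyl s2, Th_node_neg s1, Th_node_neg s2]
        refine ⟨(hν.diff_union _ _ _ _).trans (by linarith), by linarith⟩

theorem nest_iter (hν : MeasOK ν cyl) (L k i : ℕ) : cyl (L + k) i ⊆ cyl L (i / 2 ^ k) := by
  induction k generalizing i with
  | zero => simp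
  | succ k ih =>
    have h1 := hν.nest (L + k) i
    refine (h1.trans (ih (i / 2))).trans (le_of_eq ?_)
    rw [Nat.div_div_eq_div_mul, pow_succ, mul_comm 2]

theorem cyl_child (hν : MeasOK ν cyl) {n' : ℕ} {r c : Rec} (hc : RecOK μ n' N E c)
    (h : IsCh r c) : cyl c.L c.i ⊆ cyl r.L r.i := by
  have hd : c.d ≠ 0 := by rw [h.d]; omega
  have h1 := hc.LL hd
  have h2 := ((hc.loc hd).1.div (by omega) hc.ss).2
  have h3 := nest_iter hν r.L (c.L - r.L) c.i
  have h4 := h.LL
  rw [h.Lp, h.ip] at h2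
  rw [h2] at h3
  have e : r.L + (c.L - r.L) = c.L := by omega
  rwa [e] at h3

theorem cyl_mem (hν : MeasOK ν cyl) {n' : ℕ} {t : Tr} (h : TrOK μ n' N E t) {q : Rec}
    (hq : Tr.Mem q t) : cyl q.L q.i ⊆ cyl t.rt.L t.rt.i := by
  induction t with
  | leaf r => cases hq; exact Set.Subset.refl _
  | node r l t ihl iht =>
    obtain ⟨h1, h2, h3, h4, h5, h6, h7, h8⟩ := h
    rw [rt_node]
    rcases hq with hq | hq | hq
    · subst hq; exact Set.Subset.refl _
    · exact (ihl h2 hq).trans (cyl_child hν h2.rt h4)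
    · exact (iht h3 hq).trans (cyl_child hν h3.rt h6)

theorem sub_Cov (hν : MeasOK ν cyl) {H : ℝ} {n' : ℕ} {t : Tr} (h : TrOK μ n' N E t) {q : Rec}
    (hq : Tr.Mem q t) (hs : Small H q) : cyl q.L q.i ⊆ Cov cyl H t := by
  induction t with
  | leaf r => cases hq; rw [Cov_leaf_pos cyl hs]
  | node r l t ihl iht =>
    by_cases hr : Small H r
    · rw [Cov_node_pos cyl hr]
      exact cyl_mem hν h hq
    · rw [Cov_node_neg cyl hr]
      rcases hq with hq | hq | hq
      · subst hq; exact absurd hs hr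
      · exact (ihl h.2.1 hq).trans Set.subset_union_left
      · exact (iht h.2.2.1 hq).trans Set.subset_union_right

theorem not_small_zero (r : Rec) : ¬ Small 0 r := by
  rintro ⟨_, h⟩
  have : (0 : ℝ) < 1 / 2 ^ r.L := by positivity
  linarith

theorem Cov_zero (t : Tr) : Cov cyl 0 t = ∅ := by
  induction t with
  | leaf r => exact Cov_leaf_neg cyl (not_small_zero r)
  | node r l t ihl iht => rw [Cov_node_neg cyl (not_small_zero r), ihl, iht, Set.union_empty]

theorem Th_zero (N E : ℕ) (t : Tr) : Th 0 N E t = 0 := by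
  induction t with
  | leaf r => exact Th_leaf_neg (not_small_zero r)
  | node r l t ihl iht => rw [Th_node_neg (not_small_zero r), ihl, iht, add_zero]

theorem run_step (hL : LocHyp μ) (hν : MeasOK ν cyl) {m n : ℕ} (hmn : m ≤ n) :
    ν (Cov cyl (beta μ (n + 1) - beta μ m) (run μ (n + 1)).t \
        Cov cyl (beta μ n - beta μ m) (run μ n).t) +
      Th (beta μ (n + 1) - beta μ m) (run μ (n + 1)).N (run μ (n + 1)).E (run μ (n + 1)).t +
      3 * SumP (Finset.range ((run μ n).E + 1)) (fun x => x ≤ beta μ n - beta μ m) +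
      3 * (beta μ n - beta μ m) ≤
    Th (beta μ n - beta μ m) (run μ n).N (run μ n).E (run μ n).t +
      3 * SumP (Finset.range ((run μ (n + 1)).E + 1)) (fun x => x ≤ beta μ (n + 1) - beta μ m) +
      3 * (beta μ (n + 1) - beta μ m) := by
  have h0 := run_ok (μ := μ) hL n
  have h1 := tre_ok (μ := μ) hL n
  have hrun := run_ok (μ := μ) hL (n + 1)
  have hroot := (rt_run (μ := μ) (n + 1)).1
  have hb := beta_succ (μ := μ) n
  have hE := E_succ (μ := μ) n
  have ht := run_succ_t (μ := μ) n
  have hδ : (0 : ℝ) < 1 / 2 ^ (run μ (n + 1)).E := by positivity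
  set H := beta μ n - beta μ m with hH
  set H' := beta μ (n + 1) - beta μ m with hH'
  have hHH : H' = H + 1 / 2 ^ (run μ (n + 1)).E := by rw [hH', hb, hH]; ring
  have hle : H ≤ H' := by rw [hHH]; linarith
  have b1 := Cov_expi (n := n) hν (H := H) h0
  have b2 : ν (Cov cyl H (run μ (n + 1)).t \ Cov cyl H (tre μ n)) +
      Th H (run μ n).N (run μ n).E (run μ (n + 1)).t ≤
      Th H (run μ n).N (run μ n).E (tre μ n) +
      SumP (Finset.Ioc (run μ n).E (run μ (n + 1)).E) (fun x => x ≤ H) := by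
    by_cases hX : XS μ n
    · rw [if_pos hX] at hE ht
      have c1 := Cov_ext hν (H := H) h1 (fun q hq => (h1.mem hq).dep)
      have c2 := Th_ext (n := n) (H := H) h1
      rw [← ht] at c1 c2
      have c3 : SumP (Finset.Ioc (run μ n).E ((run μ n).E + n + 4 +
          2 * (n - (tre μ n).rt.d) + 1)) (fun x => x ≤ H) ≤
          SumP (Finset.Ioc (run μ n).E (run μ (n + 1)).E) (fun x => x ≤ H) := by
        apply SumP_mono
        intro k hk
        rw [Finset.mem_Ioc] at hk ⊢
        omega
      linarith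
    · rw [if_neg hX] at ht
      rw [ht, Set.sdiff_self, hν.zero, zero_add]
      have := SumP_nonneg (Finset.Ioc (run μ n).E (run μ (n + 1)).E) (fun x => x ≤ H)
      linarith
  have hb' : ((run μ (n + 1)).N : ℝ) / 2 ^ (run μ (n + 1)).E =
      ((run μ n).N : ℝ) / 2 ^ (run μ n).E + 1 / 2 ^ (run μ (n + 1)).E := hb
  have b3 := Th_grow (H := H) hb' (run μ (n + 1)).t
  have b4 := Wt_le (H := H) hrun
  rw [hroot] at b4
  have b5 : 1 / (2 : ℝ) ^ (run μ (n + 1)).E * Wt H (run μ (n + 1)).t ≤
      1 / 2 ^ (run μ (n + 1)).E * 3 := by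
    apply mul_le_mul_of_nonneg_left _ hδ.le
    simpa [rootRec] using b4
  obtain ⟨b6, b7⟩ := Cov_H hν hle hrun
  have b8 : SumP (Finset.Icc (run μ (n + 1)).t.rt.L (run μ (n + 1)).t.last)
      (fun x => H < x ∧ x ≤ H') ≤
      SumP (Finset.range ((run μ (n + 1)).E + 1)) (fun x => H < x ∧ x ≤ H') := by
    apply SumP_mono
    intro k hk
    have := hrun.last_le
    rw [Finset.mem_Icc] at hk
    rw [Finset.mem_range]; omega
  have b9 := SumP_split hle (Finset.range ((run μ (n + 1)).E + 1))
  have hEE : (run μ n).E ≤ (run μ (n + 1)).E := by rw [hE]; split_ifs <;> omega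
  have b10 : SumP (Finset.range ((run μ n).E + 1)) (fun x => x ≤ H) +
      SumP (Finset.Ioc (run μ n).E (run μ (n + 1)).E) (fun x => x ≤ H) ≤
      SumP (Finset.range ((run μ (n + 1)).E + 1)) (fun x => x ≤ H) := by
    apply SumP_union
    · rw [Finset.disjoint_left]
      intro k hk hk'
      rw [Finset.mem_range] at hk; rw [Finset.mem_Ioc] at hk'; omega
    · intro k hk
      simp only [Finset.mem_union, Finset.mem_range, Finset.mem_Ioc] at hk
      rw [Finset.mem_range]; omega
  have b11 := SumP_nonneg (Finset.Ioc (run μ n).E (run μ (n + 1)).E) (fun x => x ≤ H)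
  have b12 : ν (Cov cyl H' (run μ (n + 1)).t \ Cov cyl H (run μ n).t) ≤
      ν (Cov cyl H' (run μ (n + 1)).t \ Cov cyl H (run μ (n + 1)).t) +
      (ν (Cov cyl H (run μ (n + 1)).t \ Cov cyl H (tre μ n)) +
       ν (Cov cyl H (tre μ n) \ Cov cyl H (run μ n).t)) := by
    refine (hν.mono _ _ ?_).trans ((hν.sub _ _).trans (add_le_add_right (hν.sub _ _) _))
    rintro x ⟨hx1, hx2⟩
    by_cases hx3 : x ∈ Cov cyl H (run μ (n + 1)).t
    · by_cases hx4 : x ∈ Cov cyl H (tre μ n)
      · exact Or.inr (Or.inr ⟨hx4, hx2⟩)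
      · exact Or.inr (Or.inl ⟨hx3, hx4⟩)
    · exact Or.inl ⟨hx1, hx3⟩
  have e1 : tre μ n = expi μ n (run μ n).N (run μ n).E (run μ n).t := rfl
  rw [← e1] at b1
  rw [hHH] at b9 b8 b7 b6 b12 ⊢
  linarith

theorem run_cap (hL : LocHyp μ) (hν : MeasOK ν cyl) (m k : ℕ) :
    ν (⋃ j ∈ Finset.range (k + 1), Cov cyl (beta μ (m + j) - beta μ m) (run μ (m + j)).t) +
      Th (beta μ (m + k) - beta μ m) (run μ (m + k)).N (run μ (m + k)).E (run μ (m + k)).t ≤
    3 * SumP (Finset.range ((run μ (m + k)).E + 1)) (fun x => x ≤ beta μ (m + k) - beta μ m) +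
      3 * (beta μ (m + k) - beta μ m) := by
  induction k with
  | zero =>
    have := SumP_nonneg (Finset.range ((run μ m).E + 1)) (fun x => x ≤ 0)
    simp only [zero_add, Finset.range_one, Finset.mem_singleton,
      Set.iUnion_iUnion_eq_left, sub_self, Cov_zero, Th_zero, hν.zero, mul_zero, add_zero]
    linarith
  | succ k ih =>
    have h1 := run_step hL hν (m := m) (n := m + k) (Nat.le_add_right m k)
    have h2 : ν (⋃ j ∈ Finset.range (k + 1 + 1),
        Cov cyl (beta μ (m + j) - beta μ m) (run μ (m + j)).t) ≤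
        ν (⋃ j ∈ Finset.range (k + 1), Cov cyl (beta μ (m + j) - beta μ m) (run μ (m + j)).t) +
        ν (Cov cyl (beta μ (m + k + 1) - beta μ m) (run μ (m + k + 1)).t \
          Cov cyl (beta μ (m + k) - beta μ m) (run μ (m + k)).t) := by
      refine (hν.mono _ _ ?_).trans (hν.sub _ _)
      intro x hx
      simp only [Set.mem_iUnion, Finset.mem_range] at hx
      obtain ⟨j, hj, hx⟩ := hx
      by_cases hx2 : x ∈ Cov cyl (beta μ (m + k) - beta μ m) (run μ (m + k)).t
      · left
        simp only [Set.mem_iUnion, Finset.mem_range]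
        exact ⟨k, by omega, hx2⟩
      · rcases Nat.lt_or_ge j (k + 1) with hj' | hj'
        · left
          simp only [Set.mem_iUnion, Finset.mem_range]
          exact ⟨j, hj', hx⟩
        · have : j = k + 1 := by omega
          subst this
          exact Or.inr ⟨hx, hx2⟩
    rw [← add_assoc]
    linarith

/-- The capacity estimate. -/
theorem capacity (hL : LocHyp μ) (hν : MeasOK ν cyl) {m n : ℕ} (h : m ≤ n) :
    ν (⋃ k ∈ {k | m ≤ k ∧ k ≤ n}, ⋃ q ∈ {q | Tr.Mem q (run μ k).t ∧ q.d ≠ 0 ∧
      1 / (2 : ℝ) ^ q.L ≤ beta μ k - beta μ m}, cyl q.L q.i) ≤ 9 * (beta μ n - beta μ m) := by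
  obtain ⟨k, rfl⟩ := Nat.exists_eq_add_of_le h
  have h1 := run_cap hL hν m k
  have h2 := Th_nonneg (H := beta μ (m + k) - beta μ m) (run_ok (μ := μ) hL (m + k))
  have h3 : 0 ≤ beta μ (m + k) - beta μ m :=
    sub_nonneg.2 (beta_strictMono.monotone (Nat.le_add_right m k))
  have h4 := SumP_le _ h3 (run μ (m + k)).E
  refine (hν.mono _ _ ?_).trans (by linarith)
  intro x hx
  simp only [Set.mem_iUnion, Set.mem_ofPred_eq] at hx
  obtain ⟨j, ⟨hj1, hj2⟩, q, ⟨hq1, hq2, hq3⟩, hx⟩ := hx
  simp only [Set.mem_iUnion, Finset.mem_range]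
  refine ⟨j - m, by omega, ?_⟩
  have e : m + (j - m) = j := by omega
  rw [e]
  exact sub_Cov hν (run_ok (μ := μ) hL j) hq1 ⟨hq2, hq3⟩ hx

end meas

end OWD
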