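import Pool.Agent.H22.OW.CompD

/-!
MP_9d9f9c_lc, OW-T9: the construction is computable.
-/

open Primrec

namespace OWD
namespace Cp

section
variable {M : ℕ → ℕ → ℕ → ℕ}

theorem expi_pr2 (hM : Primrec fun p : ℕ × ℕ × ℕ => M p.1 p.2.1 p.2.2) :
    Primrec₂ fun (p : ℕ × ℕ × ℕ) (t : Tr) => expi (mu M) p.1 p.2.1 p.2.2 t := by
  have g : Primrec₂ fun (p : ℕ × ℕ × ℕ) (r : Rec) =>
      @ite _ (Expired p.2.1 p.2.2 r) (Classical.propDecidable _)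
        (Tr.leaf (place (mu M) p.1 p.2.1 p.2.2 r)) (Tr.leaf r) := by
    have k1 : Primrec fun x : (ℕ × ℕ × ℕ) × Rec => x.1.1 := hd_pr Primrec.fst
    have k2 : Primrec fun x : (ℕ × ℕ × ℕ) × Rec => x.1.2.1 := hd_pr (tl_pr Primrec.fst)
    have k3 : Primrec fun x : (ℕ × ℕ × ℕ) × Rec => x.1.2.2 := tl_pr (tl_pr Primrec.fst)
    have k4 : Primrec fun x : (ℕ × ℕ × ℕ) × Rec => x.2 := Primrec.snd
    exact ite_pr (exp_pr k2 k3 k4) (leaf_pr.comp (place_pr hM k1 k2 k3 k4)) (leaf_pr.comp k4)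
  have h : Primrec₂ fun (p : ℕ × ℕ × ℕ) (q : Rec × Tr × Tr × Tr × Tr) =>
      @ite _ (Expired p.2.1 p.2.2 q.1) (Classical.propDecidable _)
        (Tr.leaf (place (mu M) p.1 p.2.1 p.2.2 q.1)) (Tr.node q.1 q.2.2.2.1 q.2.2.2.2) := by
    have k1 : Primrec fun x : (ℕ × ℕ × ℕ) × (Rec × Tr × Tr × Tr × Tr) => x.1.1 :=
      hd_pr Primrec.fst
    have k2 : Primrec fun x : (ℕ × ℕ × ℕ) × (Rec × Tr × Tr × Tr × Tr) => x.1.2.1 :=
      hd_pr (tl_pr Primrec.fst)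
    have k3 : Primrec fun x : (ℕ × ℕ × ℕ) × (Rec × Tr × Tr × Tr × Tr) => x.1.2.2 :=
      tl_pr (tl_pr Primrec.fst)
    have k4 : Primrec fun x : (ℕ × ℕ × ℕ) × (Rec × Tr × Tr × Tr × Tr) => x.2.1 :=
      hd_pr Primrec.snd
    have k5 : Primrec fun x : (ℕ × ℕ × ℕ) × (Rec × Tr × Tr × Tr × Tr) => x.2.2.2.2 :=
      tl_pr (tl_pr (tl_pr Primrec.snd))
    exact ite_pr (exp_pr k2 k3 k4) (leaf_pr.comp (place_pr hM k1 k2 k3 k4))
      (node_pr' k4 (hd_pr k5) (tl_pr k5))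
  exact tr_rec g h (fun _ _ => rfl) (fun _ _ _ _ => rfl)

theorem ext_pr2 (hM : Primrec fun p : ℕ × ℕ × ℕ => M p.1 p.2.1 p.2.2) :
    Primrec₂ fun (p : ℕ × ℕ × ℕ) (t : Tr) => ext (mu M) p.1 p.2.1 p.2.2 t := by
  have g : Primrec₂ fun (p : ℕ × ℕ × ℕ) (r : Rec) =>
      Tr.node r (Tr.leaf (child (mu M) p.1 p.2.1 p.2.2 r 0))
        (Tr.leaf (child (mu M) p.1 p.2.1 p.2.2 r 1)) := by
    have k1 : Primrec fun x : (ℕ × ℕ × ℕ) × Rec => x.1.1 := hd_pr Primrec.fst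
    have k2 : Primrec fun x : (ℕ × ℕ × ℕ) × Rec => x.1.2.1 := hd_pr (tl_pr Primrec.fst)
    have k3 : Primrec fun x : (ℕ × ℕ × ℕ) × Rec => x.1.2.2 := tl_pr (tl_pr Primrec.fst)
    have k4 : Primrec fun x : (ℕ × ℕ × ℕ) × Rec => x.2 := Primrec.snd
    exact node_pr' k4 (leaf_pr.comp (child_pr hM k1 k2 k3 k4 (Primrec.const 0)))
      (leaf_pr.comp (child_pr hM k1 k2 k3 k4 (Primrec.const 1)))
  have h : Primrec₂ fun (p : ℕ × ℕ × ℕ) (q : Rec × Tr × Tr × Tr × Tr) =>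
      @ite _ (Phi (mu M) p.1 q.2.1 ≤ Phi (mu M) p.1 q.2.2.1) (Classical.propDecidable _)
        (Tr.node q.1 q.2.2.2.1 (Tr.leaf (child (mu M) p.1 p.2.1 p.2.2 q.1 1)))
        (Tr.node q.1 q.2.1 q.2.2.2.2) := by
    have k1 : Primrec fun x : (ℕ × ℕ × ℕ) × (Rec × Tr × Tr × Tr × Tr) => x.1.1 :=
      hd_pr Primrec.fst
    have k2 : Primrec fun x : (ℕ × ℕ × ℕ) × (Rec × Tr × Tr × Tr × Tr) => x.1.2.1 :=
      hd_pr (tl_pr Primrec.fst)
    have k3 : Primrec fun x : (ℕ × ℕ × ℕ) × (Rec × Tr × Tr × Tr × Tr) => x.1.2.2 :=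
      tl_pr (tl_pr Primrec.fst)
    have k4 : Primrec fun x : (ℕ × ℕ × ℕ) × (Rec × Tr × Tr × Tr × Tr) => x.2.1 :=
      hd_pr Primrec.snd
    have k6 : Primrec fun x : (ℕ × ℕ × ℕ) × (Rec × Tr × Tr × Tr × Tr) => x.2.2.1 :=
      hd_pr (tl_pr Primrec.snd)
    have k7 : Primrec fun x : (ℕ × ℕ × ℕ) × (Rec × Tr × Tr × Tr × Tr) => x.2.2.2.1 :=
      hd_pr (tl_pr (tl_pr Primrec.snd))
    have k5 : Primrec fun x : (ℕ × ℕ × ℕ) × (Rec × Tr × Tr × Tr × Tr) => x.2.2.2.2 :=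
      tl_pr (tl_pr (tl_pr Primrec.snd))
    exact ite_pr (PhiLe_pr hM k1 k6 k7)
      (node_pr' k4 (hd_pr k5) (leaf_pr.comp (child_pr hM k1 k2 k3 k4 (Primrec.const 1))))
      (node_pr' k4 k6 (tl_pr k5))
  exact tr_rec g h (fun _ _ => rfl) (fun _ _ _ _ => rfl)

/-- The step of the construction on triples. -/
noncomputable def stepP (M : ℕ → ℕ → ℕ → ℕ) (n : ℕ) (p : Tr × ℕ × ℕ) : Tr × ℕ × ℕ :=
  @ite _ (Phi (mu M) n (expi (mu M) n p.2.1 p.2.2 p.1) ≤ 1) (Classical.propDecidable _)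
    (ext (mu M) n p.2.1 p.2.2 (expi (mu M) n p.2.1 p.2.2 p.1),
      p.2.1 * 2 ^ (3 * n + 6) + 1, p.2.2 + (3 * n + 6))
    (expi (mu M) n p.2.1 p.2.2 p.1, p.2.1 + 1, p.2.2)

/-- The run of the construction on triples. -/
noncomputable def runP (M : ℕ → ℕ → ℕ → ℕ) (n : ℕ) : Tr × ℕ × ℕ :=
  Nat.rec (Tr.leaf rootRec, 0, 0) (fun k p => stepP M k p) n

theorem runP_eq (M : ℕ → ℕ → ℕ → ℕ) (n : ℕ) :
    runP M n = ((run (mu M) n).t, (run (mu M) n).N, (run (mu M) n).E) := by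
  induction n with
  | zero => rfl
  | succ n ih =>
    have h1 : runP M (n + 1) = stepP M n (runP M n) := rfl
    have h2 : run (mu M) (n + 1) = step (mu M) n (run (mu M) n) := rfl
    rw [h1, h2, ih]
    unfold stepP step
    split_ifs <;> rfl

theorem stepP_pr (hM : Primrec fun p : ℕ × ℕ × ℕ => M p.1 p.2.1 p.2.2) :
    Primrec fun x : ℕ × Tr × ℕ × ℕ => stepP M x.1 x.2 := by
  have k1 : Primrec fun x : ℕ × Tr × ℕ × ℕ => x.1 := Primrec.fst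
  have k2 : Primrec fun x : ℕ × Tr × ℕ × ℕ => x.2.1 := hd_pr Primrec.snd
  have k3 : Primrec fun x : ℕ × Tr × ℕ × ℕ => x.2.2.1 := hd_pr (tl_pr Primrec.snd)
  have k4 : Primrec fun x : ℕ × Tr × ℕ × ℕ => x.2.2.2 := tl_pr (tl_pr Primrec.snd)
  have kt : Primrec fun x : ℕ × Tr × ℕ × ℕ => expi (mu M) x.1 x.2.2.1 x.2.2.2 x.2.1 :=
    (expi_pr2 hM).comp (k1.pair (k3.pair k4)) k2
  have ke : Primrec fun x : ℕ × Tr × ℕ × ℕ =>
      ext (mu M) x.1 x.2.2.1 x.2.2.2 (expi (mu M) x.1 x.2.2.1 x.2.2.2 x.2.1) :=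
    (ext_pr2 hM).comp (k1.pair (k3.pair k4)) kt
  have c1 : Primrec fun _ : ℕ × Tr × ℕ × ℕ => 1 := Primrec.const 1
  have c2 : Primrec fun _ : ℕ × Tr × ℕ × ℕ => 2 := Primrec.const 2
  have c3 : Primrec fun _ : ℕ × Tr × ℕ × ℕ => 3 := Primrec.const 3
  have c6 : Primrec fun _ : ℕ × Tr × ℕ × ℕ => 6 := Primrec.const 6
  have kn := add_pr (mul_pr c3 k1) c6
  unfold stepP
  exact ite_pr (PhiOne_pr hM k1 kt)
    (ke.pair ((add_pr (mul_pr k3 (pow_pr c2 kn)) c1).pair (add_pr k4 kn)))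
    (kt.pair ((add_pr k3 c1).pair k4))

theorem runP_pr (hM : Primrec fun p : ℕ × ℕ × ℕ => M p.1 p.2.1 p.2.2) : Primrec (runP M) := by
  have h : Primrec₂ fun (k : ℕ) (p : Tr × ℕ × ℕ) => stepP M k p := stepP_pr hM
  exact Primrec.nat_rec₁ (Tr.leaf rootRec, 0, 0) h

theorem runt_pr (hM : Primrec fun p : ℕ × ℕ × ℕ => M p.1 p.2.1 p.2.2) :
    Primrec fun n => (run (mu M) n).t :=
  (hd_pr (runP_pr hM)).of_eq fun n => by rw [runP_eq]

theorem runN_pr (hM : Primrec fun p : ℕ × ℕ × ℕ => M p.1 p.2.1 p.2.2) :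
    Primrec fun n => (run (mu M) n).N :=
  (hd_pr (tl_pr (runP_pr hM))).of_eq fun n => by rw [runP_eq]

theorem runE_pr (hM : Primrec fun p : ℕ × ℕ × ℕ => M p.1 p.2.1 p.2.2) :
    Primrec fun n => (run (mu M) n).E :=
  (tl_pr (tl_pr (runP_pr hM))).of_eq fun n => by rw [runP_eq]

/-- The preorder list of the records of a tree. -/
def recs : Tr → List Rec
  | .leaf r => [r]
  | .node r l t => r :: (recs l ++ recs t)

theorem mem_recs (q : Rec) (t : Tr) : q ∈ recs t ↔ Tr.Mem q t := by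
  induction t with
  | leaf r => simp [recs, Tr.Mem]
  | node r l t hl ht => simp [recs, Tr.Mem, hl, ht]

theorem recs_pr : Primrec recs := by
  have g : Primrec₂ fun (_ : Unit) (r : Rec) => [r] :=
    Primrec.list_cons.comp Primrec.snd (Primrec.const [])
  have h : Primrec₂ fun (_ : Unit) (q : Rec × Tr × Tr × List Rec × List Rec) =>
      q.1 :: (q.2.2.2.1 ++ q.2.2.2.2) := by
    have k1 : Primrec fun x : Unit × (Rec × Tr × Tr × List Rec × List Rec) => x.2.1 :=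
      hd_pr Primrec.snd
    have k2 : Primrec fun x : Unit × (Rec × Tr × Tr × List Rec × List Rec) => x.2.2.2.2 :=
      tl_pr (tl_pr (tl_pr Primrec.snd))
    exact Primrec.list_cons.comp k1 (Primrec.list_append.comp (hd_pr k2) (tl_pr k2))
  have hr : Primrec₂ fun (_ : Unit) (t : Tr) => recs t :=
    tr_rec g h (fun _ _ => rfl) (fun _ _ _ _ => rfl)
  exact hr.comp (Primrec.const ()) Primrec.id

theorem valL_pr : Primrec valL := by
  have h : Primrec₂ fun (_ : List Bool) (x : ℕ × Bool) => 2 * x.1 + (if x.2 then 1 else 0) := by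
    have k1 : Primrec fun x : List Bool × (ℕ × Bool) => x.2.1 := hd_pr Primrec.snd
    have k2 : Primrec fun x : List Bool × (ℕ × Bool) => x.2.2 := tl_pr Primrec.snd
    exact add_pr (mul_pr (Primrec.const 2) k1)
      (ite_pr (Primrec.eq.comp k2 (Primrec.const true)) (Primrec.const 1) (Primrec.const 0))
  exact (Primrec.list_foldl Primrec.id (Primrec.const 0) h).of_eq fun _ => rfl

/-- The comparison with the growth counters in natural numbers. -/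
theorem beta_iff (N1 E1 N2 E2 L : ℕ) :
    2 ^ E1 * 2 ^ E2 + N2 * 2 ^ E1 * 2 ^ L ≤ N1 * 2 ^ E2 * 2 ^ L ↔
      1 / (2 : ℝ) ^ L ≤ (N1 : ℝ) / 2 ^ E1 - (N2 : ℝ) / 2 ^ E2 := by
  have hP : (0 : ℝ) < 2 ^ E1 * 2 ^ E2 * 2 ^ L := by positivity
  rw [← mul_le_mul_iff_of_pos_right hP (b := 1 / (2 : ℝ) ^ L)]
  have e1 : 1 / (2 : ℝ) ^ L * (2 ^ E1 * 2 ^ E2 * 2 ^ L) = 2 ^ E1 * 2 ^ E2 := by field_simp
  have e2 : ((N1 : ℝ) / 2 ^ E1 - (N2 : ℝ) / 2 ^ E2) * (2 ^ E1 * 2 ^ E2 * 2 ^ L) =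
      N1 * 2 ^ E2 * 2 ^ L - N2 * 2 ^ E1 * 2 ^ L := by field_simp
  rw [e1, e2, ← @Nat.cast_le ℝ]
  push_cast
  constructor
  · intro h
    linarith
  · intro h
    linarith

end

end Cp

open Cp in
/-- OW-T9a (computability). -/
theorem run_computable {M : ℕ → ℕ → ℕ → ℕ}
    (hM : Primrec fun p : ℕ × ℕ × ℕ => M p.1 p.2.1 p.2.2) :
    Computable (fun n => ((run (fun n L i => (M n L i : ℝ) / (4 ^ n * 2 ^ L)) n).N,
      (run (fun n L i => (M n L i : ℝ) / (4 ^ n * 2 ^ L)) n).E)) :=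
  ((runN_pr hM).pair (runE_pr hM)).to_comp

open Cp in
/-- OW-T9b. -/
theorem test_re {M : ℕ → ℕ → ℕ → ℕ}
    (hM : Primrec fun p : ℕ × ℕ × ℕ => M p.1 p.2.1 p.2.2) :
    REPred (fun p : ℕ × List Bool => ∃ n, p.1 ≤ n ∧ ∃ q,
      Tr.Mem q (run (fun n L i => (M n L i : ℝ) / (4 ^ n * 2 ^ L)) n).t ∧ q.d ≠ 0 ∧
      1 / (2 : ℝ) ^ q.L ≤ beta (fun n L i => (M n L i : ℝ) / (4 ^ n * 2 ^ L)) n -
        beta (fun n L i => (M n L i : ℝ) / (4 ^ n * 2 ^ L)) p.1 ∧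
      q.L = p.2.length ∧ q.i = valL p.2) := by
  classical
  change REPred (fun p : ℕ × List Bool => ∃ n, p.1 ≤ n ∧ ∃ q,
      Tr.Mem q (run (mu M) n).t ∧ q.d ≠ 0 ∧
      1 / (2 : ℝ) ^ q.L ≤ beta (mu M) n - beta (mu M) p.1 ∧
      q.L = p.2.length ∧ q.i = valL p.2)
  have hR : PrimrecRel fun (q : Rec) (x : (ℕ × List Bool) × ℕ) => q.d ≠ 0 ∧
      1 / (2 : ℝ) ^ q.L ≤ beta (mu M) x.2 - beta (mu M) x.1.1 ∧
      q.L = x.1.2.length ∧ q.i = valL x.1.2 := by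
    have k1 : Primrec fun y : Rec × ((ℕ × List Bool) × ℕ) => y.1 := Primrec.fst
    have k2 : Primrec fun y : Rec × ((ℕ × List Bool) × ℕ) => y.2.2 := tl_pr Primrec.snd
    have k3 : Primrec fun y : Rec × ((ℕ × List Bool) × ℕ) => y.2.1.1 := hd_pr (hd_pr Primrec.snd)
    have k4 : Primrec fun y : Rec × ((ℕ × List Bool) × ℕ) => y.2.1.2 := tl_pr (hd_pr Primrec.snd)
    have c2 : Primrec fun _ : Rec × ((ℕ × List Bool) × ℕ) => 2 := Primrec.const 2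
    have c0 : Primrec fun _ : Rec × ((ℕ × List Bool) × ℕ) => 0 := Primrec.const 0
    have e1 := pow_pr c2 ((runE_pr hM).comp k2)
    have e2 := pow_pr c2 ((runE_pr hM).comp k3)
    have eL := pow_pr c2 (L_pr.comp k1)
    have h1 := (eq_pr (d_pr.comp k1) c0).not
    have h2 := le_pr (add_pr (mul_pr e1 e2) (mul_pr (mul_pr ((runN_pr hM).comp k3) e1) eL))
      (mul_pr (mul_pr ((runN_pr hM).comp k2) e2) eL)
    have h3 := eq_pr (L_pr.comp k1) (Primrec.list_length.comp k4)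
    have h4 := eq_pr (i_pr.comp k1) (valL_pr.comp k4)
    refine (h1.and (h2.and (h3.and h4))).of_eq fun y => ?_
    rw [beta_iff]
    rfl
  have hS : PrimrecPred fun x : (ℕ × List Bool) × ℕ => x.1.1 ≤ x.2 ∧ ∃ q,
      Tr.Mem q (run (mu M) x.2).t ∧ q.d ≠ 0 ∧
      1 / (2 : ℝ) ^ q.L ≤ beta (mu M) x.2 - beta (mu M) x.1.1 ∧
      q.L = x.1.2.length ∧ q.i = valL x.1.2 := by
    have h1 : PrimrecPred fun x : (ℕ × List Bool) × ℕ => x.1.1 ≤ x.2 :=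
      le_pr (hd_pr Primrec.fst) Primrec.snd
    have h2 := (hR.exists_mem_list).comp (recs_pr.comp ((runt_pr hM).comp
      (Primrec.snd : Primrec fun x : (ℕ × List Bool) × ℕ => x.2))) Primrec.id
    refine (h1.and h2).of_eq fun x => ?_
    simp only [mem_recs, id]
  have hF : Partrec fun p : ℕ × List Bool => Nat.rfind fun n => Part.some
      (decide (p.1 ≤ n ∧ ∃ q, Tr.Mem q (run (mu M) n).t ∧ q.d ≠ 0 ∧
      1 / (2 : ℝ) ^ q.L ≤ beta (mu M) n - beta (mu M) p.1 ∧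
      q.L = p.2.length ∧ q.i = valL p.2)) := by
    have h : Computable₂ fun (p : ℕ × List Bool) (n : ℕ) =>
        decide (p.1 ≤ n ∧ ∃ q, Tr.Mem q (run (mu M) n).t ∧ q.d ≠ 0 ∧
        1 / (2 : ℝ) ^ q.L ≤ beta (mu M) n - beta (mu M) p.1 ∧
        q.L = p.2.length ∧ q.i = valL p.2) := hS.decide.to_comp
    exact Partrec.rfind h.partrec₂
  refine hF.dom_re.of_eq fun p => ?_
  simp only [Nat.rfind_dom, Part.mem_some_iff, Part.some_dom, implies_true, and_true]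
  constructor
  · rintro ⟨n, hn⟩
    exact ⟨n, by simpa using hn.symm⟩
  · rintro ⟨n, hn⟩
    exact ⟨n, by simpa using hn⟩

end OWD
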