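import Pool.Agent.H22.OW.Fam

/-!
MP_9d9f9c_lc, OW-T9: tools for primitive recursive functions on trees of records.
-/

open Primrec

namespace OWD
namespace Cp

section tools

variable {α β σ : Type} [Primcodable α] [Primcodable β] [Primcodable σ]

theorem add_pr {f g : α → ℕ} (hf : Primrec f) (hg : Primrec g) : Primrec fun a => f a + g a :=
  Primrec.nat_add.comp hf hg

theorem sub_pr {f g : α → ℕ} (hf : Primrec f) (hg : Primrec g) : Primrec fun a => f a - g a :=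
  Primrec.nat_sub.comp hf hg

theorem mul_pr {f g : α → ℕ} (hf : Primrec f) (hg : Primrec g) : Primrec fun a => f a * g a :=
  Primrec.nat_mul.comp hf hg

theorem pow_pr {f g : α → ℕ} (hf : Primrec f) (hg : Primrec g) : Primrec fun a => f a ^ g a := by
  have h : Primrec₂ fun a b : ℕ => a ^ b :=
    Primrec₂.unpaired'.1 (Nat.Primrec.pow)
  exact h.comp hf hg

theorem le_pr {f g : α → ℕ} (hf : Primrec f) (hg : Primrec g) : PrimrecPred fun a => f a ≤ g a :=
  Primrec.nat_le.comp hf hg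

theorem lt_pr {f g : α → ℕ} (hf : Primrec f) (hg : Primrec g) : PrimrecPred fun a => f a < g a :=
  Primrec.nat_lt.comp hf hg

theorem eq_pr {f g : α → ℕ} (hf : Primrec f) (hg : Primrec g) : PrimrecPred fun a => f a = g a :=
  Primrec.eq.comp hf hg

theorem imp_pr {p q : α → Prop} (hp : PrimrecPred p) (hq : PrimrecPred q) :
    PrimrecPred fun a => p a → q a :=
  (hp.not.or hq).of_eq fun a => by tauto

theorem ite_pr {c : α → Prop} {i : DecidablePred c} {f g : α → σ} (hc : PrimrecPred c)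
    (hf : Primrec f) (hg : Primrec g) : Primrec fun a => if c a then f a else g a :=
  Primrec.ite hc hf hg

theorem sum_pr {f : α → ℕ → ℕ} (hf : Primrec₂ f) {c : α → ℕ} (hc : Primrec c) :
    Primrec fun a => ∑ j ∈ Finset.range (c a), f a j := by
  have h : Primrec₂ fun (a : α) (p : ℕ × ℕ) => p.2 + f a p.1 :=
    add_pr (Primrec.snd.comp Primrec.snd) (hf.comp Primrec.fst (Primrec.fst.comp Primrec.snd))
  refine (Primrec.nat_rec' hc (Primrec.const 0) h).of_eq fun a => ?_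
  induction c a with
  | zero => simp
  | succ n ih => rw [Finset.sum_range_succ, ← ih]

theorem all_lt {Q : α → ℕ → Prop} (hQ : PrimrecRel Q) {f : α → ℕ} (hf : Primrec f) :
    PrimrecPred fun a => ∀ x < f a, Q a x :=
  ((hQ.swap).forall_mem_list.comp (Primrec.list_range.comp hf) Primrec.id).of_eq fun a => by
    simp [Function.swap]

theorem findGreatest_pr {f : α → ℕ} (hf : Primrec f) {Q : α → ℕ → Prop}
    {i : ∀ a, DecidablePred (Q a)} (hQ : PrimrecRel Q) :
    Primrec fun a => Nat.findGreatest (Q a) (f a) := by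
  have h := @Primrec.nat_findGreatest α _ f Q i hf hQ
  exact h

end tools

section codes

/-- Records are tuples of natural numbers. -/
def recE : Rec ≃ ℕ × ℕ × ℕ × ℕ × ℕ × ℕ × ℕ × ℕ × ℕ × ℕ × ℕ where
  toFun r := (r.d, r.L, r.i, r.Lp, r.ip, r.s, r.τ, r.τp, r.τpp, r.bN, r.bE)
  invFun p := ⟨p.1, p.2.1, p.2.2.1, p.2.2.2.1, p.2.2.2.2.1, p.2.2.2.2.2.1, p.2.2.2.2.2.2.1,
    p.2.2.2.2.2.2.2.1, p.2.2.2.2.2.2.2.2.1, p.2.2.2.2.2.2.2.2.2.1, p.2.2.2.2.2.2.2.2.2.2⟩
  left_inv _ := rfl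
  right_inv _ := rfl

instance : Primcodable Rec := Primcodable.ofEquiv _ recE

theorem recE_pr : Primrec recE := Primrec.of_equiv

theorem tl_pr {α β γ : Type} [Primcodable α] [Primcodable β] [Primcodable γ] {f : α → β × γ}
    (hf : Primrec f) : Primrec fun a => (f a).2 := Primrec.snd.comp hf

theorem hd_pr {α β γ : Type} [Primcodable α] [Primcodable β] [Primcodable γ] {f : α → β × γ}
    (hf : Primrec f) : Primrec fun a => (f a).1 := Primrec.fst.comp hf

theorem d_pr : Primrec Rec.d := (hd_pr recE_pr).of_eq fun _ => rfl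
theorem L_pr : Primrec Rec.L := (hd_pr (tl_pr recE_pr)).of_eq fun _ => rfl
theorem i_pr : Primrec Rec.i := (hd_pr (tl_pr (tl_pr recE_pr))).of_eq fun _ => rfl
theorem Lp_pr : Primrec Rec.Lp := (hd_pr (tl_pr (tl_pr (tl_pr recE_pr)))).of_eq fun _ => rfl
theorem ip_pr : Primrec Rec.ip :=
  (hd_pr (tl_pr (tl_pr (tl_pr (tl_pr recE_pr))))).of_eq fun _ => rfl
theorem s_pr : Primrec Rec.s :=
  (hd_pr (tl_pr (tl_pr (tl_pr (tl_pr (tl_pr recE_pr)))))).of_eq fun _ => rfl
theorem tau_pr : Primrec Rec.τ :=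
  (hd_pr (tl_pr (tl_pr (tl_pr (tl_pr (tl_pr (tl_pr recE_pr))))))).of_eq fun _ => rfl
theorem taup_pr : Primrec Rec.τp :=
  (hd_pr (tl_pr (tl_pr (tl_pr (tl_pr (tl_pr (tl_pr (tl_pr recE_pr)))))))).of_eq fun _ => rfl
theorem taupp_pr : Primrec Rec.τpp :=
  (hd_pr (tl_pr (tl_pr (tl_pr (tl_pr (tl_pr (tl_pr (tl_pr
    (tl_pr recE_pr))))))))).of_eq fun _ => rfl
theorem bN_pr : Primrec Rec.bN :=
  (hd_pr (tl_pr (tl_pr (tl_pr (tl_pr (tl_pr (tl_pr (tl_pr (tl_pr
    (tl_pr recE_pr)))))))))).of_eq fun _ => rfl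
theorem bE_pr : Primrec Rec.bE :=
  (tl_pr (tl_pr (tl_pr (tl_pr (tl_pr (tl_pr (tl_pr (tl_pr (tl_pr
    (tl_pr recE_pr)))))))))).of_eq fun _ => rfl

theorem mk_pr {α : Type} [Primcodable α] {f1 f2 f3 f4 f5 f6 f7 f8 f9 f10 f11 : α → ℕ}
    (h1 : Primrec f1) (h2 : Primrec f2) (h3 : Primrec f3) (h4 : Primrec f4) (h5 : Primrec f5)
    (h6 : Primrec f6) (h7 : Primrec f7) (h8 : Primrec f8) (h9 : Primrec f9) (h10 : Primrec f10)
    (h11 : Primrec f11) :
    Primrec fun a => Rec.mk (f1 a) (f2 a) (f3 a) (f4 a) (f5 a) (f6 a) (f7 a) (f8 a) (f9 a) (f10 a)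
      (f11 a) := by
  have h : Primrec recE.symm := Primrec.of_equiv_symm
  have h' := h.comp (h1.pair (h2.pair (h3.pair (h4.pair (h5.pair (h6.pair (h7.pair (h8.pair
    (h9.pair (h10.pair h11))))))))))
  exact h'.of_eq fun _ => rfl

end codes

end Cp
end OWD
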