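import Pool.Agent.H22.OW.CompA

/-!
MP_9d9f9c_lc, OW-T9: trees of records as natural numbers, recursion on trees.
-/

open Primrec

namespace OWD
namespace Cp

section codes

/-- The second component of the pair. -/
def tl (n : ℕ) : ℕ := n.unpair.2

/-- The first component of the pair. -/
def hd (n : ℕ) : ℕ := n.unpair.1

@[simp] theorem hd_pair (a b : ℕ) : hd (Nat.pair a b) = a := by simp [hd]
@[simp] theorem tl_pair (a b : ℕ) : tl (Nat.pair a b) = b := by simp [tl]
@[simp] theorem pair_hd_tl (n : ℕ) : Nat.pair (hd n) (tl n) = n := by simp [hd, tl]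

theorem pair_pr {α : Type} [Primcodable α] {f g : α → ℕ} (hf : Primrec f) (hg : Primrec g) :
    Primrec fun a => Nat.pair (f a) (g a) := Primrec₂.natPair.comp hf hg

theorem hdn_pr {α : Type} [Primcodable α] {f : α → ℕ} (hf : Primrec f) :
    Primrec fun a => hd (f a) := Primrec.fst.comp (Primrec.unpair.comp hf)

theorem tln_pr {α : Type} [Primcodable α] {f : α → ℕ} (hf : Primrec f) :
    Primrec fun a => tl (f a) := Primrec.snd.comp (Primrec.unpair.comp hf)

/-- The code of a record. -/
def encR (r : Rec) : ℕ :=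
    Nat.pair r.d (Nat.pair r.L (Nat.pair r.i (Nat.pair r.Lp (Nat.pair r.ip (Nat.pair r.s
      (Nat.pair r.τ (Nat.pair r.τp (Nat.pair r.τpp (Nat.pair r.bN r.bE)))))))))

/-- The record with a given code. -/
def decR (n : ℕ) : Rec :=
    ⟨hd n, hd (tl n), hd (tl (tl n)), hd (tl (tl (tl n))), hd (tl (tl (tl (tl n)))), hd (tl (tl
      (tl (tl (tl n))))), hd (tl (tl (tl (tl (tl (tl n)))))), hd (tl (tl (tl (tl (tl (tl (tl
      n))))))), hd (tl (tl (tl (tl (tl (tl (tl (tl n)))))))), hd (tl (tl (tl (tl (tl (tl (tl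
      (tl (tl n))))))))), tl (tl (tl (tl (tl (tl (tl (tl (tl (tl n)))))))))⟩

theorem decR_encR (r : Rec) : decR (encR r) = r := by
  simp only [decR, encR, hd_pair, tl_pair]

theorem encR_decR (n : ℕ) : encR (decR n) = n := by
  simp only [decR, encR, pair_hd_tl]

theorem encR_pr : Primrec encR := by
  unfold encR
  exact
    pair_pr d_pr (pair_pr L_pr (pair_pr i_pr (pair_pr Lp_pr (pair_pr ip_pr (pair_pr s_pr
      (pair_pr tau_pr (pair_pr taup_pr (pair_pr taupp_pr (pair_pr bN_pr bE_pr)))))))))

theorem decR_pr : Primrec decR := by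
  unfold decR
  exact
    mk_pr (hdn_pr Primrec.id) (hdn_pr (tln_pr Primrec.id)) (hdn_pr (tln_pr (tln_pr
      Primrec.id))) (hdn_pr (tln_pr (tln_pr (tln_pr Primrec.id)))) (hdn_pr (tln_pr (tln_pr
      (tln_pr (tln_pr Primrec.id))))) (hdn_pr (tln_pr (tln_pr (tln_pr (tln_pr (tln_pr
      Primrec.id)))))) (hdn_pr (tln_pr (tln_pr (tln_pr (tln_pr (tln_pr (tln_pr
      Primrec.id))))))) (hdn_pr (tln_pr (tln_pr (tln_pr (tln_pr (tln_pr (tln_pr (tln_pr
      Primrec.id)))))))) (hdn_pr (tln_pr (tln_pr (tln_pr (tln_pr (tln_pr (tln_pr (tln_pr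
      (tln_pr Primrec.id))))))))) (hdn_pr (tln_pr (tln_pr (tln_pr (tln_pr (tln_pr (tln_pr
      (tln_pr (tln_pr (tln_pr Primrec.id)))))))))) (tln_pr (tln_pr (tln_pr (tln_pr (tln_pr
      (tln_pr (tln_pr (tln_pr (tln_pr (tln_pr Primrec.id))))))))))

/-- The code of a tree. -/
def enc : Tr → ℕ
  | .leaf r => 2 * encR r
  | .node r l t => 2 * Nat.pair (encR r) (Nat.pair (enc l) (enc t)) + 1

theorem dec_aux1 {n : ℕ} (h : n % 2 ≠ 0) : (n / 2).unpair.2.unpair.1 < n :=
  ((Nat.unpair_left_le _).trans (Nat.unpair_right_le _)).trans_lt (by omega)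

theorem dec_aux2 {n : ℕ} (h : n % 2 ≠ 0) : (n / 2).unpair.2.unpair.2 < n :=
  ((Nat.unpair_right_le _).trans (Nat.unpair_right_le _)).trans_lt (by omega)

/-- The tree with a given code. -/
def dec (n : ℕ) : Tr :=
  if h : n % 2 = 0 then .leaf (decR (n / 2))
  else .node (decR (n / 2).unpair.1) (dec (n / 2).unpair.2.unpair.1)
    (dec (n / 2).unpair.2.unpair.2)
termination_by n
decreasing_by
  · exact dec_aux1 h
  · exact dec_aux2 h

theorem dec_even {n : ℕ} (h : n % 2 = 0) : dec n = .leaf (decR (n / 2)) := by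
  rw [dec, dif_pos h]

theorem dec_odd {n : ℕ} (h : n % 2 ≠ 0) : dec n = .node (decR (n / 2).unpair.1)
    (dec (n / 2).unpair.2.unpair.1) (dec (n / 2).unpair.2.unpair.2) := by
  rw [dec, dif_neg h]

theorem dec_enc (t : Tr) : dec (enc t) = t := by
  induction t with
  | leaf r =>
    rw [enc, dec_even (by omega), Nat.mul_div_cancel_left _ (by norm_num), decR_encR]
  | node r l t hl ht =>
    rw [enc, dec_odd (by omega)]
    have h : (2 * Nat.pair (encR r) (Nat.pair (enc l) (enc t)) + 1) / 2 =
        Nat.pair (encR r) (Nat.pair (enc l) (enc t)) := by omega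
    rw [h]
    simp only [Nat.unpair_pair, hl, ht, decR_encR]

theorem enc_dec (n : ℕ) : enc (dec n) = n := by
  induction n using Nat.strong_induction_on with
  | _ n ih =>
    by_cases h : n % 2 = 0
    · rw [dec_even h, enc, encR_decR]
      omega
    · rw [dec_odd h, enc, ih _ (dec_aux1 h), ih _ (dec_aux2 h), encR_decR, Nat.pair_unpair,
        Nat.pair_unpair]
      omega

/-- Trees are natural numbers. -/
def trE : Tr ≃ ℕ where
  toFun := enc
  invFun := dec
  left_inv := dec_enc
  right_inv := enc_dec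

instance : Primcodable Tr := Primcodable.ofEquiv ℕ trE

theorem enc_pr : Primrec enc := by
  have h : Primrec trE := Primrec.of_equiv
  exact h.of_eq fun _ => rfl

theorem dec_pr : Primrec dec := by
  have h : Primrec trE.symm := Primrec.of_equiv_symm
  exact h.of_eq fun _ => rfl

theorem leaf_pr : Primrec Tr.leaf := by
  have h : Primrec fun r => dec (2 * encR r) :=
    dec_pr.comp (mul_pr (Primrec.const 2) encR_pr)
  refine h.of_eq fun r => ?_
  rw [← dec_enc (.leaf r), enc]

theorem node_pr : Primrec fun p : Rec × Tr × Tr => Tr.node p.1 p.2.1 p.2.2 := by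
  have h : Primrec fun p : Rec × Tr × Tr =>
      dec (2 * Nat.pair (encR p.1) (Nat.pair (enc p.2.1) (enc p.2.2)) + 1) :=
    dec_pr.comp (add_pr (mul_pr (Primrec.const 2) (Primrec₂.natPair.comp
      (encR_pr.comp Primrec.fst) (Primrec₂.natPair.comp
        (enc_pr.comp (Primrec.fst.comp Primrec.snd)) (enc_pr.comp
          (Primrec.snd.comp Primrec.snd))))) (Primrec.const 1))
  refine h.of_eq fun p => ?_
  rw [← dec_enc (.node p.1 p.2.1 p.2.2), enc]

theorem node_pr' {α : Type} [Primcodable α] {f : α → Rec} {g h : α → Tr} (hf : Primrec f)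
    (hg : Primrec g) (hh : Primrec h) : Primrec fun a => Tr.node (f a) (g a) (h a) :=
  node_pr.comp (hf.pair (hg.pair hh))

/-- Recursion on trees is primitive recursive. -/
theorem tr_rec {α σ : Type} [Primcodable α] [Primcodable σ] {f : α → Tr → σ} {g : α → Rec → σ}
    {h : α → Rec × Tr × Tr × σ × σ → σ} (hg : Primrec₂ g) (hh : Primrec₂ h)
    (H1 : ∀ a r, f a (.leaf r) = g a r)
    (H2 : ∀ a r l t, f a (.node r l t) = h a (r, l, t, f a l, f a t)) : Primrec₂ f := by
  set G : α → List σ → Option σ := fun a l =>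
    if l.length % 2 = 0 then some (g a (decR (l.length / 2)))
    else (l[(l.length / 2).unpair.2.unpair.1]?).bind fun v =>
      (l[(l.length / 2).unpair.2.unpair.2]?).map fun w =>
        h a (decR (l.length / 2).unpair.1, dec (l.length / 2).unpair.2.unpair.1,
          dec (l.length / 2).unpair.2.unpair.2, v, w) with hG
  have hlen : Primrec fun p : α × List σ => p.2.length := Primrec.list_length.comp Primrec.snd
  have hhalf : Primrec fun p : α × List σ => p.2.length / 2 :=
    Primrec.nat_div.comp hlen (Primrec.const 2)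
  have hu : Primrec Nat.unpair := Primrec.unpair
  have h1 : Primrec fun p : α × List σ => (p.2.length / 2).unpair.1 :=
    Primrec.fst.comp (hu.comp hhalf)
  have h2 : Primrec fun p : α × List σ => (p.2.length / 2).unpair.2.unpair.1 :=
    Primrec.fst.comp (hu.comp (Primrec.snd.comp (hu.comp hhalf)))
  have h3 : Primrec fun p : α × List σ => (p.2.length / 2).unpair.2.unpair.2 :=
    Primrec.snd.comp (hu.comp (Primrec.snd.comp (hu.comp hhalf)))
  have hGp : Primrec₂ G := by
    refine ite_pr (eq_pr (Primrec.nat_mod.comp hlen (Primrec.const 2)) (Primrec.const 0)) ?_ ?_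
    · exact Primrec.option_some.comp (hg.comp Primrec.fst (decR_pr.comp hhalf))
    · refine Primrec.option_bind (Primrec.list_getElem?.comp Primrec.snd h2) ?_
      refine Primrec.option_map
        (Primrec.list_getElem?.comp (Primrec.snd.comp Primrec.fst) (h3.comp Primrec.fst)) ?_
      have k0 : Primrec fun p : ((α × List σ) × σ) × σ => p.1.1 := Primrec.fst.comp Primrec.fst
      exact hh.comp (Primrec.fst.comp k0) ((decR_pr.comp (h1.comp k0)).pair
        ((dec_pr.comp (h2.comp k0)).pair ((dec_pr.comp (h3.comp k0)).pair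
          ((Primrec.snd.comp Primrec.fst).pair Primrec.snd))))
  have key : Primrec₂ fun (a : α) (n : ℕ) => f a (dec n) := by
    refine Primrec.nat_strong_rec _ hGp fun a n => ?_
    simp only [hG, List.length_map, List.length_range]
    by_cases hn : n % 2 = 0
    · rw [if_pos hn, dec_even hn, H1]
    · rw [if_neg hn, dec_odd hn, H2, List.getElem?_map, List.getElem?_map,
        List.getElem?_range (dec_aux1 hn), List.getElem?_range (dec_aux2 hn)]
      rfl
  exact (key.comp Primrec.fst (enc_pr.comp Primrec.snd)).of_eq fun p => by rw [dec_enc]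

end codes

end Cp
end OWD
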