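import Pool.Agent.H22.OW.CompB

/-!
MP_9d9f9c_lc, OW-T9: the location function is primitive recursive.
-/

open Primrec

namespace OWD
namespace Cp

/-- The masses given by a function with values in the natural numbers. -/
noncomputable def mu (M : ℕ → ℕ → ℕ → ℕ) : ℕ → ℕ → ℕ → ℝ :=
  fun n L i => (M n L i : ℝ) / (4 ^ n * 2 ^ L)

/-- The inequality of the condition `Good` in natural numbers. -/
def Ineq (M : ℕ → ℕ → ℕ → ℕ) (n m L Lp ip a c : ℕ) : Prop :=
  2 ^ (L - Lp) * 2 ^ Lp * 4 ^ m * (∑ j ∈ Finset.range c, M n L (a + j)) +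
      32 * c * 2 ^ L * 4 ^ n * M m Lp ip ≤
    32 * c * 2 ^ L * 4 ^ m * M n Lp ip +
      2 ^ (L - Lp) * 2 ^ Lp * 4 ^ n * (∑ j ∈ Finset.range c, M m L (a + j))

/-- The condition `Good` in natural numbers. -/
def GoodN (M : ℕ → ℕ → ℕ → ℕ) (n m L i Lp ip : ℕ) : Prop :=
  (∀ a < i + 1, ip * 2 ^ (L - Lp) ≤ a → Ineq M n m L Lp ip a (i + 1 - a)) ∧
  (∀ b < (ip + 1) * 2 ^ (L - Lp), i ≤ b → Ineq M n m L Lp ip i (b + 1 - i))

theorem ineq_iff (M : ℕ → ℕ → ℕ → ℕ) (n m L Lp ip a c : ℕ) :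
    Ineq M n m L Lp ip a c ↔ (2 : ℝ) ^ (L - Lp) *
      ∑ j ∈ Finset.range c, (mu M n L (a + j) - mu M m L (a + j)) ≤
      32 * (c : ℝ) * (mu M n Lp ip - mu M m Lp ip) := by
  have hP : (0 : ℝ) < 4 ^ n * 4 ^ m * 2 ^ L * 2 ^ Lp := by positivity
  rw [← mul_le_mul_iff_of_pos_right hP]
  have h4n : (4 : ℝ) ^ n ≠ 0 := by positivity
  have h4m : (4 : ℝ) ^ m ≠ 0 := by positivity
  have h2L : (2 : ℝ) ^ L ≠ 0 := by positivity
  have h2p : (2 : ℝ) ^ Lp ≠ 0 := by positivity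
  have e0 : ∑ j ∈ Finset.range c, (mu M n L (a + j) - mu M m L (a + j)) =
      (∑ j ∈ Finset.range c, (M n L (a + j) : ℝ)) / (4 ^ n * 2 ^ L) -
      (∑ j ∈ Finset.range c, (M m L (a + j) : ℝ)) / (4 ^ m * 2 ^ L) := by
    rw [Finset.sum_div, Finset.sum_div, ← Finset.sum_sub_distrib]
    rfl
  have e1 : (2 : ℝ) ^ (L - Lp) *
      (∑ j ∈ Finset.range c, (mu M n L (a + j) - mu M m L (a + j))) *
      (4 ^ n * 4 ^ m * 2 ^ L * 2 ^ Lp) =
      2 ^ (L - Lp) * 2 ^ Lp * 4 ^ m * (∑ j ∈ Finset.range c, (M n L (a + j) : ℝ)) -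
      2 ^ (L - Lp) * 2 ^ Lp * 4 ^ n * (∑ j ∈ Finset.range c, (M m L (a + j) : ℝ)) := by
    rw [e0]
    field_simp
  have e2 : 32 * (c : ℝ) * (mu M n Lp ip - mu M m Lp ip) *
      (4 ^ n * 4 ^ m * 2 ^ L * 2 ^ Lp) =
      32 * c * 2 ^ L * 4 ^ m * M n Lp ip - 32 * c * 2 ^ L * 4 ^ n * M m Lp ip := by
    simp only [mu]
    field_simp
  rw [e1, e2, Ineq, ← @Nat.cast_le ℝ]
  push_cast
  constructor
  · intro h
    linarith
  · intro h
    linarith

theorem sum_Icc_range (f : ℕ → ℝ) (a i : ℕ) :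
    ∑ k ∈ Finset.Icc a i, f k = ∑ j ∈ Finset.range (i + 1 - a), f (a + j) := by
  have h : Finset.Icc a i = Finset.Ico a (i + 1) := by
    ext x
    simp only [Finset.mem_Icc, Finset.mem_Ico]
    omega
  rw [h, Finset.sum_Ico_eq_sum_range]

theorem good_iff (M : ℕ → ℕ → ℕ → ℕ) (n m L i Lp ip : ℕ) :
    GoodN M n m L i Lp ip ↔ Good (mu M) n m L i Lp ip := by
  constructor
  · rintro ⟨h1, h2⟩
    refine ⟨fun a ha hi => ?_, fun b hi hb => ?_⟩
    · rw [sum_Icc_range (fun k => mu M n L k - mu M m L k)]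
      exact (ineq_iff M n m L Lp ip a (i + 1 - a)).1 (h1 a (by omega) ha)
    · rw [sum_Icc_range (fun k => mu M n L k - mu M m L k)]
      exact (ineq_iff M n m L Lp ip i (b + 1 - i)).1 (h2 b hb hi)
  · rintro ⟨h1, h2⟩
    refine ⟨fun a hi ha => ?_, fun b hb hi => ?_⟩
    · have h := h1 a ha (by omega)
      rw [sum_Icc_range (fun k => mu M n L k - mu M m L k)] at h
      exact (ineq_iff M n m L Lp ip a (i + 1 - a)).2 h
    · have h := h2 b hi hb
      rw [sum_Icc_range (fun k => mu M n L k - mu M m L k)] at h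
      exact (ineq_iff M n m L Lp ip i (b + 1 - i)).2 h

section
variable {M : ℕ → ℕ → ℕ → ℕ} {α : Type} [Primcodable α]

theorem M_pr (hM : Primrec fun p : ℕ × ℕ × ℕ => M p.1 p.2.1 p.2.2) {f g h : α → ℕ}
    (hf : Primrec f) (hg : Primrec g) (hh : Primrec h) :
    Primrec fun a => M (f a) (g a) (h a) :=
  hM.comp (hf.pair (hg.pair hh))

theorem S_pr (hM : Primrec fun p : ℕ × ℕ × ℕ => M p.1 p.2.1 p.2.2) {n L a c : α → ℕ}
    (hn : Primrec n) (hL : Primrec L) (ha : Primrec a) (hc : Primrec c) :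
    Primrec fun x => ∑ j ∈ Finset.range (c x), M (n x) (L x) (a x + j) := by
  have h : Primrec₂ fun (x : α) (j : ℕ) => M (n x) (L x) (a x + j) :=
    M_pr hM (hn.comp Primrec.fst) (hL.comp Primrec.fst)
      (add_pr (ha.comp Primrec.fst) Primrec.snd)
  exact sum_pr h hc

theorem Ineq_pr (hM : Primrec fun p : ℕ × ℕ × ℕ => M p.1 p.2.1 p.2.2)
    {n m L Lp ip a c : α → ℕ} (hn : Primrec n) (hm : Primrec m) (hL : Primrec L)
    (hLp : Primrec Lp) (hip : Primrec ip) (ha : Primrec a) (hc : Primrec c) :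
    PrimrecPred fun x => Ineq M (n x) (m x) (L x) (Lp x) (ip x) (a x) (c x) := by
  have h2 : Primrec fun _ : α => 2 := Primrec.const 2
  have h4 : Primrec fun _ : α => 4 := Primrec.const 4
  have h32 : Primrec fun _ : α => 32 := Primrec.const 32
  have k1 := mul_pr (pow_pr h2 (sub_pr hL hLp)) (pow_pr h2 hLp)
  have k2 := mul_pr (mul_pr h32 hc) (pow_pr h2 hL)
  unfold Ineq
  exact le_pr
    (add_pr (mul_pr (mul_pr k1 (pow_pr h4 hm)) (S_pr hM hn hL ha hc))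
      (mul_pr (mul_pr k2 (pow_pr h4 hn)) (M_pr hM hm hLp hip)))
    (add_pr (mul_pr (mul_pr k2 (pow_pr h4 hm)) (M_pr hM hn hLp hip))
      (mul_pr (mul_pr k1 (pow_pr h4 hn)) (S_pr hM hm hL ha hc)))

theorem GoodN_pr (hM : Primrec fun p : ℕ × ℕ × ℕ => M p.1 p.2.1 p.2.2)
    {n m L i Lp ip : α → ℕ} (hn : Primrec n) (hm : Primrec m) (hL : Primrec L)
    (hi : Primrec i) (hLp : Primrec Lp) (hip : Primrec ip) :
    PrimrecPred fun x => GoodN M (n x) (m x) (L x) (i x) (Lp x) (ip x) := by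
  have h1 : Primrec fun _ : α => 1 := Primrec.const 1
  have h2 : Primrec fun _ : α => 2 := Primrec.const 2
  have kp := pow_pr h2 (sub_pr hL hLp)
  have fs : Primrec fun x : α × ℕ => x.1 := Primrec.fst
  have sn : Primrec fun x : α × ℕ => x.2 := Primrec.snd
  have q1 : PrimrecRel fun (x : α) (a : ℕ) => ip x * 2 ^ (L x - Lp x) ≤ a →
      Ineq M (n x) (m x) (L x) (Lp x) (ip x) a (i x + 1 - a) :=
    imp_pr (le_pr ((mul_pr hip kp).comp fs) sn)
      (Ineq_pr hM (hn.comp fs) (hm.comp fs) (hL.comp fs) (hLp.comp fs) (hip.comp fs) sn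
        (sub_pr ((add_pr hi h1).comp fs) sn))
  have q2 : PrimrecRel fun (x : α) (b : ℕ) => i x ≤ b →
      Ineq M (n x) (m x) (L x) (Lp x) (ip x) (i x) (b + 1 - i x) :=
    imp_pr (le_pr (hi.comp fs) sn)
      (Ineq_pr hM (hn.comp fs) (hm.comp fs) (hL.comp fs) (hLp.comp fs) (hip.comp fs) (hi.comp fs)
        (sub_pr (add_pr sn (h1.comp fs)) (hi.comp fs)))
  exact (all_lt q1 (add_pr hi h1)).and (all_lt q2 (mul_pr (add_pr hip h1) kp))

theorem Mid_pr {L i Lp ip s : α → ℕ} (hL : Primrec L) (hi : Primrec i) (hLp : Primrec Lp)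
    (hip : Primrec ip) (hs : Primrec s) :
    PrimrecPred fun x => Mid (L x) (i x) (Lp x) (ip x) (s x) := by
  have h1 : Primrec fun _ : α => 1 := Primrec.const 1
  have h2 : Primrec fun _ : α => 2 := Primrec.const 2
  have h3 : Primrec fun _ : α => 3 := Primrec.const 3
  have h4 : Primrec fun _ : α => 4 := Primrec.const 4
  have h8 : Primrec fun _ : α => 8 := Primrec.const 8
  have kp := pow_pr h2 (sub_pr (sub_pr hL hLp) h3)
  have k := add_pr (mul_pr h8 hip) (mul_pr h4 hs)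
  unfold Mid
  exact (le_pr (mul_pr (add_pr k h1) kp) hi).and (lt_pr hi (mul_pr (add_pr k h3) kp))

theorem loc_pr (hM : Primrec fun p : ℕ × ℕ × ℕ => M p.1 p.2.1 p.2.2)
    {n L Lp ip s t u : α → ℕ} (hn : Primrec n) (hL : Primrec L)
    (hLp : Primrec Lp) (hip : Primrec ip) (hs : Primrec s) (ht : Primrec t) (hu : Primrec u) :
    Primrec fun x => loc (mu M) (n x) (L x) (Lp x) (ip x) (s x) (t x) (u x) := by
  have fs : Primrec fun x : α × ℕ => x.1 := Primrec.fst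
  have sn : Primrec fun x : α × ℕ => x.2 := Primrec.snd
  have q : PrimrecRel fun (x : α) (i : ℕ) =>
      LocOK (mu M) (n x) (L x) i (Lp x) (ip x) (s x) (t x) (u x) := by
    have h := (Mid_pr (hL.comp fs) sn (hLp.comp fs) (hip.comp fs) (hs.comp fs)).and
      ((GoodN_pr hM (hn.comp fs) (ht.comp fs) (hL.comp fs) sn (hLp.comp fs) (hip.comp fs)).and
      (GoodN_pr hM (ht.comp fs) (hu.comp fs) (hL.comp fs) sn (hLp.comp fs) (hip.comp fs)))
    exact h.of_eq fun x => by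
      simp only [LocOK, good_iff]
  unfold loc
  exact findGreatest_pr (pow_pr (Primrec.const 2) hL) q

end

end Cp
end OWD
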