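import Pool.Agent.H22.OW.CompC

/-!
MP_9d9f9c_lc, OW-T9: the steps of the construction are primitive recursive.
-/

open Primrec

namespace OWD
namespace Cp

section
variable {M : ℕ → ℕ → ℕ → ℕ} {α : Type} [Primcodable α]

theorem place_pr (hM : Primrec fun p : ℕ × ℕ × ℕ => M p.1 p.2.1 p.2.2)
    {n N E : α → ℕ} {r : α → Rec} (hn : Primrec n) (hN : Primrec N) (hE : Primrec E)
    (hr : Primrec r) : Primrec fun x => place (mu M) (n x) (N x) (E x) (r x) := by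
  unfold place
  exact mk_pr (d_pr.comp hr) (L_pr.comp hr)
    (loc_pr hM hn (L_pr.comp hr) (Lp_pr.comp hr) (ip_pr.comp hr) (s_pr.comp hr) (taup_pr.comp hr)
      (taupp_pr.comp hr)) (Lp_pr.comp hr) (ip_pr.comp hr) (s_pr.comp hr) hn (taup_pr.comp hr)
    (taupp_pr.comp hr) hN hE

theorem child_pr (hM : Primrec fun p : ℕ × ℕ × ℕ => M p.1 p.2.1 p.2.2)
    {n N E s : α → ℕ} {r : α → Rec} (hn : Primrec n) (hN : Primrec N) (hE : Primrec E)
    (hr : Primrec r) (hs : Primrec s) :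
    Primrec fun x => child (mu M) (n x) (N x) (E x) (r x) (s x) := by
  unfold child
  refine place_pr hM hn hN hE ?_
  have h0 : Primrec fun _ : α => 0 := Primrec.const 0
  have h1 : Primrec fun _ : α => 1 := Primrec.const 1
  have h2 : Primrec fun _ : α => 2 := Primrec.const 2
  have h4 : Primrec fun _ : α => 4 := Primrec.const 4
  exact mk_pr (add_pr (d_pr.comp hr) h1)
    (add_pr (add_pr (add_pr (add_pr hE hn) h4) (mul_pr h2 (sub_pr hn (d_pr.comp hr)))) hs) h0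
    (L_pr.comp hr) (i_pr.comp hr) hs h0 (tau_pr.comp hr) (taup_pr.comp hr) h0 h0

/-- The condition `Expired` in natural numbers. -/
def ExpN (N E : ℕ) (r : Rec) : Prop :=
  r.d ≠ 0 ∧ 3 ^ r.d * 2 ^ E * 2 ^ r.bE + r.bN * 2 ^ r.d * 2 ^ r.L * 2 ^ E ≤
    N * 2 ^ r.d * 2 ^ r.L * 2 ^ r.bE

theorem expired_iff (N E : ℕ) (r : Rec) : ExpN N E r ↔ Expired N E r := by
  unfold ExpN Expired
  refine and_congr Iff.rfl ?_
  have hP : (0 : ℝ) < 2 ^ r.d * 2 ^ r.L * 2 ^ E * 2 ^ r.bE := by positivity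
  rw [← mul_le_mul_iff_of_pos_right hP (b := life r) (c := age N E r)]
  have e1 : life r * (2 ^ r.d * 2 ^ r.L * 2 ^ E * 2 ^ r.bE) = 3 ^ r.d * 2 ^ E * 2 ^ r.bE := by
    simp only [life, div_pow]
    field_simp
  have e2 : age N E r * (2 ^ r.d * 2 ^ r.L * 2 ^ E * 2 ^ r.bE) =
      N * 2 ^ r.d * 2 ^ r.L * 2 ^ r.bE - r.bN * 2 ^ r.d * 2 ^ r.L * 2 ^ E := by
    simp only [age]
    field_simp
  rw [e1, e2, ← @Nat.cast_le ℝ]
  push_cast
  constructor
  · intro h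
    linarith
  · intro h
    linarith

theorem exp_pr {N E : α → ℕ} {r : α → Rec} (hN : Primrec N) (hE : Primrec E)
    (hr : Primrec r) : PrimrecPred fun x => Expired (N x) (E x) (r x) := by
  have h0 : Primrec fun _ : α => 0 := Primrec.const 0
  have h2 : Primrec fun _ : α => 2 := Primrec.const 2
  have h3 : Primrec fun _ : α => 3 := Primrec.const 3
  have kd := pow_pr h2 (d_pr.comp hr)
  have kL := pow_pr h2 (L_pr.comp hr)
  have kE := pow_pr h2 hE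
  have kb := pow_pr h2 (bE_pr.comp hr)
  have h : PrimrecPred fun x => ExpN (N x) (E x) (r x) := by
    unfold ExpN
    exact (eq_pr (d_pr.comp hr) h0).not.and
      (le_pr (add_pr (mul_pr (mul_pr (pow_pr h3 (d_pr.comp hr)) kE) kb)
        (mul_pr (mul_pr (mul_pr (bN_pr.comp hr) kd) kL) kE))
        (mul_pr (mul_pr (mul_pr hN kd) kL) kb))
  exact h.of_eq fun x => expired_iff _ _ _

/-- The real number given by a triple. -/
noncomputable def fr (p : ℕ × ℕ × ℕ) : ℝ := ((p.1 : ℝ) - p.2.1) / p.2.2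

/-- Addition of fractions. -/
def addF (p q : ℕ × ℕ × ℕ) : ℕ × ℕ × ℕ :=
  (p.1 * q.2.2 + q.1 * p.2.2, p.2.1 * q.2.2 + q.2.1 * p.2.2, p.2.2 * q.2.2)

/-- Comparison of fractions. -/
def leF (p q : ℕ × ℕ × ℕ) : Prop :=
  p.1 * q.2.2 + q.2.1 * p.2.2 ≤ q.1 * p.2.2 + p.2.1 * q.2.2

instance (p q : ℕ × ℕ × ℕ) : Decidable (leF p q) := by
  unfold leF
  infer_instance

/-- Minimum of fractions. -/
def minF (p q : ℕ × ℕ × ℕ) : ℕ × ℕ × ℕ := if leF p q then p else q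

theorem fr_add {p q : ℕ × ℕ × ℕ} (hp : 0 < p.2.2) (hq : 0 < q.2.2) :
    fr (addF p q) = fr p + fr q := by
  have h1 : (p.2.2 : ℝ) ≠ 0 := by exact_mod_cast hp.ne'
  have h2 : (q.2.2 : ℝ) ≠ 0 := by exact_mod_cast hq.ne'
  simp only [fr, addF]
  push_cast
  field_simp
  ring

theorem leF_iff {p q : ℕ × ℕ × ℕ} (hp : 0 < p.2.2) (hq : 0 < q.2.2) :
    leF p q ↔ fr p ≤ fr q := by
  have h1 : (0 : ℝ) < p.2.2 := by exact_mod_cast hp
  have h2 : (0 : ℝ) < q.2.2 := by exact_mod_cast hq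
  rw [fr, fr, div_le_div_iff₀ h1 h2, leF, ← @Nat.cast_le ℝ]
  push_cast
  constructor
  · intro h
    linarith
  · intro h
    linarith

theorem fr_min {p q : ℕ × ℕ × ℕ} (hp : 0 < p.2.2) (hq : 0 < q.2.2) :
    fr (minF p q) = min (fr p) (fr q) := by
  by_cases h : leF p q
  · rw [minF, if_pos h, min_eq_left ((leF_iff hp hq).1 h)]
  · rw [minF, if_neg h, min_eq_right]
    exact (not_le.1 fun h' => h ((leF_iff hp hq).2 h')).le

/-- The relative mass as a fraction. -/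
def xF (M : ℕ → ℕ → ℕ → ℕ) (n : ℕ) (r : Rec) : ℕ × ℕ × ℕ :=
  if r.d = 0 then (0, 0, 1)
  else (M n (r.Lp + 1) (2 * r.ip + r.s) * 4 ^ r.τ * 2 ^ r.L,
    M r.τ (r.Lp + 1) (2 * r.ip + r.s) * 4 ^ n * 2 ^ r.L, 4 ^ n * 4 ^ r.τ * 2 ^ (r.Lp + 1))

theorem xF_pos (M : ℕ → ℕ → ℕ → ℕ) (n : ℕ) (r : Rec) : 0 < (xF M n r).2.2 := by
  unfold xF
  split_ifs
  · norm_num
  · positivity

theorem fr_xF (M : ℕ → ℕ → ℕ → ℕ) (n : ℕ) (r : Rec) : fr (xF M n r) = xr (mu M) n r := by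
  unfold xF xr
  split_ifs with h
  · simp [fr]
  · simp only [fr, mu]
    push_cast
    field_simp

/-- `Phi` as a fraction. -/
def PhiF (M : ℕ → ℕ → ℕ → ℕ) (n : ℕ) : Tr → ℕ × ℕ × ℕ
  | .leaf r => xF M n r
  | .node r l t => addF (xF M n r) (minF (PhiF M n l) (PhiF M n t))

theorem PhiF_pos (M : ℕ → ℕ → ℕ → ℕ) (n : ℕ) (t : Tr) : 0 < (PhiF M n t).2.2 := by
  induction t with
  | leaf r => exact xF_pos M n r
  | node r l t hl ht =>
    have h : 0 < (minF (PhiF M n l) (PhiF M n t)).2.2 := by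
      unfold minF
      split_ifs
      · exact hl
      · exact ht
    exact Nat.mul_pos (xF_pos M n r) h

theorem fr_PhiF (M : ℕ → ℕ → ℕ → ℕ) (n : ℕ) (t : Tr) : fr (PhiF M n t) = Phi (mu M) n t := by
  induction t with
  | leaf r => exact fr_xF M n r
  | node r l t hl ht =>
    have h : 0 < (minF (PhiF M n l) (PhiF M n t)).2.2 := by
      unfold minF
      split_ifs
      · exact PhiF_pos M n l
      · exact PhiF_pos M n t
    rw [PhiF, fr_add (xF_pos M n r) h, fr_min (PhiF_pos M n l) (PhiF_pos M n t), hl, ht, fr_xF]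
    rfl

theorem xF_pr (hM : Primrec fun p : ℕ × ℕ × ℕ => M p.1 p.2.1 p.2.2) {n : α → ℕ} {r : α → Rec}
    (hn : Primrec n) (hr : Primrec r) : Primrec fun x => xF M (n x) (r x) := by
  have h0 : Primrec fun _ : α => 0 := Primrec.const 0
  have h1 : Primrec fun _ : α => 1 := Primrec.const 1
  have h2 : Primrec fun _ : α => 2 := Primrec.const 2
  have h4 : Primrec fun _ : α => 4 := Primrec.const 4
  have kd := d_pr.comp hr
  have kL := L_pr.comp hr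
  have kt := tau_pr.comp hr
  have kLp := add_pr (Lp_pr.comp hr) h1
  have ki := add_pr (mul_pr h2 (ip_pr.comp hr)) (s_pr.comp hr)
  unfold xF
  refine ite_pr (eq_pr kd h0) (Primrec.const (0, 0, 1)) ?_
  exact (mul_pr (mul_pr (M_pr hM hn kLp ki) (pow_pr h4 kt)) (pow_pr h2 kL)).pair
    ((mul_pr (mul_pr (M_pr hM kt kLp ki) (pow_pr h4 hn)) (pow_pr h2 kL)).pair
    (mul_pr (mul_pr (pow_pr h4 hn) (pow_pr h4 kt)) (pow_pr h2 kLp)))

theorem addF_pr {f g : α → ℕ × ℕ × ℕ} (hf : Primrec f) (hg : Primrec g) :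
    Primrec fun x => addF (f x) (g x) := by
  have f1 := hd_pr hf
  have f2 := hd_pr (tl_pr hf)
  have f3 := tl_pr (tl_pr hf)
  have g1 := hd_pr hg
  have g2 := hd_pr (tl_pr hg)
  have g3 := tl_pr (tl_pr hg)
  unfold addF
  exact (add_pr (mul_pr f1 g3) (mul_pr g1 f3)).pair
    ((add_pr (mul_pr f2 g3) (mul_pr g2 f3)).pair (mul_pr f3 g3))

theorem leF_pr {f g : α → ℕ × ℕ × ℕ} (hf : Primrec f) (hg : Primrec g) :
    PrimrecPred fun x => leF (f x) (g x) := by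
  have f1 := hd_pr hf
  have f2 := hd_pr (tl_pr hf)
  have f3 := tl_pr (tl_pr hf)
  have g1 := hd_pr hg
  have g2 := hd_pr (tl_pr hg)
  have g3 := tl_pr (tl_pr hg)
  unfold leF
  exact le_pr (add_pr (mul_pr f1 g3) (mul_pr g2 f3)) (add_pr (mul_pr g1 f3) (mul_pr f2 g3))

theorem minF_pr {f g : α → ℕ × ℕ × ℕ} (hf : Primrec f) (hg : Primrec g) :
    Primrec fun x => minF (f x) (g x) := by
  unfold minF
  exact ite_pr (leF_pr hf hg) hf hg

theorem PhiF_pr2 (hM : Primrec fun p : ℕ × ℕ × ℕ => M p.1 p.2.1 p.2.2) :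
    Primrec₂ fun (n : ℕ) (t : Tr) => PhiF M n t := by
  have g : Primrec₂ fun (n : ℕ) (r : Rec) => xF M n r := xF_pr hM Primrec.fst Primrec.snd
  have s1 : Primrec fun x : ℕ × Rec × Tr × Tr × (ℕ × ℕ × ℕ) × (ℕ × ℕ × ℕ) => x.2.1 :=
    hd_pr Primrec.snd
  have s2 : Primrec fun x : ℕ × Rec × Tr × Tr × (ℕ × ℕ × ℕ) × (ℕ × ℕ × ℕ) => x.2.2.2.2 :=
    tl_pr (tl_pr (tl_pr Primrec.snd))
  have h : Primrec₂ fun (n : ℕ) (q : Rec × Tr × Tr × (ℕ × ℕ × ℕ) × (ℕ × ℕ × ℕ)) =>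
      addF (xF M n q.1) (minF q.2.2.2.1 q.2.2.2.2) :=
    addF_pr (xF_pr hM Primrec.fst s1) (minF_pr (hd_pr s2) (tl_pr s2))
  exact tr_rec g h (fun _ _ => rfl) (fun _ _ _ _ => rfl)

theorem PhiF_pr (hM : Primrec fun p : ℕ × ℕ × ℕ => M p.1 p.2.1 p.2.2) {n : α → ℕ} {t : α → Tr}
    (hn : Primrec n) (ht : Primrec t) : Primrec fun x => PhiF M (n x) (t x) :=
  (PhiF_pr2 hM).comp hn ht

theorem PhiLe_pr (hM : Primrec fun p : ℕ × ℕ × ℕ => M p.1 p.2.1 p.2.2) {n : α → ℕ}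
    {t u : α → Tr} (hn : Primrec n) (ht : Primrec t) (hu : Primrec u) :
    PrimrecPred fun x => Phi (mu M) (n x) (t x) ≤ Phi (mu M) (n x) (u x) :=
  (leF_pr (PhiF_pr hM hn ht) (PhiF_pr hM hn hu)).of_eq fun x => by
    rw [leF_iff (PhiF_pos M _ _) (PhiF_pos M _ _), fr_PhiF, fr_PhiF]

theorem PhiOne_pr (hM : Primrec fun p : ℕ × ℕ × ℕ => M p.1 p.2.1 p.2.2) {n : α → ℕ}
    {t : α → Tr} (hn : Primrec n) (ht : Primrec t) :
    PrimrecPred fun x => Phi (mu M) (n x) (t x) ≤ 1 :=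
  (leF_pr (PhiF_pr hM hn ht) (Primrec.const (1, 0, 1))).of_eq fun x => by
    rw [leF_iff (PhiF_pos M _ _) (by norm_num), fr_PhiF]
    simp [fr]

end

end Cp
end OWD
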