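import Mathlib

/-!
Definitions for MP_9d9f9c_lc (Oberwolfach randomness versus density randomness).
-/

open MeasureTheory Set Filter Topology

namespace OWD

/-- The fair coin measure on Cantor space: the product of the uniform measures on the two bits. -/
noncomputable def cantor : Measure (ℕ → Bool) :=
  Measure.infinitePi (fun _ => (PMF.uniformOfFintype Bool).toMeasure)

/-- The initial segment of length `n` of `Z`, as a list of bits. -/
def pre (Z : ℕ → Bool) (n : ℕ) : List Bool := (List.range n).map Z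

/-- A uniformly effectively open sequence of subsets of Cantor space: there is a recursively
enumerable set `W` of pairs (index, finite string) such that `G m` is the set of all sequences
having an initial segment `σ` with `(m, σ)` in `W`. -/
def UnifSigma (G : ℕ → Set (ℕ → Bool)) : Prop :=
  ∃ W : ℕ × List Bool → Prop, REPred W ∧ ∀ m, G m = {Z | ∃ n, W (m, pre Z n)}

/-- Martin-Loef randomness in Cantor space. -/
def MLRandom (Z : ℕ → Bool) : Prop :=
  ∀ G : ℕ → Set (ℕ → Bool), UnifSigma G → (∀ k, cantor (G k) ≤ (2⁻¹ : ENNReal) ^ k) →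
    Z ∉ ⋂ k, G k

/-- The rational number coded by a triple: every rational number is of this form. -/
def rat (p : ℕ × ℕ × ℕ) : ℚ := ((p.1 : ℚ) - p.2.1) / (p.2.2 + 1)

/-- A left-c.e. test: a descending uniformly effectively open sequence `G`, and a computable
nondecreasing sequence `β` of rational numbers with supremum `b`, such that the measure of `G m` is
at most a constant times `b - β m`. -/
def LeftCETest (G : ℕ → Set (ℕ → Bool)) : Prop :=
  UnifSigma G ∧ (∀ m, G (m + 1) ⊆ G m) ∧
    ∃ (β : ℕ → ℚ) (b : ℝ), (∃ f : ℕ → ℕ × ℕ × ℕ, Computable f ∧ ∀ s, β s = rat (f s)) ∧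
      Monotone β ∧ IsLUB (range fun s => (β s : ℝ)) b ∧
      ∃ c : ℝ, ∀ m, cantor (G m) ≤ ENNReal.ofReal (c * (b - β m))

/-- Oberwolfach randomness in Cantor space. -/
def OWRandom (Z : ℕ → Bool) : Prop :=
  ∀ G : ℕ → Set (ℕ → Bool), LeftCETest G → Z ∉ ⋂ m, G m

/-- The real number with binary expansion `Z`. -/
noncomputable def binval (Z : ℕ → Bool) : ℝ :=
  ∑' k : ℕ, (if Z k then (1 : ℝ) else 0) / 2 ^ (k + 1)

/-- An effectively open subset of the real line: the union of a recursively enumerable family of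
open intervals with rational endpoints. -/
def EffOpen (U : Set ℝ) : Prop :=
  ∃ W : (ℕ × ℕ × ℕ) × (ℕ × ℕ × ℕ) → Prop, REPred W ∧
    U = ⋃ p ∈ {p | W p}, Ioo ((rat p.1 : ℚ) : ℝ) ((rat p.2 : ℚ) : ℝ)

/-- An effectively closed subset of `[0,1]`. -/
def EffClosed (C : Set ℝ) : Prop :=
  ∃ U : Set ℝ, EffOpen U ∧ C = Icc 0 1 \ U

/-- The lower Lebesgue density of `C` at `z`: the limes inferior of `λ(Q ∩ C) / |Q|` over the open
intervals `Q = (a, b)` containing `z`, as `|Q| = b - a` tends to `0`. -/
noncomputable def lowerDensity (C : Set ℝ) (z : ℝ) : ℝ :=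
  liminf (fun p : ℝ × ℝ => (volume (Ioo p.1 p.2 ∩ C)).toReal / (p.2 - p.1))
    (comap (fun p : ℝ × ℝ => p.2 - p.1) (𝓝 0) ⊓ 𝓟 {p : ℝ × ℝ | p.1 < z ∧ z < p.2})

/-- A real number is Martin-Loef random if it has a Martin-Loef random binary expansion. -/
def MLRandomReal (z : ℝ) : Prop := ∃ Z, binval Z = z ∧ MLRandom Z

/-- Density randomness of a real number. -/
def DensityRandom (z : ℝ) : Prop :=
  MLRandomReal z ∧ ∀ C : Set ℝ, EffClosed C → z ∈ C → lowerDensity C z = 1

/-- A real number is OW-random if it has an OW-random binary expansion. -/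
def OWRandomReal (z : ℝ) : Prop := ∃ Z, binval Z = z ∧ OWRandom Z

end OWD
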