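import Pool.Agent.H22.OW.Defs

/-!
MP_9d9f9c_lc, OW-F1 (helper94): lower density one from smallness of the complement near the point.
-/

open MeasureTheory Set Filter Topology

namespace OWD

namespace DensOne

/-- The filter in the definition of the lower density. -/
def shrink (z : ℝ) : Filter (ℝ × ℝ) :=
  comap (fun p : ℝ × ℝ => p.2 - p.1) (𝓝 0) ⊓ 𝓟 {p : ℝ × ℝ | p.1 < z ∧ z < p.2}

lemma shrink_neBot (z : ℝ) : (shrink z).NeBot := by
  have h : Tendsto (fun t : ℝ => (z - t, z + t)) (𝓝[>] 0) (shrink z) := by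
    unfold shrink
    rw [tendsto_inf, tendsto_comap_iff, tendsto_principal]
    constructor
    · have h1 : Tendsto (fun t : ℝ => (z + t) - (z - t)) (𝓝[>] 0) (𝓝 ((z + 0) - (z - 0))) := by
        apply Tendsto.mono_left _ nhdsWithin_le_nhds
        apply Continuous.tendsto
        fun_prop
      have h2 : (z + 0) - (z - 0) = 0 := by ring
      rw [h2] at h1
      exact h1
    · filter_upwards [self_mem_nhdsWithin] with t ht
      have ht' : 0 < t := ht
      exact ⟨by show z - t < z; linarith, by show z < z + t; linarith⟩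
  exact h.neBot

lemma eventually_shrink {z : ℝ} {P : ℝ × ℝ → Prop} {δ : ℝ} (hδ : 0 < δ)
    (h : ∀ a b : ℝ, a < z → z < b → b - a < δ → P (a, b)) : ∀ᶠ p in shrink z, P p := by
  unfold shrink
  rw [eventually_inf_principal]
  have h1 : ∀ᶠ x : ℝ in 𝓝 0, x < δ := Iio_mem_nhds hδ
  filter_upwards [h1.comap (fun p : ℝ × ℝ => p.2 - p.1)] with p hp hz
  exact h p.1 p.2 hz.1 hz.2 hp

end DensOne

open DensOne in
/-- OW-F1: if, near `z`, the complement of `C` is contained in `U'` up to dyadic rationals, and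
`U'` has density `0` at `z`, then `C` has lower density `1` at `z`. -/
theorem lowerDensity_eq_one {C U' : Set ℝ} {z : ℝ} (hz0 : 0 < z) (hz1 : z < 1)
    (hC : ∀ x ∈ Ioo (0 : ℝ) 1, x ∉ C → x ∈ U' ∨ ∃ L i : ℕ, x = (i : ℝ) / 2 ^ L)
    (hd : ∀ ε : ℝ, 0 < ε → ∃ δ : ℝ, 0 < δ ∧ ∀ a b : ℝ, a < z → z < b → b - a < δ →
      (volume (Ioo a b ∩ U')).toReal ≤ ε * (b - a)) : lowerDensity C z = 1 := by
  have hnb := shrink_neBot z
  have hD0 : volume {x : ℝ | ∃ L i : ℕ, x = (i : ℝ) / 2 ^ L} = 0 := by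
    have hc : {x : ℝ | ∃ L i : ℕ, x = (i : ℝ) / 2 ^ L}.Countable := by
      have h1 : {x : ℝ | ∃ L i : ℕ, x = (i : ℝ) / 2 ^ L} ⊆
          range (fun p : ℕ × ℕ => (p.2 : ℝ) / 2 ^ p.1) := by
        rintro x ⟨L, i, rfl⟩
        exact ⟨(L, i), rfl⟩
      exact (countable_range _).mono h1
    exact hc.measure_zero _
  have hfin : ∀ (a b : ℝ) (S : Set ℝ), volume (Ioo a b ∩ S) ≠ ⊤ := by
    intro a b S
    refine ne_top_of_le_ne_top ?_ (measure_mono inter_subset_left)
    rw [Real.volume_Ioo]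
    exact ENNReal.ofReal_ne_top
  have hup : ∀ (a b : ℝ), a < b → (volume (Ioo a b ∩ C)).toReal ≤ b - a := by
    intro a b hab
    have h1 : volume (Ioo a b ∩ C) ≤ ENNReal.ofReal (b - a) := by
      rw [← Real.volume_Ioo]
      exact measure_mono inter_subset_left
    have h2 := ENNReal.toReal_mono ENNReal.ofReal_ne_top h1
    rwa [ENNReal.toReal_ofReal (by linarith)] at h2
  have hlow : ∀ (a b : ℝ), a < b → 0 ≤ a → b ≤ 1 →
      b - a ≤ (volume (Ioo a b ∩ C)).toReal + (volume (Ioo a b ∩ U')).toReal := by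
    intro a b hab ha hb
    have h1 : Ioo a b ⊆ (Ioo a b ∩ C) ∪ ((Ioo a b ∩ U') ∪
        {x : ℝ | ∃ L i : ℕ, x = (i : ℝ) / 2 ^ L}) := by
      intro x hx
      by_cases hxC : x ∈ C
      · exact Or.inl ⟨hx, hxC⟩
      · have hx01 : x ∈ Ioo (0 : ℝ) 1 := ⟨lt_of_le_of_lt ha hx.1, lt_of_lt_of_le hx.2 hb⟩
        rcases hC x hx01 hxC with h | h
        · exact Or.inr (Or.inl ⟨hx, h⟩)
        · exact Or.inr (Or.inr h)
    have h2 : volume (Ioo a b) ≤ volume (Ioo a b ∩ C) + volume (Ioo a b ∩ U') := by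
      calc volume (Ioo a b) ≤ volume ((Ioo a b ∩ C) ∪ ((Ioo a b ∩ U') ∪
            {x : ℝ | ∃ L i : ℕ, x = (i : ℝ) / 2 ^ L})) := measure_mono h1
        _ ≤ volume (Ioo a b ∩ C) + volume ((Ioo a b ∩ U') ∪
            {x : ℝ | ∃ L i : ℕ, x = (i : ℝ) / 2 ^ L}) := measure_union_le _ _
        _ ≤ volume (Ioo a b ∩ C) + (volume (Ioo a b ∩ U') +
            volume {x : ℝ | ∃ L i : ℕ, x = (i : ℝ) / 2 ^ L}) := by
          gcongr
          exact measure_union_le _ _
        _ = volume (Ioo a b ∩ C) + volume (Ioo a b ∩ U') := by rw [hD0, add_zero]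
    have h3 := ENNReal.toReal_mono (ENNReal.add_ne_top.2 ⟨hfin a b C, hfin a b U'⟩) h2
    rw [ENNReal.toReal_add (hfin a b C) (hfin a b U'), Real.volume_Ioo,
      ENNReal.toReal_ofReal (by linarith)] at h3
    exact h3
  have ht : Tendsto (fun p : ℝ × ℝ => (volume (Ioo p.1 p.2 ∩ C)).toReal / (p.2 - p.1))
      (shrink z) (𝓝 1) := by
    rw [Metric.tendsto_nhds]
    intro ε hε
    obtain ⟨δ, hδ, hδd⟩ := hd (ε / 2) (by linarith)
    refine eventually_shrink (z := z) (δ := min δ (min z (1 - z)))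
      (lt_min hδ (lt_min hz0 (by linarith))) ?_
    intro a b ha hb hab
    have hab1 : b - a < δ := lt_of_lt_of_le hab (min_le_left _ _)
    have hab2 : b - a < z := lt_of_lt_of_le hab ((min_le_right _ _).trans (min_le_left _ _))
    have hab3 : b - a < 1 - z := lt_of_lt_of_le hab ((min_le_right _ _).trans (min_le_right _ _))
    have hpos : 0 < b - a := by linarith
    have h1 := hup a b (by linarith)
    have h2 := hlow a b (by linarith) (by linarith) (by linarith)
    have h3 := hδd a b ha hb hab1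
    have h4 : (volume (Ioo a b ∩ C)).toReal / (b - a) ≤ 1 := by
      rw [div_le_one hpos]; exact h1
    have h5 : 1 - ε / 2 ≤ (volume (Ioo a b ∩ C)).toReal / (b - a) := by
      rw [le_div_iff₀ hpos]
      nlinarith
    rw [Real.dist_eq, abs_lt]
    constructor <;> linarith
  exact ht.liminf_eq

end OWD
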