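import Pool.Agent.H22.OW.Fam

/-!
MP_9d9f9c_lc: the analysis at the limit point of the final path (OW-T6, helper53).
-/

open MeasureTheory Set Filter Topology

namespace OWD

namespace Den

variable {μ : ℕ → ℕ → ℕ → ℝ}

lemma mono_le (hμ : Adv μ) {m n : ℕ} (h : m ≤ n) (L i : ℕ) : μ m L i ≤ μ n L i := by
  induction h with
  | refl => exact le_rfl
  | step _ ih => exact ih.trans (hμ.mono _ _ _)

lemma split_pow (hμ : Adv μ) (n k : ℕ) : ∀ L i,
    μ n L i = ∑ l ∈ Finset.range (2 ^ k), μ n (L + k) (i * 2 ^ k + l) := by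
  induction k with
  | zero => intro L i; simp
  | succ k ih =>
    intro L i
    rw [hμ.split, ih (L + 1) (2 * i), ih (L + 1) (2 * i + 1), pow_succ, mul_two,
      Finset.sum_range_add]
    congr 1
    · refine Finset.sum_congr rfl fun l _ => ?_
      congr 1 <;> ring
    · refine Finset.sum_congr rfl fun l _ => ?_
      congr 1 <;> ring

/-- the mass added to distinct subcells is at most the mass added to the cell -/
lemma sum_sub_le (hμ : Adv μ) {m n : ℕ} (hmn : m ≤ n) {L L' i : ℕ} (hL : L ≤ L')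
    (A : Finset ℕ) (hA : ∀ k ∈ A, k / 2 ^ (L' - L) = i) :
    ∑ k ∈ A, (μ n L' k - μ m L' k) ≤ μ n L i - μ m L i := by
  obtain ⟨p, rfl⟩ := Nat.exists_eq_add_of_le hL
  simp only [Nat.add_sub_cancel_left] at hA
  rw [split_pow hμ n p L i, split_pow hμ m p L i, ← Finset.sum_sub_distrib]
  have h1 : ∑ l ∈ Finset.range (2 ^ p), (μ n (L + p) (i * 2 ^ p + l) - μ m (L + p) (i * 2 ^ p + l))
      = ∑ k ∈ (Finset.range (2 ^ p)).image (fun l => i * 2 ^ p + l),
        (μ n (L + p) k - μ m (L + p) k) := by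
    rw [Finset.sum_image]
    intro a _ b _ hab
    simpa using hab
  rw [h1]
  refine Finset.sum_le_sum_of_subset_of_nonneg ?_ ?_
  · intro k hk
    rw [Finset.mem_image]
    have h2 := hA k hk
    have h3 : 0 < 2 ^ p := by positivity
    refine ⟨k % 2 ^ p, Finset.mem_range.2 (Nat.mod_lt _ h3), ?_⟩
    rw [← h2, mul_comm]
    exact Nat.div_add_mod k _
  · intro k _ _
    have := mono_le hμ hmn (L + p) k
    linarith

lemma sub_le (hμ : Adv μ) {m n : ℕ} (hmn : m ≤ n) {L L' i k : ℕ} (hL : L ≤ L')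
    (hk : k / 2 ^ (L' - L) = i) : μ n L' k - μ m L' k ≤ μ n L i - μ m L i := by
  have := sum_sub_le hμ hmn hL {k} (by simpa using hk)
  simpa using this

lemma sub_nonneg' (hμ : Adv μ) {m n : ℕ} (hmn : m ≤ n) (L i : ℕ) : 0 ≤ μ n L i - μ m L i := by
  have := mono_le hμ hmn L i
  linarith

/-! ### cells -/

lemma mem_cell {L i : ℕ} {z : ℝ} : z ∈ cellSet L i ↔ (i : ℝ) ≤ z * 2 ^ L ∧ z * 2 ^ L < i + 1 := by
  unfold cellSet
  rw [mem_Ico, div_le_iff₀ (by positivity), lt_div_iff₀ (by positivity)]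

lemma mem_ocell {L i : ℕ} {z : ℝ} : z ∈ Ioo ((i : ℝ) / 2 ^ L) (((i : ℝ) + 1) / 2 ^ L) ↔
    (i : ℝ) < z * 2 ^ L ∧ z * 2 ^ L < i + 1 := by
  rw [mem_Ioo, div_lt_iff₀ (by positivity), lt_div_iff₀ (by positivity)]

lemma cell_up {L L' k : ℕ} (h : L ≤ L') {z : ℝ} (hz : z ∈ cellSet L' k) :
    z ∈ cellSet L (k / 2 ^ (L' - L)) := by
  obtain ⟨m, rfl⟩ := Nat.exists_eq_add_of_le h
  simp only [mem_cell, Nat.add_sub_cancel_left] at hz ⊢
  have h3 : (0 : ℝ) < 2 ^ m := by positivity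
  have h3' : 0 < 2 ^ m := by positivity
  have h4 : k / 2 ^ m * 2 ^ m ≤ k := Nat.div_mul_le_self k _
  have h5 : k + 1 ≤ k / 2 ^ m * 2 ^ m + 2 ^ m := Nat.lt_div_mul_add h3'
  have h4' : ((k / 2 ^ m : ℕ) : ℝ) * 2 ^ m ≤ k := by exact_mod_cast h4
  have h5' : (k : ℝ) + 1 ≤ ((k / 2 ^ m : ℕ) : ℝ) * 2 ^ m + 2 ^ m := by exact_mod_cast h5
  rw [pow_add] at hz
  constructor
  · have : ((k / 2 ^ m : ℕ) : ℝ) * 2 ^ m ≤ z * 2 ^ L * 2 ^ m := by nlinarith [hz.1]
    exact le_of_mul_le_mul_right this h3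
  · have : z * 2 ^ L * 2 ^ m < (((k / 2 ^ m : ℕ) : ℝ) + 1) * 2 ^ m := by nlinarith [hz.2]
    exact lt_of_mul_lt_mul_right this h3.le

lemma cell_unique {L i i' : ℕ} {z : ℝ} (h : z ∈ cellSet L i) (h' : z ∈ cellSet L i') :
    i = i' := by
  rw [mem_cell] at h h'
  have h1 : (i : ℝ) < i' + 1 := by linarith [h.1, h'.2]
  have h2 : (i' : ℝ) < i + 1 := by linarith [h.2, h'.1]
  have h3 : i < i' + 1 := by exact_mod_cast h1
  have h4 : i' < i + 1 := by exact_mod_cast h2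
  omega

/-- the subcells of a cell of the family are in the family -/
lemma up_iter {W : ℕ → ℕ → Prop} (hup : ∀ n i, W n i → W (n + 1) (2 * i) ∧ W (n + 1) (2 * i + 1))
    {n n' k : ℕ} (h : n ≤ n') (hW : W n (k / 2 ^ (n' - n))) : W n' k := by
  obtain ⟨p, rfl⟩ := Nat.exists_eq_add_of_le h
  simp only [Nat.add_sub_cancel_left] at hW
  induction p generalizing k with
  | zero => simpa using hW
  | succ p ih =>
    have h1 : W (n + p) (k / 2) := by
      apply ih (by omega)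
      rw [Nat.div_div_eq_div_mul, ← pow_succ']
      exact hW
    have h2 := hup _ _ h1
    rcases Nat.even_or_odd' k with ⟨q, hq | hq⟩
    · have : k / 2 = q := by omega
      rw [this] at h2
      rw [hq]; exact h2.1
    · have : k / 2 = q := by omega
      rw [this] at h2
      rw [hq]; exact h2.2

lemma Wset_mono {W : ℕ → ℕ → Prop} (hup : ∀ n i, W n i → W (n + 1) (2 * i) ∧ W (n + 1) (2 * i + 1))
    {n n' : ℕ} (h : n ≤ n') {z : ℝ} (hz0 : 0 ≤ z) (hz : z ∈ Wset W n) : z ∈ Wset W n' := by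
  simp only [Wset, mem_iUnion, mem_ofPred_eq, exists_prop] at hz ⊢
  obtain ⟨i, hi, hzi⟩ := hz
  have hz' : z ∈ cellSet n' ⌊z * 2 ^ n'⌋₊ := by
    rw [mem_cell]
    exact ⟨Nat.floor_le (by positivity), Nat.lt_floor_add_one _⟩
  have h1 := cell_up h hz'
  have h2 := cell_unique hzi h1
  refine ⟨_, up_iter hup h ?_, hz'⟩
  rw [← h2]; exact hi

lemma Wset_nonneg {W : ℕ → ℕ → Prop} {n : ℕ} {z : ℝ} (hz : z ∈ Wset W n) : 0 ≤ z := by
  simp only [Wset, mem_iUnion, mem_ofPred_eq, exists_prop] at hz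
  obtain ⟨i, _, hzi⟩ := hz
  rw [mem_cell] at hzi
  by_contra h
  push Not at h
  have : z * 2 ^ n < 0 := mul_neg_of_neg_of_pos h (by positivity)
  have h3 : (0 : ℝ) ≤ i := by positivity
  linarith [hzi.1]

lemma cellSet_meas (L i : ℕ) : MeasurableSet (cellSet L i) := measurableSet_Ico

lemma Wset_meas (W : ℕ → ℕ → Prop) (n : ℕ) : MeasurableSet (Wset W n) :=
  MeasurableSet.biUnion (Set.to_countable _) fun i _ => cellSet_meas n i

lemma vol_cell (L i : ℕ) : (volume (cellSet L i)).toReal = 1 / 2 ^ L := by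
  unfold cellSet
  rw [Real.volume_Ico, ENNReal.toReal_ofReal]
  · ring
  · rw [← sub_div]; simp


/-! ### the final path -/

variable {r : ℕ → Rec}

lemma L_ge (hr : FinalPath μ r) (j : ℕ) : 4 * j ≤ (r j).L := by
  induction j with
  | zero => simp
  | succ j ih => have := (hr.ch j).LL; omega

lemma L0 (hr : FinalPath μ r) : (r 0).L = 0 := by rw [hr.zero]; rfl
lemma i0 (hr : FinalPath μ r) : (r 0).i = 0 := by rw [hr.zero]; rfl
lemma t0 (hr : FinalPath μ r) : (r 0).τ = 0 := by rw [hr.zero]; rfl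

lemma mid (hr : FinalPath μ r) (j : ℕ) :
    (8 * (r j).i + 4 * (r (j + 1)).s + 1) * 2 ^ ((r (j + 1)).L - (r j).L - 3) ≤ (r (j + 1)).i ∧
    (r (j + 1)).i < (8 * (r j).i + 4 * (r (j + 1)).s + 3) *
      2 ^ ((r (j + 1)).L - (r j).L - 3) := (hr.loc j).1

lemma good1 (hr : FinalPath μ r) (j : ℕ) :
    Good μ (r (j + 1)).τ (r j).τ (r (j + 1)).L (r (j + 1)).i (r j).L (r j).i := (hr.loc j).2.1

lemma good2 (hr : FinalPath μ r) (j : ℕ) :
    Good μ (r (j + 1)).τ (r j).τ (r (j + 1 + 1)).L (r (j + 1 + 1)).i (r (j + 1)).L (r (j + 1)).i := by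
  have := (hr.loc (j + 1)).2.2
  rw [(hr.ch j).τp] at this
  exact this

lemma div1 (hr : FinalPath μ r) (j : ℕ) :
    (r (j + 1)).i / 2 ^ ((r (j + 1)).L - (r j).L) = (r j).i := by
  have h1 := mid hr j
  have h2 := (hr.ch j).LL
  have h3 := (hr.ch j).s
  have h4 : 2 ^ ((r (j + 1)).L - (r j).L) = 8 * 2 ^ ((r (j + 1)).L - (r j).L - 3) := by
    rw [← show (r (j + 1)).L - (r j).L - 3 + 3 = (r (j + 1)).L - (r j).L by omega, pow_add]
    simp only [Nat.add_sub_cancel]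
    ring
  have h5 : 0 < 2 ^ ((r (j + 1)).L - (r j).L - 3) := by positivity
  rw [h4]
  generalize 2 ^ ((r (j + 1)).L - (r j).L - 3) = P at *
  have h6 : (r (j + 1)).s ≤ 1 := by omega
  apply Nat.div_eq_of_lt_le
  · nlinarith [h1.1]
  · nlinarith [h1.2]

lemma div2 (hr : FinalPath μ r) (j : ℕ) :
    (r (j + 1)).i / 2 ^ ((r (j + 1)).L - ((r j).L + 1)) = 2 * (r j).i + (r (j + 1)).s := by
  have h1 := mid hr j
  have h2 := (hr.ch j).LL
  have h4 : 2 ^ ((r (j + 1)).L - ((r j).L + 1)) = 4 * 2 ^ ((r (j + 1)).L - (r j).L - 3) := by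
    rw [← show (r (j + 1)).L - (r j).L - 3 + 2 = (r (j + 1)).L - ((r j).L + 1) by omega, pow_add]
    ring
  have h5 : 0 < 2 ^ ((r (j + 1)).L - (r j).L - 3) := by positivity
  rw [h4]
  generalize 2 ^ ((r (j + 1)).L - (r j).L - 3) = P at *
  apply Nat.div_eq_of_lt_le
  · nlinarith [h1.1]
  · nlinarith [h1.2]

/-- the cell of the child is in the middle half of the slot -/
lemma mid_z (hr : FinalPath μ r) (j : ℕ) {z : ℝ}
    (hz : ((r (j + 1)).i : ℝ) ≤ z * 2 ^ (r (j + 1)).L ∧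
      z * 2 ^ (r (j + 1)).L ≤ (r (j + 1)).i + 1) :
    8 * ((r j).i : ℝ) + 4 * (r (j + 1)).s + 1 ≤ z * 2 ^ (r j).L * 8 ∧
    z * 2 ^ (r j).L * 8 ≤ 8 * ((r j).i : ℝ) + 4 * (r (j + 1)).s + 3 := by
  have h1 := mid hr j
  have h2 := (hr.ch j).LL
  have h4 : (2 : ℝ) ^ (r (j + 1)).L = 2 ^ (r j).L * 8 * 2 ^ ((r (j + 1)).L - (r j).L - 3) := by
    rw [show (2 : ℝ) ^ (r (j + 1)).L = 2 ^ ((r j).L + 3 + ((r (j + 1)).L - (r j).L - 3)) by
      congr 1; omega, pow_add, pow_add]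
    norm_num
  have h5 : (0 : ℝ) < 2 ^ ((r (j + 1)).L - (r j).L - 3) := by positivity
  have h6 : ((8 * ((r j).i : ℝ) + 4 * (r (j + 1)).s + 1)) * 2 ^ ((r (j + 1)).L - (r j).L - 3)
      ≤ (r (j + 1)).i := by exact_mod_cast h1.1
  have h7 : ((r (j + 1)).i : ℝ) + 1 ≤
      (8 * ((r j).i : ℝ) + 4 * (r (j + 1)).s + 3) * 2 ^ ((r (j + 1)).L - (r j).L - 3) := by
    exact_mod_cast h1.2
  rw [h4] at hz
  generalize (2 : ℝ) ^ ((r (j + 1)).L - (r j).L - 3) = P at *
  constructor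
  · refine le_of_mul_le_mul_right ?_ h5
    nlinarith [hz.1]
  · refine le_of_mul_le_mul_right ?_ h5
    nlinarith [hz.2]

lemma s_le (hr : FinalPath μ r) (j : ℕ) : ((r (j + 1)).s : ℝ) ≤ 1 := by
  rcases (hr.ch j).s with h | h <;> rw [h] <;> norm_num

lemma tau_mono (hr : FinalPath μ r) : Monotone fun j => (r j).τ :=
  monotone_nat_of_le_succ fun j => (hr.ch j).ττ

lemma xr_succ (hr : FinalPath μ r) (n j : ℕ) : xr μ n (r (j + 1)) =
    (μ n ((r j).L + 1) (2 * (r j).i + (r (j + 1)).s) -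
      μ (r (j + 1)).τ ((r j).L + 1) (2 * (r j).i + (r (j + 1)).s)) * 2 ^ (r (j + 1)).L := by
  unfold xr
  rw [if_neg (by rw [(hr.ch j).d]; omega), (hr.ch j).Lp, (hr.ch j).ip]

lemma xr_zero (hr : FinalPath μ r) (n : ℕ) : xr μ n (r 0) = 0 := by
  unfold xr
  rw [if_pos (by rw [hr.zero]; rfl)]

lemma xr_mono (hμ : Adv μ) (hr : FinalPath μ r) (j : ℕ) : Monotone fun n => xr μ n (r j) := by
  intro n n' h
  rcases j with _ | j
  · simp only [xr_zero hr, le_refl]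
  · simp only [xr_succ hr]
    have := mono_le hμ h ((r j).L + 1) (2 * (r j).i + (r (j + 1)).s)
    gcongr

lemma xr_nonneg (hμ : Adv μ) (hr : FinalPath μ r) {n j : ℕ} (h : (r j).τ ≤ n) :
    0 ≤ xr μ n (r j) := by
  rcases j with _ | j
  · rw [xr_zero hr]
  · rw [xr_succ hr]
    have := mono_le hμ h ((r j).L + 1) (2 * (r j).i + (r (j + 1)).s)
    have h2 : (0 : ℝ) < 2 ^ (r (j + 1)).L := by positivity
    apply mul_nonneg _ h2.le
    linarith

lemma xr_le_one (hμ : Adv μ) (hr : FinalPath μ r) (n j : ℕ) : xr μ n (r j) ≤ 1 := by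
  set n' := max n (r j).τ with hn'
  have h1 : xr μ n (r j) ≤ xr μ n' (r j) := xr_mono hμ hr j (le_max_left _ _)
  have h2 := hr.sum j n'
  have h3 : xr μ n' (r j) ≤ ∑ i ∈ Finset.range (j + 1), xr μ n' (r i) := by
    apply Finset.single_le_sum (f := fun i => xr μ n' (r i)) _ (Finset.self_mem_range_succ j)
    intro i hi
    apply xr_nonneg hμ hr
    have : (r i).τ ≤ (r j).τ := tau_mono hr (by
      have := Finset.mem_range.1 hi; omega)
    exact this.trans (le_max_right _ _)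
  linarith

lemma xr_small (hμ : Adv μ) (hr : FinalPath μ r) {η : ℝ} (hη : 0 < η) :
    ∃ J, ∀ j, J ≤ j → ∀ n, xr μ n (r j) ≤ η := by
  set X : ℕ → ℝ := fun j => ⨆ n, xr μ n (r j) with hX
  have hb : ∀ j, BddAbove (range fun n => xr μ n (r j)) := by
    intro j
    refine ⟨1, ?_⟩
    rintro _ ⟨n, rfl⟩
    exact xr_le_one hμ hr n j
  have hle : ∀ n j, xr μ n (r j) ≤ X j := fun n j => le_ciSup (hb j) n
  have h0 : ∀ j, 0 ≤ X j := fun j => (xr_nonneg hμ hr le_rfl).trans (hle (r j).τ j)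
  have hs : ∀ j, ∑ i ∈ Finset.range j, X i ≤ 1 := by
    intro j
    have h1 : Tendsto (fun n => ∑ i ∈ Finset.range j, xr μ n (r i)) atTop
        (𝓝 (∑ i ∈ Finset.range j, X i)) :=
      tendsto_finsetSum _ fun i _ => tendsto_atTop_ciSup (xr_mono hμ hr i) (hb i)
    refine le_of_tendsto' h1 fun n => ?_
    rcases j with _ | j
    · simp
    · exact hr.sum j n
  have h2 := (summable_of_sum_range_le h0 hs).tendsto_atTop_zero
  have h3 : ∀ᶠ j in atTop, X j < η := h2.eventually (gt_mem_nhds hη)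
  obtain ⟨J, hJ⟩ := eventually_atTop.1 h3
  exact ⟨J, fun j hj n => (hle n j).trans (hJ j hj).le⟩

lemma mass_slot (hr : FinalPath μ r) (n j : ℕ) :
    μ n ((r j).L + 1) (2 * (r j).i + (r (j + 1)).s) -
      μ (r (j + 1)).τ ((r j).L + 1) (2 * (r j).i + (r (j + 1)).s) =
    xr μ n (r (j + 1)) / 2 ^ (r (j + 1)).L := by
  rw [xr_succ hr, mul_div_assoc, div_self (by positivity), mul_one]

lemma mass_le (hμ : Adv μ) (hr : FinalPath μ r) {n j : ℕ} (h : (r (j + 1)).τ ≤ n) :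
    μ n (r (j + 1)).L (r (j + 1)).i - μ (r (j + 1)).τ (r (j + 1)).L (r (j + 1)).i ≤
      xr μ n (r (j + 1)) / 2 ^ (r (j + 1)).L := by
  rw [← mass_slot hr n j]
  apply sub_le hμ h _ (div2 hr j)
  have := (hr.ch j).LL
  omega

end Den

open Den

/-- OW-T6a: the limit point. -/
theorem exists_point {μ : ℕ → ℕ → ℕ → ℝ} {r : ℕ → Rec} (hr : FinalPath μ r) :
    ∃ z : ℝ, 0 < z ∧ z < 1 ∧ (∀ L i : ℕ, z ≠ (i : ℝ) / 2 ^ L) ∧
      ∀ j, z ∈ Ioo (((r j).i : ℝ) / 2 ^ (r j).L) ((((r j).i : ℝ) + 1) / 2 ^ (r j).L) := by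
  set a : ℕ → ℝ := fun j => ((r j).i : ℝ) / 2 ^ (r j).L with ha
  set b : ℕ → ℝ := fun j => (((r j).i : ℝ) + 1) / 2 ^ (r j).L with hb
  have hab : a ≤ b := by
    intro j
    simp only [ha, hb]
    gcongr
    linarith
  have hma : Monotone a := by
    apply monotone_nat_of_le_succ
    intro j
    have h1 := (mid_z hr j (z := a (j + 1)) (by
      simp only [ha]
      rw [div_mul_cancel₀ _ (by positivity)]
      constructor <;> linarith)).1
    have h2 : (0 : ℝ) ≤ (r (j + 1)).s := by positivity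
    show ((r j).i : ℝ) / 2 ^ (r j).L ≤ a (j + 1)
    rw [div_le_iff₀ (by positivity)]
    linarith
  have hmb : Antitone b := by
    apply antitone_nat_of_succ_le
    intro j
    have h1 := (mid_z hr j (z := b (j + 1)) (by
      simp only [hb]
      rw [div_mul_cancel₀ _ (by positivity)]
      constructor <;> linarith)).2
    have h2 := s_le hr j
    show b (j + 1) ≤ (((r j).i : ℝ) + 1) / 2 ^ (r j).L
    rw [le_div_iff₀ (by positivity)]
    linarith
  have hz := Monotone.ciSup_mem_iInter_Icc_of_antitone hma hmb hab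
  set z := ⨆ n, a n with hzdef
  rw [mem_iInter] at hz
  have hz2 : ∀ j, z ∈ Ioo (((r j).i : ℝ) / 2 ^ (r j).L) ((((r j).i : ℝ) + 1) / 2 ^ (r j).L) := by
    intro j
    rw [mem_ocell]
    have h1 := hz (j + 1)
    rw [mem_Icc, ha, hb] at h1
    simp only at h1
    rw [div_le_iff₀ (by positivity), le_div_iff₀ (by positivity)] at h1
    have h2 := mid_z hr j h1
    have h3 := s_le hr j
    have h4 : (0 : ℝ) ≤ (r (j + 1)).s := by positivity
    constructor <;> linarith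
  refine ⟨z, ?_, ?_, ?_, hz2⟩
  · have := (hz2 0).1
    rw [L0 hr, i0 hr] at this
    simpa using this
  · have := (hz2 0).2
    rw [L0 hr, i0 hr] at this
    simpa using this
  · intro L i h
    have h1 := hz2 L
    rw [mem_ocell] at h1
    have h2 : L ≤ (r L).L := by have := L_ge hr L; omega
    obtain ⟨p, hp⟩ := Nat.exists_eq_add_of_le h2
    rw [hp, h] at h1
    have h3 : (i : ℝ) / 2 ^ L * 2 ^ (L + p) = ((i * 2 ^ p : ℕ) : ℝ) := by
      push_cast
      rw [pow_add]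
      field_simp
    rw [h3] at h1
    have h4 : (r L).i < i * 2 ^ p := by exact_mod_cast h1.1
    have h5 : i * 2 ^ p < (r L).i + 1 := by exact_mod_cast h1.2
    omega


namespace Den

variable {μ : ℕ → ℕ → ℕ → ℝ} {r : ℕ → Rec}

/-- the mass ratio at the cell of the path -/
lemma mass_g1 (hr : FinalPath μ r) (j : ℕ) :
    (2 : ℝ) ^ (r (j + 1)).L *
      (μ (r (j + 1)).τ (r (j + 1)).L (r (j + 1)).i - μ (r j).τ (r (j + 1)).L (r (j + 1)).i) ≤
    32 * (2 ^ (r j).L * (μ (r (j + 1)).τ (r j).L (r j).i - μ (r j).τ (r j).L (r j).i)) := by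
  have h1 := (good1 hr j).1 (r (j + 1)).i (by
    have := div1 hr j
    rw [← this]
    exact Nat.div_mul_le_self _ _) le_rfl
  have h2 := (hr.ch j).LL
  rw [Finset.Icc_self, Finset.sum_singleton] at h1
  have h3 : (2 : ℝ) ^ (r (j + 1)).L = 2 ^ (r j).L * 2 ^ ((r (j + 1)).L - (r j).L) := by
    rw [← pow_add]; congr 1; omega
  rw [h3]
  have h4 : (((r (j + 1)).i + 1 - (r (j + 1)).i : ℕ) : ℝ) = 1 := by
    rw [Nat.add_sub_cancel_left]; simp
  rw [h4] at h1
  have h5 : (0 : ℝ) < 2 ^ (r j).L := by positivity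
  nlinarith [mul_le_mul_of_nonneg_left h1 h5.le]

lemma mass_g2 (hr : FinalPath μ r) (j : ℕ) :
    (2 : ℝ) ^ (r (j + 1 + 1)).L *
      (μ (r (j + 1)).τ (r (j + 1 + 1)).L (r (j + 1 + 1)).i - μ (r j).τ (r (j + 1 + 1)).L (r (j + 1 + 1)).i) ≤
    32 * (2 ^ (r (j + 1)).L *
      (μ (r (j + 1)).τ (r (j + 1)).L (r (j + 1)).i - μ (r j).τ (r (j + 1)).L (r (j + 1)).i)) := by
  have h1 := (good2 hr j).1 (r (j + 1 + 1)).i (by
    have := div1 hr (j + 1)
    rw [← this]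
    exact Nat.div_mul_le_self _ _) le_rfl
  have h2 := (hr.ch (j + 1)).LL
  rw [Finset.Icc_self, Finset.sum_singleton] at h1
  have h3 : (2 : ℝ) ^ (r (j + 1 + 1)).L = 2 ^ (r (j + 1)).L * 2 ^ ((r (j + 1 + 1)).L - (r (j + 1)).L) := by
    rw [← pow_add]; congr 1; omega
  rw [h3]
  have h4 : (((r (j + 1 + 1)).i + 1 - (r (j + 1 + 1)).i : ℕ) : ℝ) = 1 := by
    rw [Nat.add_sub_cancel_left]; simp
  rw [h4] at h1
  have h5 : (0 : ℝ) < 2 ^ (r (j + 1)).L := by positivity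
  nlinarith [mul_le_mul_of_nonneg_left h1 h5.le]

/-- `D_j ≤ 2` in all cases -/
lemma mass_D (hμ : Adv μ) (hr : FinalPath μ r) (j : ℕ) :
    2 ^ (r j).L * (μ (r (j + 1)).τ (r j).L (r j).i - μ (r j).τ (r j).L (r j).i) ≤ 2 := by
  rcases j with _ | j
  · rw [L0 hr, i0 hr]
    have h1 := hμ.total (r (0 + 1)).τ
    have h2 := hμ.nonneg (r 0).τ 0 0
    simp only [pow_zero, one_mul]
    linarith
  · have h1 := mass_le hμ hr (j := j) (hr.ch (j + 1)).ττ
    have h2 := xr_le_one hμ hr (r (j + 1 + 1)).τ (j + 1)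
    have h3 : (0 : ℝ) < 2 ^ (r (j + 1)).L := by positivity
    rw [le_div_iff₀ h3] at h1
    nlinarith

lemma in_cell (z : ℝ) {j : ℕ}
    (hz : z ∈ Ioo (((r j).i : ℝ) / 2 ^ (r j).L) ((((r j).i : ℝ) + 1) / 2 ^ (r j).L)) :
    z ∈ cellSet (r j).L (r j).i := ⟨hz.1.le, hz.2⟩

end Den

open Den

/-- OW-T6b: the limit point avoids the sets with large weight. -/
theorem avoid {μ : ℕ → ℕ → ℕ → ℝ} (hμ : Adv μ) {r : ℕ → Rec} (hr : FinalPath μ r) {z : ℝ}
    (hz : ∀ j, z ∈ Ioo (((r j).i : ℝ) / 2 ^ (r j).L) ((((r j).i : ℝ) + 1) / 2 ^ (r j).L))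
    {W : ℕ → ℕ → Prop} {κ : ℝ} (hW : WFam μ W κ) (hκ : 2048 < κ) (n : ℕ) : z ∉ Wset W n := by
  have key : ∀ j, ¬ W (r j).τ ((r (j + 1)).i / 2 ^ ((r (j + 1)).L - (r j).τ)) := by
    intro j
    induction j with
    | zero => rw [t0 hr]; exact hW.zero _
    | succ j ih =>
      intro hc
      have e1 : (r j).τ ≤ (r (j + 1)).L := (hr.ch j).τL
      have e2 : (r (j + 1)).τ ≤ (r (j + 1 + 1)).L := (hr.ch (j + 1)).τL
      have e3 := (hr.ch (j + 1)).LL
      have e4 := (hr.ch j).ττ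
      have h1 : (r (j + 1 + 1)).i / 2 ^ ((r (j + 1 + 1)).L - (r j).τ) =
          (r (j + 1)).i / 2 ^ ((r (j + 1)).L - (r j).τ) := by
        rw [← div1 hr (j + 1), Nat.div_div_eq_div_mul, ← pow_add]
        congr 2
        omega
      have h2 := hW.mass (r j).τ (r (j + 1)).τ (r (j + 1 + 1)).L (r (j + 1 + 1)).i e4
        (by omega) (by rw [h1]; exact ih)
      have h3 : cellSet (r (j + 1 + 1)).L (r (j + 1 + 1)).i ⊆ Wset W (r (j + 1)).τ := by
        intro y hy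
        have := cell_up e2 hy
        simp only [Wset, mem_iUnion, mem_ofPred_eq, exists_prop]
        exact ⟨_, hc, this⟩
      rw [inter_eq_left.2 h3, vol_cell] at h2
      have h4 := mass_g2 hr j
      have h5 := mass_g1 hr j
      have h6 := mass_D hμ hr j
      have h7 : (0 : ℝ) < 2 ^ (r (j + 1 + 1)).L := by positivity
      have h8 : κ ≤ (2 : ℝ) ^ (r (j + 1 + 1)).L *
        (μ (r (j + 1)).τ (r (j + 1 + 1)).L (r (j + 1 + 1)).i - μ (r j).τ (r (j + 1 + 1)).L (r (j + 1 + 1)).i) := by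
        have := mul_le_mul_of_nonneg_left h2 h7.le
        have h9 : (2 : ℝ) ^ (r (j + 1 + 1)).L * (κ * (1 / 2 ^ (r (j + 1 + 1)).L)) = κ := by
          field_simp
        linarith
      linarith
  intro hn
  have hz0 : 0 ≤ z := Wset_nonneg hn
  have h1 : n ≤ (r (n + 1)).τ := by have := hr.tau (n + 1); omega
  have h2 := Wset_mono hW.up h1 hz0 hn
  simp only [Wset, mem_iUnion, mem_ofPred_eq, exists_prop] at h2
  obtain ⟨k, hk, hzk⟩ := h2
  have h3 := cell_up (hr.ch (n + 1)).τL (in_cell z (hz (n + 1 + 1)))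
  have h4 := cell_unique hzk h3
  exact key (n + 1) (h4 ▸ hk)


namespace Den

variable {μ : ℕ → ℕ → ℕ → ℝ} {r : ℕ → Rec}

/-- sum over a grid interval containing the cell `i` -/
lemma good_sum (hμ : Adv μ) {m n L i Lp ip p q : ℕ} (hg : Good μ n m L i Lp ip) (hmn : m ≤ n)
    (hL : Lp ≤ L) (hp : ip * 2 ^ (L - Lp) ≤ p) (hpi : p ≤ i) (hiq : i ≤ q)
    (hq : q < (ip + 1) * 2 ^ (L - Lp)) :
    (2 : ℝ) ^ L * ∑ k ∈ Finset.Icc p q, (μ n L k - μ m L k) ≤
      32 * ((q : ℝ) + 2 - p) * (2 ^ Lp * (μ n Lp ip - μ m Lp ip)) := by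
  have h1 := hg.1 p hp hpi
  have h2 := hg.2 q hiq hq
  have h3 : ∑ k ∈ Finset.Icc p q, (μ n L k - μ m L k) ≤
      ∑ k ∈ Finset.Icc p i, (μ n L k - μ m L k) + ∑ k ∈ Finset.Icc i q, (μ n L k - μ m L k) := by
    rw [← Finset.sum_union_inter]
    have h4 : Finset.Icc p q ⊆ Finset.Icc p i ∪ Finset.Icc i q := by
      intro k hk
      rw [Finset.mem_union, Finset.mem_Icc, Finset.mem_Icc]
      rw [Finset.mem_Icc] at hk
      omega
    have h5 := Finset.sum_le_sum_of_subset_of_nonneg (f := fun k => μ n L k - μ m L k) h4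
      (fun k _ _ => sub_nonneg' hμ hmn L k)
    have h6 : 0 ≤ ∑ k ∈ Finset.Icc p i ∩ Finset.Icc i q, (μ n L k - μ m L k) :=
      Finset.sum_nonneg fun k _ => sub_nonneg' hμ hmn L k
    linarith
  have e1 : ((i + 1 - p : ℕ) : ℝ) = (i : ℝ) + 1 - p := by
    rw [Nat.cast_sub (by omega)]; push_cast; ring
  have e2 : ((q + 1 - i : ℕ) : ℝ) = (q : ℝ) + 1 - i := by
    rw [Nat.cast_sub (by omega)]; push_cast; ring
  rw [e1] at h1
  rw [e2] at h2
  have e3 : (2 : ℝ) ^ L = 2 ^ Lp * 2 ^ (L - Lp) := by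
    rw [← pow_add]; congr 1; omega
  have h4 : (2 : ℝ) ^ (L - Lp) * ∑ k ∈ Finset.Icc p q, (μ n L k - μ m L k) ≤
      32 * ((q : ℝ) + 2 - p) * (μ n Lp ip - μ m Lp ip) := by
    have h5 : (0 : ℝ) < 2 ^ (L - Lp) := by positivity
    have h6 := mul_le_mul_of_nonneg_left h3 h5.le
    rw [mul_add] at h6
    linarith
  rw [e3]
  have h7 : (0 : ℝ) < 2 ^ Lp := by positivity
  have h8 := mul_le_mul_of_nonneg_left h4 h7.le
  linarith

/-- the main estimate -/
lemma est (hμ : Adv μ) (hr : FinalPath μ r) {z : ℝ}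
    (hz : ∀ j, z ∈ Ioo (((r j).i : ℝ) / 2 ^ (r j).L) ((((r j).i : ℝ) + 1) / 2 ^ (r j).L))
    {W : ℕ → ℕ → Prop} {κ : ℝ} (hW : WFam μ W κ) (hz' : ∀ n, z ∉ Wset W n) {η : ℝ}
    (hη : 0 < η) (l : ℕ) (h1 : ∀ n, xr μ n (r (l + 1)) ≤ η)
    (h2 : ∀ n, xr μ n (r (l + 1 + 1)) ≤ η) (h3 : ∀ n, xr μ n (r (l + 1 + 1 + 1)) ≤ η)
    {a b : ℝ} (ha : a < z) (hb : z < b)
    (hP : ((r (l + 1 + 1)).i : ℝ) ≤ a * 2 ^ (r (l + 1 + 1)).L ∧
      b * 2 ^ (r (l + 1 + 1)).L ≤ (r (l + 1 + 1)).i + 1)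
    (hP' : ¬ (((r (l + 1 + 1 + 1)).i : ℝ) ≤ a * 2 ^ (r (l + 1 + 1 + 1)).L ∧
      b * 2 ^ (r (l + 1 + 1 + 1)).L ≤ (r (l + 1 + 1 + 1)).i + 1)) {n : ℕ}
    (hn : (r (l + 1 + 1 + 1)).τ ≤ n) :
    κ * (volume (Ioo a b ∩ Wset W n)).toReal ≤ 26408 * η * (b - a) := by
  -- abbreviations
  have Lpq := (hr.ch (l + 1)).LL
  have Lqc := (hr.ch (l + 1 + 1)).LL
  have tpq := (hr.ch (l + 1)).ττ
  have tqc := (hr.ch (l + 1 + 1)).ττ
  have tLpq := (hr.ch (l + 1)).τL
  have g1 := good1 hr (l + 1 + 1)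
  have g2 := good2 hr (l + 1)
  have m2 := mass_g1 hr (l + 1)
  have ml1 := mass_le hμ hr (j := l) tpq
  have ml2 := mass_le hμ hr (j := l + 1) tqc
  have ms3 := mass_slot hr n (l + 1 + 1)
  have mz3 : _ := mid_z hr (l + 1 + 1) (z := z) (by
    have := mem_ocell.1 (hz (l + 1 + 1 + 1))
    exact ⟨this.1.le, this.2.le⟩)
  have mz4 : _ := mid_z hr (l + 1 + 1 + 1) (z := z) (by
    have := mem_ocell.1 (hz (l + 1 + 1 + 1 + 1))
    exact ⟨this.1.le, this.2.le⟩)
  have hs4 := s_le hr (l + 1 + 1 + 1)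
  have hs4' : (0 : ℝ) ≤ (r (l + 1 + 1 + 1 + 1)).s := by positivity
  have hzc := mem_ocell.1 (hz (l + 1 + 1 + 1))
  have hzq := in_cell z (hz (l + 1 + 1))
  generalize e3 : (r (l + 1 + 1 + 1)).L = L at *
  generalize e3i : (r (l + 1 + 1 + 1)).i = i at *
  generalize hLq : (r (l + 1 + 1)).L = Lq at *
  generalize hiq : (r (l + 1 + 1)).i = iq at *
  generalize hLp : (r (l + 1)).L = Lp at *
  generalize hip : (r (l + 1)).i = ip at *
  generalize htc : (r (l + 1 + 1 + 1)).τ = tc at *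
  generalize htq : (r (l + 1 + 1)).τ = tq at *
  generalize htp : (r (l + 1)).τ = tp at *
  generalize hsc : (r (l + 1 + 1 + 1)).s = sc at *
  generalize hsd : (r (l + 1 + 1 + 1 + 1)).s = sd at *
  have pL : (0 : ℝ) < 2 ^ L := by positivity
  have pLq : (0 : ℝ) < 2 ^ Lq := by positivity
  have pLp : (0 : ℝ) < 2 ^ Lp := by positivity
  have eL : (2 : ℝ) ^ L = 2 ^ Lq * 2 ^ (L - Lq) := by
    rw [← pow_add]; congr 1; omega
  have pLL : (0 : ℝ) < 2 ^ (L - Lq) := by positivity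
  -- the length of the interval compared with the cell `c`
  have hlen : 1 / (2 : ℝ) ^ L ≤ 8 * (b - a) := by
    rw [div_le_iff₀ pL]
    by_cases hc : (i : ℝ) ≤ a * 2 ^ L
    · have h4 : ¬ (b * 2 ^ L ≤ i + 1) := fun h => hP' ⟨hc, h⟩
      push Not at h4
      nlinarith [mz4.2]
    · push Not at hc
      nlinarith [mz4.1]
  have ha0 : 0 ≤ a * 2 ^ Lq := le_trans (by positivity) hP.1
  have ha1 : 0 ≤ a * 2 ^ L := by
    rw [eL, ← mul_assoc]; positivity
  set p := ⌊a * 2 ^ L⌋₊ with hp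
  set q := ⌈b * 2 ^ L⌉₊ - 1 with hq
  have hbpos : 0 < b * 2 ^ L := by nlinarith
  have hcb : 0 < ⌈b * 2 ^ L⌉₊ := Nat.ceil_pos.2 hbpos
  have hp1 : (p : ℝ) ≤ a * 2 ^ L := Nat.floor_le ha1
  have hp2 : a * 2 ^ L < p + 1 := Nat.lt_floor_add_one _
  have hq0 : (q : ℝ) + 1 = (⌈b * 2 ^ L⌉₊ : ℝ) := by
    rw [hq, Nat.cast_sub (by omega)]; push_cast; ring
  have hq1 : (q : ℝ) < b * 2 ^ L := by
    have := Nat.ceil_lt_add_one hbpos.le
    linarith
  have hq2 : b * 2 ^ L ≤ q + 1 := by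
    rw [hq0]; exact Nat.le_ceil _
  have hpi : p ≤ i := by
    have : (p : ℝ) < i + 1 := by nlinarith [hzc.2]
    have : p < i + 1 := by exact_mod_cast this
    omega
  have hiq' : i ≤ q := by
    have : (i : ℝ) < q + 1 := by nlinarith [hzc.1]
    have : i < q + 1 := by exact_mod_cast this
    omega
  have hpq1 : iq * 2 ^ (L - Lq) ≤ p := by
    rw [hp]
    apply Nat.le_floor
    push_cast
    rw [eL, ← mul_assoc]
    gcongr
    exact hP.1
  have hpq2 : q < (iq + 1) * 2 ^ (L - Lq) := by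
    have : (q : ℝ) < (iq + 1) * 2 ^ (L - Lq) := by
      refine hq1.trans_le ?_
      rw [eL, ← mul_assoc]
      gcongr
      exact hP.2
    exact_mod_cast this
  have hdivq : ∀ k ∈ Finset.Icc p q, k / 2 ^ (L - Lq) = iq := by
    intro k hk
    rw [Finset.mem_Icc] at hk
    apply Nat.div_eq_of_lt_le <;> omega
  -- number of cells
  have hnum : ((q : ℝ) + 2 - p) / 2 ^ L ≤ 25 * (b - a) := by
    rw [div_le_iff₀ pL]
    rw [div_le_iff₀ pL] at hlen
    nlinarith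
  -- the volume estimate
  have hvol : κ * (volume (Ioo a b ∩ Wset W n)).toReal ≤
      ∑ k ∈ Finset.Icc p q, (μ n L k - μ tp L k) := by
    have hsub : Ioo a b ∩ Wset W n ⊆ ⋃ k ∈ Finset.Icc p q, (cellSet L k ∩ Wset W n) := by
      rintro x ⟨hx, hxW⟩
      have hx0 : 0 ≤ x := Wset_nonneg hxW
      have hxc : x ∈ cellSet L ⌊x * 2 ^ L⌋₊ := by
        rw [mem_cell]
        exact ⟨Nat.floor_le (by positivity), Nat.lt_floor_add_one _⟩
      simp only [mem_iUnion, exists_prop]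
      refine ⟨_, ?_, hxc, hxW⟩
      rw [mem_cell] at hxc
      rw [Finset.mem_Icc]
      constructor
      · have : (p : ℝ) < ⌊x * 2 ^ L⌋₊ + 1 := by nlinarith [hxc.2, hx.1]
        have : p < ⌊x * 2 ^ L⌋₊ + 1 := by exact_mod_cast this
        omega
      · have : (⌊x * 2 ^ L⌋₊ : ℝ) < q + 1 := by nlinarith [hxc.1, hx.2]
        have : ⌊x * 2 ^ L⌋₊ < q + 1 := by exact_mod_cast this
        omega
    have hfin : ∀ k, volume (cellSet L k ∩ Wset W n) ≠ ⊤ := by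
      intro k
      refine ne_top_of_le_ne_top ?_ (measure_mono inter_subset_left)
      unfold cellSet
      rw [Real.volume_Ico]
      exact ENNReal.ofReal_ne_top
    have h4 : (volume (Ioo a b ∩ Wset W n)).toReal ≤
        ∑ k ∈ Finset.Icc p q, (volume (cellSet L k ∩ Wset W n)).toReal := by
      rw [← ENNReal.toReal_sum (fun k _ => hfin k)]
      apply ENNReal.toReal_mono
      · exact (ENNReal.sum_lt_top.2 fun k _ => (hfin k).lt_top).ne
      · exact (measure_mono hsub).trans (measure_biUnion_finset_le _ _)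
    refine (mul_le_mul_of_nonneg_left h4 hW.pos.le).trans ?_
    rw [Finset.mul_sum]
    refine Finset.sum_le_sum fun k hk => ?_
    refine hW.mass tp n L k (by omega) (by omega) ?_
    intro hc
    have h5 : k / 2 ^ (L - tp) = iq / 2 ^ (Lq - tp) := by
      rw [← hdivq k hk, Nat.div_div_eq_div_mul, ← pow_add]
      congr 2
      omega
    rw [h5] at hc
    apply hz' tp
    simp only [Wset, mem_iUnion, mem_ofPred_eq, exists_prop]
    exact ⟨_, hc, cell_up tLpq hzq⟩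
  -- the three parts
  have hS3 : 2 ^ L * ∑ k ∈ Finset.Icc p q, (μ tq L k - μ tp L k) ≤
      32 * ((q : ℝ) + 2 - p) * (32 * η) := by
    refine (good_sum hμ g2 tpq (by omega) hpq1 hpi hiq' hpq2).trans ?_
    have h5 : (0 : ℝ) ≤ 32 * ((q : ℝ) + 2 - p) := by
      have : (p : ℝ) ≤ q := by exact_mod_cast hpi.trans hiq'
      linarith
    apply mul_le_mul_of_nonneg_left _ h5
    refine m2.trans ?_
    apply mul_le_mul_of_nonneg_left _ (by norm_num)
    have h6 := ml1.trans (div_le_div_of_nonneg_right (h1 tq) pLp.le)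
    rw [le_div_iff₀ pLp] at h6
    linarith
  have hS2 : 2 ^ L * ∑ k ∈ Finset.Icc p q, (μ tc L k - μ tq L k) ≤
      32 * ((q : ℝ) + 2 - p) * η := by
    refine (good_sum hμ g1 tqc (by omega) hpq1 hpi hiq' hpq2).trans ?_
    have h5 : (0 : ℝ) ≤ 32 * ((q : ℝ) + 2 - p) := by
      have : (p : ℝ) ≤ q := by exact_mod_cast hpi.trans hiq'
      linarith
    apply mul_le_mul_of_nonneg_left _ h5
    have h6 := ml2.trans (div_le_div_of_nonneg_right (h2 tc) pLq.le)
    rw [le_div_iff₀ pLq] at h6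
    linarith
  have hS1 : ∑ k ∈ Finset.Icc p q, (μ n L k - μ tc L k) ≤ 8 * η * (b - a) := by
    by_cases hQ : (2 * iq + sc : ℝ) ≤ a * 2 ^ (Lq + 1) ∧ b * 2 ^ (Lq + 1) ≤ 2 * iq + sc + 1
    · have eL1 : (2 : ℝ) ^ L = 2 ^ (Lq + 1) * 2 ^ (L - (Lq + 1)) := by
        rw [← pow_add]; congr 1; omega
      have h4 : (2 * iq + sc) * 2 ^ (L - (Lq + 1)) ≤ p := by
        rw [hp]
        apply Nat.le_floor
        push_cast
        rw [eL1, ← mul_assoc]
        gcongr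
        exact hQ.1
      have h5 : q < (2 * iq + sc + 1) * 2 ^ (L - (Lq + 1)) := by
        have : (q : ℝ) < (2 * iq + sc + 1) * 2 ^ (L - (Lq + 1)) := by
          refine hq1.trans_le ?_
          rw [eL1, ← mul_assoc]
          gcongr
          exact hQ.2
        exact_mod_cast this
      have h6 : ∀ k ∈ Finset.Icc p q, k / 2 ^ (L - (Lq + 1)) = 2 * iq + sc := by
        intro k hk
        rw [Finset.mem_Icc] at hk
        apply Nat.div_eq_of_lt_le <;> omega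
      have h7 := sum_sub_le hμ hn (show Lq + 1 ≤ L by omega) (Finset.Icc p q) h6
      rw [ms3] at h7
      refine h7.trans ?_
      refine (div_le_div_of_nonneg_right (h3 n) pL.le).trans ?_
      calc η / 2 ^ L = η * (1 / 2 ^ L) := by ring
        _ ≤ η * (8 * (b - a)) := by gcongr
        _ = 8 * η * (b - a) := by ring
    · have h4 : 1 / (2 : ℝ) ^ Lq ≤ 8 * (b - a) := by
        rw [div_le_iff₀ pLq]
        by_cases hc : (2 * iq + sc : ℝ) ≤ a * 2 ^ (Lq + 1)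
        · have h4 : ¬ (b * 2 ^ (Lq + 1) ≤ 2 * iq + sc + 1) := fun h => hQ ⟨hc, h⟩
          push Not at h4
          rw [pow_succ] at h4
          nlinarith [mz3.2]
        · push Not at hc
          rw [pow_succ] at hc
          nlinarith [mz3.1]
      have h5 : ∑ k ∈ Finset.Icc p q, (μ n L k - μ tc L k) ≤
          ∑ k ∈ Finset.Icc p q, (μ n L k - μ tq L k) := by
        refine Finset.sum_le_sum fun k _ => ?_
        have := mono_le hμ tqc L k
        linarith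
      have h6 := sum_sub_le hμ (tqc.trans hn) (show Lq ≤ L by omega) (Finset.Icc p q) hdivq
      have h7 : μ n Lq iq - μ tq Lq iq ≤ η / 2 ^ Lq := by
        have := mass_le hμ hr (n := n) (j := l + 1) (by rw [htq]; exact tqc.trans hn)
        rw [hLq, hiq, htq] at this
        exact this.trans (div_le_div_of_nonneg_right (h2 n) pLq.le)
      calc _ ≤ η / 2 ^ Lq := h5.trans (h6.trans h7)
        _ = η * (1 / 2 ^ Lq) := by ring
        _ ≤ η * (8 * (b - a)) := by gcongr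
        _ = 8 * η * (b - a) := by ring
  have hsum : ∑ k ∈ Finset.Icc p q, (μ n L k - μ tp L k) =
      ∑ k ∈ Finset.Icc p q, (μ n L k - μ tc L k) + ∑ k ∈ Finset.Icc p q, (μ tc L k - μ tq L k) +
      ∑ k ∈ Finset.Icc p q, (μ tq L k - μ tp L k) := by
    rw [← Finset.sum_add_distrib, ← Finset.sum_add_distrib]
    refine Finset.sum_congr rfl fun k _ => ?_
    ring
  have hS2' : ∑ k ∈ Finset.Icc p q, (μ tc L k - μ tq L k) ≤ 800 * η * (b - a) := by
    have h4 : ∑ k ∈ Finset.Icc p q, (μ tc L k - μ tq L k) ≤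
        32 * η * (((q : ℝ) + 2 - p) / 2 ^ L) := by
      rw [← mul_div_assoc, le_div_iff₀ pL]
      linarith
    refine h4.trans ?_
    have : 32 * η * (((q : ℝ) + 2 - p) / 2 ^ L) ≤ 32 * η * (25 * (b - a)) := by gcongr
    linarith
  have hS3' : ∑ k ∈ Finset.Icc p q, (μ tq L k - μ tp L k) ≤ 25600 * η * (b - a) := by
    have h4 : ∑ k ∈ Finset.Icc p q, (μ tq L k - μ tp L k) ≤
        1024 * η * (((q : ℝ) + 2 - p) / 2 ^ L) := by
      rw [← mul_div_assoc, le_div_iff₀ pL]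
      linarith
    refine h4.trans ?_
    have : 1024 * η * (((q : ℝ) + 2 - p) / 2 ^ L) ≤ 1024 * η * (25 * (b - a)) := by gcongr
    linarith
  refine hvol.trans ?_
  rw [hsum]
  linarith

end Den

/-- OW-T6c: density zero of the attacked sets. -/
theorem density0 {μ : ℕ → ℕ → ℕ → ℝ} (hμ : Adv μ) {r : ℕ → Rec} (hr : FinalPath μ r) {z : ℝ}
    (hz : ∀ j, z ∈ Ioo (((r j).i : ℝ) / 2 ^ (r j).L) ((((r j).i : ℝ) + 1) / 2 ^ (r j).L))
    {W : ℕ → ℕ → Prop} {κ : ℝ} (hW : WFam μ W κ) (hz' : ∀ n, z ∉ Wset W n) :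
    ∀ ε : ℝ, 0 < ε → ∃ δ : ℝ, 0 < δ ∧ ∀ a b : ℝ, a < z → z < b → b - a < δ →
      (volume (Ioo a b ∩ ⋃ n, Wset W n)).toReal ≤ ε * (b - a) := by
  intro ε hε
  obtain ⟨J, hJ⟩ := xr_small hμ hr (η := ε * κ / 26408) (by
    have := hW.pos; positivity)
  have hη : 0 < ε * κ / 26408 := by have := hW.pos; positivity
  have pJ : (0 : ℝ) < 2 ^ (r (J + 1 + 1)).L := by positivity
  refine ⟨1 / (8 * 2 ^ (r (J + 1 + 1)).L), by positivity, ?_⟩
  intro a b ha hb hab
  have hP0 : ((r (J + 1 + 1)).i : ℝ) ≤ a * 2 ^ (r (J + 1 + 1)).L ∧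
      b * 2 ^ (r (J + 1 + 1)).L ≤ (r (J + 1 + 1)).i + 1 := by
    have mz := mid_z hr (J + 1 + 1) (z := z) (by
      have := mem_ocell.1 (hz (J + 1 + 1 + 1))
      exact ⟨this.1.le, this.2.le⟩)
    have hs := s_le hr (J + 1 + 1)
    have hs' : (0 : ℝ) ≤ (r (J + 1 + 1 + 1)).s := by positivity
    rw [lt_div_iff₀ (by positivity)] at hab
    constructor
    · nlinarith [mz.1]
    · nlinarith [mz.2]
  obtain ⟨l, hl, hPl, hPl'⟩ : ∃ l, J ≤ l ∧ (((r (l + 1 + 1)).i : ℝ) ≤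
      a * 2 ^ (r (l + 1 + 1)).L ∧ b * 2 ^ (r (l + 1 + 1)).L ≤ (r (l + 1 + 1)).i + 1) ∧
      ¬ (((r (l + 1 + 1 + 1)).i : ℝ) ≤ a * 2 ^ (r (l + 1 + 1 + 1)).L ∧
      b * 2 ^ (r (l + 1 + 1 + 1)).L ≤ (r (l + 1 + 1 + 1)).i + 1) := by
    by_contra hcon
    push Not at hcon
    have hall : ∀ l, J ≤ l → (((r (l + 1 + 1)).i : ℝ) ≤ a * 2 ^ (r (l + 1 + 1)).L ∧
        b * 2 ^ (r (l + 1 + 1)).L ≤ (r (l + 1 + 1)).i + 1) := by
      intro l hl
      induction l, hl using Nat.le_induction with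
      | base => exact hP0
      | succ l hl ih =>
        exact hcon l hl ih
    obtain ⟨N, hN⟩ := pow_unbounded_of_one_lt (1 / (b - a)) (one_lt_two : (1 : ℝ) < 2)
    have h4 := hall (max J N) (le_max_left _ _)
    have h5 : N ≤ (r (max J N + 1 + 1)).L := by
      have h6 := L_ge hr (max J N + 1 + 1)
      have h7 : N ≤ max J N := le_max_right _ _
      omega
    have h6 : (2 : ℝ) ^ N ≤ 2 ^ (r (max J N + 1 + 1)).L :=
      pow_le_pow_right₀ (by norm_num) h5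
    rw [div_lt_iff₀ (by linarith)] at hN
    have h7 : (2 : ℝ) ^ N * (b - a) ≤ 2 ^ (r (max J N + 1 + 1)).L * (b - a) := by
      apply mul_le_mul_of_nonneg_right h6
      linarith
    linarith [h4.1, h4.2]
  have hev : ∀ n, (volume (Ioo a b ∩ Wset W n)).toReal ≤ ε * (b - a) := by
    intro n
    have h4 := est hμ hr hz hW hz' hη l (fun n => hJ (l + 1) (by omega) n)
      (fun n => hJ (l + 1 + 1) (by omega) n) (fun n => hJ (l + 1 + 1 + 1) (by omega) n) ha hb hPl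
      hPl' (n := max n (r (l + 1 + 1 + 1)).τ) (le_max_right _ _)
    have h5 : 26408 * (ε * κ / 26408) * (b - a) = κ * (ε * (b - a)) := by ring
    rw [h5] at h4
    have h6 := le_of_mul_le_mul_left h4 hW.pos
    refine le_trans (ENNReal.toReal_mono ?_ (measure_mono ?_)) h6
    · refine ne_top_of_le_ne_top ?_ (measure_mono inter_subset_left)
      rw [Real.volume_Ioo]
      exact ENNReal.ofReal_ne_top
    · rintro x ⟨hx, hxW⟩
      exact ⟨hx, Wset_mono hW.up (le_max_left _ _) (Wset_nonneg hxW) hxW⟩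
  have hnn : 0 ≤ ε * (b - a) := by
    apply mul_nonneg hε.le; linarith
  rw [inter_iUnion]
  have hmono : Monotone fun n => Ioo a b ∩ Wset W n := by
    intro n n' h x hx
    exact ⟨hx.1, Wset_mono hW.up h (Wset_nonneg hx.2) hx.2⟩
  rw [hmono.measure_iUnion]
  refine ENNReal.toReal_le_of_le_ofReal hnn (iSup_le fun n => ?_)
  rw [ENNReal.le_ofReal_iff_toReal_le _ hnn]
  · exact hev n
  · refine ne_top_of_le_ne_top ?_ (measure_mono inter_subset_left)
    rw [Real.volume_Ioo]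
    exact ENNReal.ofReal_ne_top

end OWD
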