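import Pool.Agent.H22.OW.Fam

set_option autoImplicit false

/-!
Binary expansions.
-/

open MeasureTheory Set Filter Topology

namespace OWD

/-- the terms of the binary expansion -/
noncomputable def bterm (Z : ℕ → Bool) (k : ℕ) : ℝ := (if Z k then (1 : ℝ) else 0) / 2 ^ (k + 1)

theorem bterm_nonneg (Z : ℕ → Bool) (k : ℕ) : 0 ≤ bterm Z k := by
  unfold bterm
  split_ifs <;> positivity

theorem bterm_le (Z : ℕ → Bool) (k : ℕ) : bterm Z k ≤ (1 / 2 : ℝ) ^ k * (1 / 2) := by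
  have h : (1 / 2 : ℝ) ^ k * (1 / 2) = 1 / 2 ^ (k + 1) := by
    rw [one_div, inv_pow, pow_succ]
    field_simp
  rw [h]
  unfold bterm
  split_ifs
  · exact le_rfl
  · rw [zero_div]
    positivity

theorem bterm_summable (Z : ℕ → Bool) : Summable (bterm Z) :=
  Summable.of_nonneg_of_le (bterm_nonneg Z) (bterm_le Z)
    (summable_geometric_two.mul_right (1 / 2))

theorem sum_bterm (Z : ℕ → Bool) (L : ℕ) :
    ∑ k ∈ Finset.range L, bterm Z k = (val Z L : ℝ) / 2 ^ L := by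
  induction L with
  | zero => simp [val]
  | succ L ih =>
    rw [Finset.sum_range_succ, ih]
    unfold bterm
    simp only [val]
    push_cast
    rw [pow_succ]
    split_ifs <;> field_simp

theorem tail_bterm (Z : ℕ → Bool) (L : ℕ) : 0 ≤ ∑' k, bterm Z (k + L) ∧
    ∑' k, bterm Z (k + L) ≤ 1 / 2 ^ L := by
  refine ⟨tsum_nonneg (fun k => bterm_nonneg Z _), ?_⟩
  have hs : Summable (fun k : ℕ => (1 / 2 : ℝ) ^ k * ((1 / 2) ^ L * (1 / 2))) :=
    summable_geometric_two.mul_right _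
  have h1 : ∑' k, bterm Z (k + L) ≤ ∑' k : ℕ, (1 / 2 : ℝ) ^ k * ((1 / 2) ^ L * (1 / 2)) := by
    refine Summable.tsum_le_tsum (fun k => ?_) ((summable_nat_add_iff L).mpr (bterm_summable Z)) hs
    refine (bterm_le Z (k + L)).trans (le_of_eq ?_)
    rw [pow_add]
    ring
  refine h1.trans (le_of_eq ?_)
  rw [tsum_mul_right, tsum_geometric_two, one_div, inv_pow]
  field_simp

theorem binval_bounds (Z : ℕ → Bool) (L : ℕ) :
    (val Z L : ℝ) / 2 ^ L ≤ binval Z ∧ binval Z ≤ ((val Z L : ℝ) + 1) / 2 ^ L := by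
  have h1 : binval Z = (val Z L : ℝ) / 2 ^ L + ∑' k, bterm Z (k + L) := by
    rw [← sum_bterm]
    exact ((bterm_summable Z).sum_add_tsum_nat_add L).symm
  obtain ⟨h2, h3⟩ := tail_bterm Z L
  rw [h1, add_div]
  constructor
  · linarith
  · linarith

/-- OW-F3. -/
theorem binval_cell {Z : ℕ → Bool} {z : ℝ} (hz : binval Z = z)
    (hd : ∀ L i : ℕ, z ≠ (i : ℝ) / 2 ^ L) (L : ℕ) : z ∈ cellSet L (val Z L) := by
  obtain ⟨h1, h2⟩ := binval_bounds Z L
  rw [hz] at h1 h2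
  refine ⟨h1, lt_of_le_of_ne h2 ?_⟩
  have := hd L (val Z L + 1)
  push_cast at this
  exact this

theorem exists_expansion {z : ℝ} (h0 : 0 < z) (h1 : z < 1) : ∃ Z, binval Z = z := by
  set Z : ℕ → Bool := fun k => decide (⌊z * 2 ^ (k + 1)⌋₊ % 2 = 1)
  have hval : ∀ L, val Z L = ⌊z * 2 ^ L⌋₊ := by
    intro L
    induction L with
    | zero =>
      simp only [val, pow_zero, mul_one]
      exact (Nat.floor_eq_zero.mpr h1).symm
    | succ L ih =>
      have h2 : ⌊z * 2 ^ (L + 1)⌋₊ / 2 = ⌊z * 2 ^ L⌋₊ := by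
        have := Nat.floor_div_natCast (z * 2 ^ (L + 1)) 2
        rw [← this]
        congr 1
        push_cast
        rw [pow_succ]
        field_simp
      have e : val Z (L + 1) = 2 * val Z L + (if Z L then 1 else 0) := rfl
      have hZL : Z L = decide (⌊z * 2 ^ (L + 1)⌋₊ % 2 = 1) := rfl
      rw [e, ih, hZL, ← h2]
      have h3 := Nat.div_add_mod ⌊z * 2 ^ (L + 1)⌋₊ 2
      by_cases h4 : ⌊z * 2 ^ (L + 1)⌋₊ % 2 = 1
      · simp only [h4, decide_true, if_true]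
        omega
      · simp only [h4, decide_false, Bool.false_eq_true, if_false]
        omega
  refine ⟨Z, ?_⟩
  have hb : ∀ L : ℕ, |binval Z - z| ≤ (1 / 2 : ℝ) ^ L := by
    intro L
    obtain ⟨h2, h3⟩ := binval_bounds Z L
    rw [hval L] at h2 h3
    have hp : (0 : ℝ) < 2 ^ L := by positivity
    have h4 : ((⌊z * 2 ^ L⌋₊ : ℕ) : ℝ) ≤ z * 2 ^ L := Nat.floor_le (by positivity)
    have h5 : z * 2 ^ L < ((⌊z * 2 ^ L⌋₊ : ℕ) : ℝ) + 1 := Nat.lt_floor_add_one _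
    have h6 : ((⌊z * 2 ^ L⌋₊ : ℕ) : ℝ) / 2 ^ L ≤ z := by
      rw [div_le_iff₀ hp]; exact h4
    have h7 : z ≤ (((⌊z * 2 ^ L⌋₊ : ℕ) : ℝ) + 1) / 2 ^ L := by
      rw [le_div_iff₀ hp]; exact h5.le
    have h8 : (((⌊z * 2 ^ L⌋₊ : ℕ) : ℝ) + 1) / 2 ^ L =
        ((⌊z * 2 ^ L⌋₊ : ℕ) : ℝ) / 2 ^ L + (1 / 2 : ℝ) ^ L := by
      rw [add_div, one_div, one_div, inv_pow]
    rw [h8] at h3 h7
    rw [abs_le]
    constructor <;> linarith
  have hlim : Tendsto (fun L : ℕ => (1 / 2 : ℝ) ^ L) atTop (𝓝 0) :=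
    tendsto_pow_atTop_nhds_zero_of_lt_one (by norm_num) (by norm_num)
  have h2 : |binval Z - z| ≤ 0 := ge_of_tendsto' hlim hb
  have h3 : binval Z - z = 0 := abs_eq_zero.mp (le_antisymm h2 (abs_nonneg _))
  linarith

end OWD
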