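import Mathlib

/-!
MP_9d9f9c_lc: the combinatorial construction (records, trees, the step of the algorithm).
`μ n L i` is the mass (integral of the adversary function `f_n`) of the dyadic cell
`[i / 2^L, (i+1) / 2^L)`.
-/

open Finset

namespace OWD

/-- The abstract adversary: masses of dyadic cells, additive, nondecreasing in `n`, total mass at
most `2`. -/
structure Adv (μ : ℕ → ℕ → ℕ → ℝ) : Prop where
  nonneg : ∀ n L i, 0 ≤ μ n L i
  split : ∀ n L i, μ n L i = μ n (L + 1) (2 * i) + μ n (L + 1) (2 * i + 1)
  mono : ∀ n L i, μ n L i ≤ μ (n + 1) L i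
  zero : ∀ L i, μ 0 L i = 0
  total : ∀ n, μ n 0 0 ≤ 2

/-- A record of the construction. `d` depth, `(L, i)` level and index of the cell, `(Lp, ip)`
level and index of the cell of the parent, `s` slot (0 or 1), `τ` stage of the present placement,
`τp`, `τpp` the same for the parent and the grandparent, `bN / 2 ^ bE` the value of the growth
counter at stage `τ`. -/
structure Rec where
  d : ℕ
  L : ℕ
  i : ℕ
  Lp : ℕ
  ip : ℕ
  s : ℕ
  τ : ℕ
  τp : ℕ
  τpp : ℕ
  bN : ℕ
  bE : ℕ

/-- Finite full binary trees of records. -/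
inductive Tr where
  | leaf (r : Rec) : Tr
  | node (r : Rec) (l t : Tr) : Tr

namespace Tr

/-- The record at the root of a tree. -/
def rt : Tr → Rec
  | leaf r => r
  | node r _ _ => r

/-- The level of the last record in the preorder. -/
def last : Tr → ℕ
  | leaf r => r.L
  | node _ _ t => last t

/-- Membership of a record in a tree. -/
def Mem (q : Rec) : Tr → Prop
  | leaf r => q = r
  | node r l t => q = r ∨ Mem q l ∨ Mem q t

end Tr

section
variable (μ : ℕ → ℕ → ℕ → ℝ)

/-- The averages over grid intervals of level `L` cells of `(Lp, ip)` starting or ending at `i`,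
of the mass that was added between stage `m` and stage `n`, are at most `32` times the average over
`(Lp, ip)`. -/
def Good (n m L i Lp ip : ℕ) : Prop :=
  (∀ a, ip * 2 ^ (L - Lp) ≤ a → a ≤ i →
    (2 : ℝ) ^ (L - Lp) * ∑ k ∈ Icc a i, (μ n L k - μ m L k) ≤
      32 * ((i + 1 - a : ℕ) : ℝ) * (μ n Lp ip - μ m Lp ip)) ∧
  (∀ b, i ≤ b → b < (ip + 1) * 2 ^ (L - Lp) →
    (2 : ℝ) ^ (L - Lp) * ∑ k ∈ Icc i b, (μ n L k - μ m L k) ≤
      32 * ((b + 1 - i : ℕ) : ℝ) * (μ n Lp ip - μ m Lp ip))

/-- The cell `(L, i)` is in the middle half of the slot `s` of the cell `(Lp, ip)`. -/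
def Mid (L i Lp ip s : ℕ) : Prop :=
  (8 * ip + 4 * s + 1) * 2 ^ (L - Lp - 3) ≤ i ∧ i < (8 * ip + 4 * s + 3) * 2 ^ (L - Lp - 3)

/-- The condition on the location of a cell that is placed at stage `n`. -/
def LocOK (n L i Lp ip s τp τpp : ℕ) : Prop :=
  Mid L i Lp ip s ∧ Good μ n τp L i Lp ip ∧ Good μ τp τpp L i Lp ip

open Classical in
/-- The location chosen at stage `n`. -/
noncomputable def loc (n L Lp ip s τp τpp : ℕ) : ℕ :=
  Nat.findGreatest (fun i => LocOK μ n L i Lp ip s τp τpp) (2 ^ L)

/-- (Re)placement of a record at stage `n` with growth counter `N / 2 ^ E`. -/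
noncomputable def place (n N E : ℕ) (r : Rec) : Rec :=
  { r with i := loc μ n r.L r.Lp r.ip r.s r.τp r.τpp, τ := n, bN := N, bE := E }

/-- The new child in slot `s` of the record `r`, created at stage `n`. -/
noncomputable def child (n N E : ℕ) (r : Rec) (s : ℕ) : Rec :=
  place μ n N E
    { d := r.d + 1, L := E + n + 4 + 2 * (n - r.d) + s, i := 0, Lp := r.L, ip := r.i, s := s,
      τ := 0, τp := r.τ, τpp := r.τp, bN := 0, bE := 0 }

open Classical in
/-- The relative mass of a record: the mass added to its slot since its placement, divided by the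
length of its cell; `0` for the root record. -/
noncomputable def xr (n : ℕ) (r : Rec) : ℝ :=
  if r.d = 0 then 0
  else (μ n (r.Lp + 1) (2 * r.ip + r.s) - μ r.τ (r.Lp + 1) (2 * r.ip + r.s)) * 2 ^ r.L

/-- The minimum over the leaves of the path sums of `xr`. -/
noncomputable def Phi (n : ℕ) : Tr → ℝ
  | .leaf r => xr μ n r
  | .node r l t => xr μ n r + min (Phi n l) (Phi n t)

/-- The age of a record, when the growth counter is `N / 2 ^ E`. -/
noncomputable def age (N E : ℕ) (r : Rec) : ℝ := (N : ℝ) / 2 ^ E - (r.bN : ℝ) / 2 ^ r.bE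

/-- The life of a record. -/
noncomputable def life (r : Rec) : ℝ := (3 / 2 : ℝ) ^ r.d / 2 ^ r.L

/-- A record that has to be relocated. -/
def Expired (N E : ℕ) (r : Rec) : Prop := r.d ≠ 0 ∧ life r ≤ age N E r

open Classical in
/-- The relocation step. -/
noncomputable def expi (n N E : ℕ) : Tr → Tr
  | .leaf r => if Expired N E r then .leaf (place μ n N E r) else .leaf r
  | .node r l t =>
    if Expired N E r then .leaf (place μ n N E r) else .node r (expi n N E l) (expi n N E t)

open Classical in
/-- The extension step. -/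
noncomputable def ext (n N E : ℕ) : Tr → Tr
  | .leaf r => .node r (.leaf (child μ n N E r 0)) (.leaf (child μ n N E r 1))
  | .node r l t =>
    if Phi μ n l ≤ Phi μ n t then .node r (ext n N E l) (.leaf (child μ n N E r 1))
    else .node r l (ext n N E t)

/-- The states of the construction: a tree and the growth counter `N / 2 ^ E`. -/
structure St where
  t : Tr
  N : ℕ
  E : ℕ

open Classical in
/-- One stage of the construction. -/
noncomputable def step (n : ℕ) (s : St) : St :=
  if Phi μ n (expi μ n s.N s.E s.t) ≤ 1 then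
    { t := ext μ n s.N s.E (expi μ n s.N s.E s.t)
      N := s.N * 2 ^ (3 * n + 6) + 1
      E := s.E + (3 * n + 6) }
  else
    { t := expi μ n s.N s.E s.t
      N := s.N + 1
      E := s.E }

/-- The root record. -/
def rootRec : Rec :=
  { d := 0, L := 0, i := 0, Lp := 0, ip := 0, s := 0, τ := 0, τp := 0, τpp := 0, bN := 0, bE := 0 }

/-- The run of the construction. -/
noncomputable def run : ℕ → St
  | 0 => { t := .leaf rootRec, N := 0, E := 0 }
  | n + 1 => step μ n (run n)

/-- The growth counter at stage `n`. -/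
noncomputable def beta (n : ℕ) : ℝ := ((run μ n).N : ℝ) / 2 ^ (run μ n).E

/-- The tree after the relocation step of stage `n`. -/
noncomputable def tre (n : ℕ) : Tr := expi μ n (run μ n).N (run μ n).E (run μ n).t

/-- Stage `n` is an extension stage. -/
def XS (n : ℕ) : Prop := Phi μ n (tre μ n) ≤ 1

end

end OWD
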