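import Pool.Agent.H22.OW.Defs
import Pool.Agent.H22.OW.Tree

/-!
MP_9d9f9c_lc: interfaces between the parts of the proof.
-/

open MeasureTheory Set Filter Topology

namespace OWD

/-- The cell with level `L` and index `i` as a set of reals. -/
def cellSet (L i : ℕ) : Set ℝ := Ico ((i : ℝ) / 2 ^ L) (((i : ℝ) + 1) / 2 ^ L)

/-- The union of the cells of level `n` whose index satisfies `W n`. -/
def Wset (W : ℕ → ℕ → Prop) (n : ℕ) : Set ℝ := ⋃ i ∈ {i | W n i}, cellSet n i

/-- `W n i` (the cell `(n, i)` is in the set at stage `n`) describes an increasing sequence of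
sets that are attacked by the adversary `μ` with weight `κ`. -/
structure WFam (μ : ℕ → ℕ → ℕ → ℝ) (W : ℕ → ℕ → Prop) (κ : ℝ) : Prop where
  pos : 0 < κ
  zero : ∀ i, ¬ W 0 i
  up : ∀ n i, W n i → W (n + 1) (2 * i) ∧ W (n + 1) (2 * i + 1)
  mass : ∀ m n L i, m ≤ n → m ≤ L → ¬ W m (i / 2 ^ (L - m)) →
    κ * (volume (cellSet L i ∩ Wset W n)).toReal ≤ μ n L i - μ m L i

/-- `c` is a child of the record `r` (static relations). -/
structure IsCh (r c : Rec) : Prop where
  d : c.d = r.d + 1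
  Lp : c.Lp = r.L
  ip : c.ip = r.i
  s : c.s = 0 ∨ c.s = 1
  τp : c.τp = r.τ
  τpp : c.τpp = r.τp
  ττ : r.τ ≤ c.τ
  LL : r.L + 4 ≤ c.L
  τL : r.τ ≤ c.L

/-- The final path of the construction. -/
structure FinalPath (μ : ℕ → ℕ → ℕ → ℝ) (r : ℕ → Rec) : Prop where
  zero : r 0 = rootRec
  ch : ∀ j, IsCh (r j) (r (j + 1))
  loc : ∀ j, LocOK μ (r (j + 1)).τ (r (j + 1)).L (r (j + 1)).i (r j).L (r j).i (r (j + 1)).s
    (r j).τ (r j).τp
  tau : ∀ j, j ≤ (r j).τ + 1
  mem : ∀ j, ∃ n0, ∀ n, n0 ≤ n → Tr.Mem (r j) (run μ n).t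
  sum : ∀ j n, ∑ i ∈ Finset.range (j + 1), xr μ n (r i) ≤ 1

/-- The natural number whose binary digits are the first `n` bits of `Z`. -/
def val (Z : ℕ → Bool) : ℕ → ℕ
  | 0 => 0
  | n + 1 => 2 * val Z n + (if Z n then 1 else 0)

/-- The natural number whose binary digits are the entries of the list. -/
def valL (σ : List Bool) : ℕ := σ.foldl (fun a b => 2 * a + (if b then 1 else 0)) 0

end OWD
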