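import Pool.Agent.H22.OW.Fam

/-!
MP_9d9f9c_lc, OW-T1: the maximal lemma and the existence of a location.
-/

open Finset

namespace OWD

/-- The one sided maximal lemma, with the auxiliary quantity `M` (left version). -/
lemma max_left_aux (g : ℕ → ℝ) (hg : ∀ k, 0 ≤ g k) (c : ℝ) (T : ℕ) :
    ∃ (S : Finset ℕ) (M : ℝ), S ⊆ range T ∧ 0 ≤ M ∧
      c * S.card + M ≤ ∑ k ∈ range T, g k ∧
      (∀ a ≤ T, ∑ k ∈ Ico a T, (g k - c) ≤ M) ∧
      ∀ t < T, t ∉ S → ∀ a ≤ t, ∑ k ∈ Icc a t, g k ≤ c * ((t + 1 - a : ℕ) : ℝ) := by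
  induction T with
  | zero =>
    refine ⟨∅, 0, by simp, le_rfl, by simp, ?_, ?_⟩
    · intro a ha
      have : a = 0 := by omega
      subst this; simp
    · intro t ht; omega
  | succ T ih =>
    obtain ⟨S, M, hS, hM, h1, h2, h3⟩ := ih
    have hTS : T ∉ S := fun h => by simpa using hS h
    have hS' : S ⊆ range (T + 1) := hS.trans (range_subset_range.2 (Nat.le_succ T))
    by_cases hc : 0 < M + g T - c
    · refine ⟨insert T S, M + g T - c, ?_, hc.le, ?_, ?_, ?_⟩
      · intro x hx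
        rcases mem_insert.1 hx with rfl | hx
        · simp
        · exact hS' hx
      · rw [card_insert_of_notMem hTS, sum_range_succ]
        push_cast
        linarith
      · intro a ha
        rcases Nat.lt_or_ge a (T + 1) with h | h
        · rw [sum_Ico_succ_top (by omega)]
          have := h2 a (by omega)
          linarith
        · rw [Ico_eq_empty (by omega)]
          simpa using hc.le
      · intro t ht htS a ha
        have htT : t ≠ T := fun h => htS (h ▸ mem_insert_self T S)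
        exact h3 t (by omega) (fun h => htS (mem_insert_of_mem h)) a ha
    · have hc' : M + g T - c ≤ 0 := not_lt.1 hc
      refine ⟨S, 0, hS', le_rfl, ?_, ?_, ?_⟩
      · rw [sum_range_succ]
        have := hg T
        linarith
      · intro a ha
        rcases Nat.lt_or_ge a (T + 1) with h | h
        · rw [sum_Ico_succ_top (by omega)]
          have := h2 a (by omega)
          linarith
        · rw [Ico_eq_empty (by omega)]
          simp
      · intro t ht htS a ha
        rcases Nat.lt_or_ge t T with h | h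
        · exact h3 t h htS a ha
        · have htT : t = T := by omega
          subst htT
          have h4 : ∑ k ∈ Ico a (t + 1), (g k - c) ≤ 0 := by
            rw [sum_Ico_succ_top ha]
            have := h2 a ha
            linarith
          have h5 : Icc a t = Ico a (t + 1) := by
            ext x; simp only [mem_Icc, mem_Ico]; omega
          rw [sum_sub_distrib, sum_const, Nat.card_Ico, nsmul_eq_mul] at h4
          rw [h5]
          linarith [mul_comm c ((t + 1 - a : ℕ) : ℝ)]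

/-- Left version. -/
lemma max_left (g : ℕ → ℝ) (hg : ∀ k, 0 ≤ g k) (c : ℝ) (T : ℕ) :
    ∃ S : Finset ℕ, S ⊆ range T ∧ c * S.card ≤ ∑ k ∈ range T, g k ∧
      ∀ t < T, t ∉ S → ∀ a ≤ t, ∑ k ∈ Icc a t, g k ≤ c * ((t + 1 - a : ℕ) : ℝ) := by
  obtain ⟨S, M, hS, hM, h1, -, h3⟩ := max_left_aux g hg c T
  exact ⟨S, hS, by linarith, h3⟩

/-- Right version. -/
lemma max_right (g : ℕ → ℝ) (hg : ∀ k, 0 ≤ g k) (c : ℝ) (T : ℕ) :
    ∃ S : Finset ℕ, S ⊆ range T ∧ c * S.card ≤ ∑ k ∈ range T, g k ∧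
      ∀ t < T, t ∉ S → ∀ b < T, t ≤ b →
        ∑ k ∈ Icc t b, g k ≤ c * ((b + 1 - t : ℕ) : ℝ) := by
  obtain ⟨S, hS, h1, h3⟩ := max_left (fun k => g (T - 1 - k)) (fun k => hg _) c T
  refine ⟨S.image (fun k => T - 1 - k), ?_, ?_, ?_⟩
  · intro x hx
    obtain ⟨y, hy, rfl⟩ := mem_image.1 hx
    have := mem_range.1 (hS hy)
    simp only [mem_range]; omega
  · have hinj : Set.InjOn (fun k => T - 1 - k) (S : Set ℕ) := by
      intro x hx y hy hxy
      have h1 := mem_range.1 (hS (mem_coe.1 hx))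
      have h2 := mem_range.1 (hS (mem_coe.1 hy))
      simp only at hxy
      omega
    rw [card_image_of_injOn hinj]
    rw [sum_range_reflect] at h1
    exact h1
  · intro t ht htS b hb htb
    have h4 : T - 1 - t ∉ S := by
      intro h
      apply htS
      rw [mem_image]
      exact ⟨T - 1 - t, h, by omega⟩
    have h5 := h3 (T - 1 - t) (by omega) h4 (T - 1 - b) (by omega)
    have h6 : ∑ k ∈ Icc (T - 1 - b) (T - 1 - t), g (T - 1 - k) = ∑ k ∈ Icc t b, g k := by
      refine sum_nbij' (fun k => T - 1 - k) (fun k => T - 1 - k) ?_ ?_ ?_ ?_ ?_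
      · intro k hk; simp only [mem_Icc] at hk ⊢; omega
      · intro k hk; simp only [mem_Icc] at hk ⊢; omega
      · intro k hk; simp only [mem_Icc] at hk ⊢; omega
      · intro k hk; simp only [mem_Icc] at hk ⊢; omega
      · intro k hk; rfl
    have h7 : T - 1 - t + 1 - (T - 1 - b) = b + 1 - t := by omega
    rw [h6, h7] at h5
    exact h5

/-- The mass of a cell is the sum of the masses of its subcells. -/
lemma mass_eq_sum {μ : ℕ → ℕ → ℕ → ℝ} (hμ : Adv μ) (n L i j : ℕ) :
    μ n L i = ∑ k ∈ range (2 ^ j), μ n (L + j) (i * 2 ^ j + k) := by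
  induction j generalizing L i with
  | zero => simp
  | succ j ih =>
    have h : ∀ f : ℕ → ℝ, ∑ k ∈ range (2 ^ (j + 1)), f k
        = ∑ k ∈ range (2 ^ j), f k + ∑ k ∈ range (2 ^ j), f (2 ^ j + k) := by
      intro f
      rw [pow_succ, mul_two, sum_range_add]
    rw [hμ.split n L i, ih (L + 1) (2 * i), ih (L + 1) (2 * i + 1), h]
    congr 1
    · refine sum_congr rfl fun k _ => ?_
      congr 1
      · omega
      · ring
    · refine sum_congr rfl fun k _ => ?_
      congr 1
      · omega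
      · ring

/-- Few cells violate `Good`. -/
lemma few_bad {μ : ℕ → ℕ → ℕ → ℝ} (hμ : Adv μ) {n m L Lp ip : ℕ} (hL : Lp ≤ L) (hm : m ≤ n) :
    ∃ S : Finset ℕ, 16 * S.card ≤ 2 ^ (L - Lp) ∧
      ∀ t < 2 ^ (L - Lp), t ∉ S → Good μ n m L (ip * 2 ^ (L - Lp) + t) Lp ip := by
  have hmono : ∀ l i, μ m l i ≤ μ n l i := fun l i =>
    monotone_nat_of_le_succ (f := fun n => μ n l i) (fun k => hμ.mono k l i) hm
  set T := 2 ^ (L - Lp) with hT
  set A := ip * T with hA
  set g : ℕ → ℝ := fun k => μ n L (A + k) - μ m L (A + k) with hgdef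
  have hg : ∀ k, 0 ≤ g k := fun k => sub_nonneg.2 (hmono _ _)
  set G : ℝ := μ n Lp ip - μ m Lp ip with hG
  have hsum : ∑ k ∈ range T, g k = G := by
    rw [hG, mass_eq_sum hμ n Lp ip (L - Lp), mass_eq_sum hμ m Lp ip (L - Lp), ← sum_sub_distrib]
    rw [show Lp + (L - Lp) = L by omega]
  have hT0 : (0 : ℝ) < (T : ℝ) := by rw [hT]; positivity
  have hTc : (2 : ℝ) ^ (L - Lp) = (T : ℝ) := by rw [hT]; push_cast; rfl
  -- transfer of sums
  have hshift : ∀ a b, ∑ k ∈ Icc (A + a) (A + b), (μ n L k - μ m L k) = ∑ k ∈ Icc a b, g k := by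
    intro a b
    symm
    refine sum_nbij' (fun k => A + k) (fun k => k - A) ?_ ?_ ?_ ?_ ?_
    · intro k hk; simp only [mem_Icc] at hk ⊢; omega
    · intro k hk; simp only [mem_Icc] at hk ⊢; omega
    · intro k hk; simp only [mem_Icc] at hk ⊢; omega
    · intro k hk; simp only [mem_Icc] at hk ⊢; omega
    · intro k hk; rfl
  have hG0 : 0 ≤ G := sub_nonneg.2 (hmono _ _)
  -- the two halves
  have key : ∃ S : Finset ℕ, 16 * S.card ≤ T ∧
      ∀ t < T, t ∉ S → (∀ a ≤ t, (T : ℝ) * ∑ k ∈ Icc a t, g k ≤ 32 * ((t + 1 - a : ℕ) : ℝ) * G) ∧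
        (∀ b < T, t ≤ b → (T : ℝ) * ∑ k ∈ Icc t b, g k ≤ 32 * ((b + 1 - t : ℕ) : ℝ) * G) := by
    rcases hG0.lt_or_eq with hpos | hzero
    · set c : ℝ := 32 * G / T with hc
      obtain ⟨S1, hS1, h1, h1'⟩ := max_left g hg c T
      obtain ⟨S2, hS2, h2, h2'⟩ := max_right g hg c T
      have hcard : ∀ S : Finset ℕ, c * S.card ≤ ∑ k ∈ range T, g k → 32 * S.card ≤ T := by
        intro S hS
        rw [hsum, hc, div_mul_eq_mul_div, div_le_iff₀ hT0] at hS
        have h3 : G * (32 * (S.card : ℝ)) ≤ G * T := by linarith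
        have h4 := le_of_mul_le_mul_left h3 hpos
        exact_mod_cast h4
      have hc1 := hcard S1 h1
      have hc2 := hcard S2 h2
      have hconv : ∀ (x : ℝ) (y : ℕ), x ≤ c * (y : ℝ) → (T : ℝ) * x ≤ 32 * (y : ℝ) * G := by
        intro x y h
        have h3 : (T : ℝ) * x ≤ T * (c * y) := mul_le_mul_of_nonneg_left h hT0.le
        have h4 : (T : ℝ) * (c * y) = 32 * (y : ℝ) * G := by
          rw [hc]; field_simp
        linarith
      refine ⟨S1 ∪ S2, ?_, ?_⟩
      · have := card_union_le S1 S2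
        omega
      · intro t ht htS
        rw [mem_union, not_or] at htS
        exact ⟨fun a ha => hconv _ _ (h1' t ht htS.1 a ha),
          fun b hb htb => hconv _ _ (h2' t ht htS.2 b hb htb)⟩
    · have hall : ∀ k ∈ range T, g k = 0 := by
        rw [← hzero] at hsum
        exact (sum_eq_zero_iff_of_nonneg (fun k _ => hg k)).1 hsum
      refine ⟨∅, by simp, ?_⟩
      intro t ht _
      refine ⟨?_, ?_⟩
      · intro a ha
        rw [← hzero, sum_eq_zero]
        · simp
        · intro k hk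
          rw [mem_Icc] at hk
          exact hall k (mem_range.2 (by omega))
      · intro b hb htb
        rw [← hzero, sum_eq_zero]
        · simp
        · intro k hk
          rw [mem_Icc] at hk
          exact hall k (mem_range.2 (by omega))
  obtain ⟨S, hS, h⟩ := key
  refine ⟨S, hS, ?_⟩
  intro t ht htS
  obtain ⟨h1, h2⟩ := h t ht htS
  refine ⟨?_, ?_⟩
  · intro a ha hai
    rw [← hT, ← hA] at ha
    obtain ⟨a', rfl⟩ := Nat.exists_eq_add_of_le ha
    rw [hshift, hTc]
    have h3 : A + t + 1 - (A + a') = t + 1 - a' := by omega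
    rw [h3]
    exact h1 a' (by omega)
  · intro b hib hb
    rw [← hT, add_mul, one_mul, ← hA] at hb
    obtain ⟨b', rfl⟩ := Nat.exists_eq_add_of_le (show A ≤ b by omega)
    rw [hshift, hTc]
    have h3 : A + b' + 1 - (A + t) = b' + 1 - t := by omega
    rw [h3]
    exact h2 b' (by omega) (by omega)

/-- OW-T1: existence of a location. -/
theorem exists_locOK {μ : ℕ → ℕ → ℕ → ℝ} (hμ : Adv μ) {n m m' L Lp ip s : ℕ}
    (hL : Lp + 3 ≤ L) (hs : s = 0 ∨ s = 1) (hip : ip < 2 ^ Lp) (hm : m ≤ n) (hm' : m' ≤ m) :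
    ∃ i, i ≤ 2 ^ L ∧ LocOK μ n L i Lp ip s m m' := by
  obtain ⟨S1, hS1, h1⟩ := few_bad hμ (n := n) (m := m) (L := L) (Lp := Lp) (ip := ip)
    (by omega) hm
  obtain ⟨S2, hS2, h2⟩ := few_bad hμ (n := m) (m := m') (L := L) (Lp := Lp) (ip := ip)
    (by omega) hm'
  obtain ⟨P, hP⟩ : ∃ P, 2 ^ (L - Lp - 3) = P := ⟨_, rfl⟩
  have hP0 : 0 < P := by rw [← hP]; positivity
  have hT : 2 ^ (L - Lp) = 8 * P := by
    rw [← hP, show L - Lp = (L - Lp - 3) + 3 by omega, pow_add]
    simp only [Nat.add_sub_cancel]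
    ring
  have hLL : 2 ^ L = 2 ^ Lp * (8 * P) := by
    rw [← hT, ← pow_add]; congr 1; omega
  -- a good cell in the middle
  set Mi : Finset ℕ := Ico ((4 * s + 1) * P) ((4 * s + 3) * P) with hMi
  have hcard : (S1 ∪ S2).card < Mi.card := by
    have h3 := card_union_le S1 S2
    have h4 : Mi.card = 2 * P := by
      rw [hMi, Nat.card_Ico]
      have : (4 * s + 3) * P = (4 * s + 1) * P + 2 * P := by ring
      omega
    rw [h4]
    rw [hT] at hS1 hS2
    omega
  obtain ⟨t, htM, htS⟩ := exists_mem_notMem_of_card_lt_card hcard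
  rw [mem_union, not_or] at htS
  rw [hMi, mem_Ico] at htM
  have ht : t < 2 ^ (L - Lp) := by
    rw [hT]
    have : (4 * s + 3) * P ≤ 8 * P := Nat.mul_le_mul_right P (by omega)
    omega
  refine ⟨ip * 2 ^ (L - Lp) + t, ?_, ?_, h1 t ht htS.1, h2 t ht htS.2⟩
  · rw [hLL, hT]
    rw [hT] at ht
    have : (ip + 1) * (8 * P) ≤ 2 ^ Lp * (8 * P) := Nat.mul_le_mul_right _ hip
    have h5 : (ip + 1) * (8 * P) = ip * (8 * P) + 8 * P := by ring
    omega
  · unfold Mid
    rw [hP, hT]
    have e1 : (8 * ip + 4 * s + 1) * P = ip * (8 * P) + (4 * s + 1) * P := by ring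
    have e2 : (8 * ip + 4 * s + 3) * P = ip * (8 * P) + (4 * s + 3) * P := by ring
    rw [e1, e2]
    omega

end OWD
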