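import Pool.Agent.H22.OW.Growth

/-!
MP_9d9f9c_lc: the final path.
-/

open Finset

namespace OWD

variable {μ : ℕ → ℕ → ℕ → ℝ}

/-- The relocation step with the data of stage `n`. -/
noncomputable def ex (μ : ℕ → ℕ → ℕ → ℝ) (n : ℕ) (t : Tr) : Tr :=
  expi μ n (run μ n).N (run μ n).E t

/-- The extension step with the data of stage `n`. -/
noncomputable def et (μ : ℕ → ℕ → ℕ → ℝ) (n : ℕ) (t : Tr) : Tr :=
  ext μ n (run μ n).N (run μ n).E t

/-- Expiry with the data of stage `n`. -/
def Ep (μ : ℕ → ℕ → ℕ → ℝ) (n : ℕ) (r : Rec) : Prop := Expired (run μ n).N (run μ n).E r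

/-- Placement with the data of stage `n`. -/
noncomputable def pl (μ : ℕ → ℕ → ℕ → ℝ) (n : ℕ) (r : Rec) : Rec :=
  place μ n (run μ n).N (run μ n).E r

open Classical in
/-- The history of a subtree whose root record is final. -/
structure SubRun (μ : ℕ → ℕ → ℕ → ℝ) (T : ℕ → Tr) (n0 : ℕ) (ev : ℕ → Prop) (P : ℕ → ℝ)
    (r : Rec) : Prop where
  ok : ∀ n, n0 ≤ n → TrOK μ n (run μ n).N (run μ n).E (T n)
  evo : ∀ n, n0 ≤ n → T (n + 1) = if ev n then et μ n (ex μ n (T n)) else ex μ n (T n)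
  root : ∀ n, n0 ≤ n → (T n).rt = r
  live : ∀ n, n0 ≤ n → ¬ Ep μ n r
  inf : ∀ m, ∃ n, m ≤ n ∧ ev n
  bound : ∀ n, n0 ≤ n → ev n → P n + Phi μ n (ex μ n (T n)) ≤ 1
  mem : ∀ n, n0 ≤ n → ∀ q, Tr.Mem q (T n) → Tr.Mem q (run μ n).t

/-- Left subtree. -/
def Tr.lft : Tr → Tr
  | .leaf r => .leaf r
  | .node _ l _ => l

/-- Right subtree. -/
def Tr.rgt : Tr → Tr
  | .leaf r => .leaf r
  | .node _ _ t => t

/-- A record that only changes by relocation changes only finitely often. -/
theorem finite_expiry (hμ : Adv μ) (hL : LocHyp μ) {R : ℕ → Rec} {n1 : ℕ}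
    (hok : ∀ n, n1 ≤ n → RecOK μ n (run μ n).N (run μ n).E (R n))
    (h1 : ∀ n, n1 ≤ n → ¬ Ep μ n (R n) → R (n + 1) = R n)
    (h2 : ∀ n, n1 ≤ n → Ep μ n (R n) → R (n + 1) = pl μ n (R n)) :
    ∃ n2, n1 ≤ n2 ∧ ∀ n, n2 ≤ n → R n = R n2 ∧ ¬ Ep μ n (R n2) := by
  -- birth values
  set b : ℕ → ℝ := fun n => ((R n).bN : ℝ) / 2 ^ (R n).bE with hb
  have hlife : ∀ k, life (R (n1 + k)) = life (R n1) := by
    intro k
    induction k with
    | zero => rfl
    | succ k ih =>
      by_cases he : Ep μ (n1 + k) (R (n1 + k))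
      · rw [← add_assoc, h2 _ (by omega) he, ← ih]; rfl
      · rw [← add_assoc, h1 _ (by omega) he, ih]
  have hlife' : ∀ n, n1 ≤ n → life (R n) = life (R n1) := by
    intro n hn
    obtain ⟨k, rfl⟩ := Nat.exists_eq_add_of_le hn
    exact hlife k
  have hage : ∀ n, n1 ≤ n → b n ≤ beta μ n := by
    intro n hn
    have := (hok n hn).age0
    unfold age at this
    simp only [hb, beta]; linarith
  have hexp : ∀ n, n1 ≤ n → Ep μ n (R n) → b (n + 1) = beta μ n := by
    intro n hn he
    simp only [hb]; rw [h2 n hn he]; rfl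
  have hexp2 : ∀ n, n1 ≤ n → Ep μ n (R n) → b n + life (R n1) ≤ beta μ n := by
    intro n hn he
    have := he.2
    rw [hlife' n hn] at this
    unfold age at this
    simp only [hb, beta]; linarith
  have hstep : ∀ n, n1 ≤ n → b n ≤ b (n + 1) := by
    intro n hn
    by_cases he : Ep μ n (R n)
    · rw [hexp n hn he]; exact hage n hn
    · simp only [hb]; rw [h1 n hn he]
  have hmono : ∀ n, n1 ≤ n → ∀ k, b n ≤ b (n + k) := by
    intro n hn k
    induction k with
    | zero => exact le_rfl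
    | succ k ih => exact ih.trans (hstep _ (by omega))
  by_contra hcon
  push Not at hcon
  have hinf : ∀ n, n1 ≤ n → ∃ n', n ≤ n' ∧ Ep μ n' (R n') := by
    intro n hn
    by_contra hc
    push Not at hc
    have hconst : ∀ k, R (n + k) = R n := by
      intro k
      induction k with
      | zero => rfl
      | succ k ih => rw [← add_assoc, h1 _ (by omega) (hc _ (by omega)), ih]
    obtain ⟨n', hn', h3⟩ := hcon n hn
    obtain ⟨k, rfl⟩ := Nat.exists_eq_add_of_le hn'
    have h4 := h3 (hconst k)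
    have h5 := hc (n + k) hn'
    rw [hconst k] at h5
    exact h5 h4
  have hgrow : ∀ k : ℕ, ∃ n, n1 ≤ n ∧ b n1 + k * life (R n1) ≤ b n := by
    intro k
    induction k with
    | zero => exact ⟨n1, le_rfl, by simp⟩
    | succ k ih =>
      obtain ⟨n, hn, h3⟩ := ih
      obtain ⟨n', hn', he⟩ := hinf n hn
      obtain ⟨j, rfl⟩ := Nat.exists_eq_add_of_le hn'
      refine ⟨n + j + 1, by omega, ?_⟩
      have h4 := hmono n hn j
      have h5 := hexp (n + j) (by omega) he
      have h6 := hexp2 (n + j) (by omega) he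
      push_cast
      linarith
  have hpos := life_pos (R n1)
  obtain ⟨k, hk⟩ := exists_nat_gt ((14 - b n1) / life (R n1))
  obtain ⟨n, hn, h3⟩ := hgrow k
  have h4 := hage n hn
  have h5 := beta_le hμ hL n
  rw [div_lt_iff₀ hpos] at hk
  linarith

theorem ex_node {n : ℕ} {r : Rec} {l t : Tr} (h : ¬ Ep μ n r) :
    ex μ n (.node r l t) = .node r (ex μ n l) (ex μ n t) := if_neg h

theorem ex_rt_neg {n : ℕ} {t : Tr} (h : ¬ Ep μ n t.rt) : (ex μ n t).rt = t.rt := by
  rcases expi_rt (μ := μ) (n := n) (N := (run μ n).N) (E := (run μ n).E) t with h1 | ⟨h1, _⟩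
  · exact h1
  · exact absurd h1 h

theorem ex_rt_pos {n : ℕ} {t : Tr} (h : Ep μ n t.rt) : (ex μ n t).rt = pl μ n t.rt := by
  cases t with
  | leaf r => 
    have : ex μ n (.leaf r) = .leaf (pl μ n r) := if_pos h
    rw [this]; rfl
  | node r l t =>
    have : ex μ n (.node r l t) = .leaf (pl μ n r) := if_pos h
    rw [this]; rfl

theorem xr_le_Phi (hμ : Adv μ) {n N E : ℕ} {t : Tr} (h : TrOK μ n N E t) :
    xr μ n t.rt ≤ Phi μ n t := by
  induction t with
  | leaf r => exact le_rfl
  | node r l t ihl iht =>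
    have h1 := (xr_nonneg hμ h.2.1.rt.tau).trans (ihl h.2.1)
    have h2 := (xr_nonneg hμ h.2.2.1.rt.tau).trans (iht h.2.2.1)
    have h3 : 0 ≤ min (Phi μ n l) (Phi μ n t) := le_min h1 h2
    simp only [Phi, rt_node]; linarith

open Classical in
theorem SubRun.next (hμ : Adv μ) (hL : LocHyp μ) {T : ℕ → Tr} {n0 : ℕ} {ev : ℕ → Prop}
    {P : ℕ → ℝ} {r : Rec} (h : SubRun μ T n0 ev P r) :
    ∃ (T' : ℕ → Tr) (n0' : ℕ) (ev' : ℕ → Prop) (r' : Rec),
      SubRun μ T' n0' ev' (fun n => P n + xr μ n r) r' ∧ IsCh r r' := by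
  obtain ⟨n1, hn1, hev1⟩ := h.inf n0
  -- from `n1 + 1` on the tree is a node
  have hnode : ∀ n, n1 + 1 ≤ n → T n = .node r (T n).lft (T n).rgt := by
    intro n hn
    induction n, hn using Nat.le_induction with
    | base =>
      have h1 := h.evo n1 hn1
      rw [if_pos hev1] at h1
      have h2 := h.root (n1 + 1) (by omega)
      rw [h1] at h2 ⊢
      have key : ∀ t : Tr, ∃ a b, et μ n1 t = .node t.rt a b := by
        intro t
        cases t with
        | leaf q => exact ⟨_, _, rfl⟩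
        | node q a b =>
          by_cases hc : Phi μ n1 a ≤ Phi μ n1 b
          · exact ⟨_, _, if_pos hc⟩
          · exact ⟨_, _, if_neg hc⟩
      obtain ⟨a, b, hab⟩ := key (ex μ n1 (T n1))
      rw [hab] at h2 ⊢
      rw [rt_node] at h2
      rw [h2]; rfl
    | succ n hn ih =>
      have h1 := h.evo n (by omega)
      have h2 := h.live n (by omega)
      rw [ih, ex_node h2] at h1
      rw [h1]
      split_ifs with hev
      · by_cases hc : Phi μ n (ex μ n (T n).lft) ≤ Phi μ n (ex μ n (T n).rgt)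
        · have : et μ n (.node r (ex μ n (T n).lft) (ex μ n (T n).rgt)) =
            .node r (et μ n (ex μ n (T n).lft)) (.leaf (child μ n (run μ n).N (run μ n).E r 1)) :=
            if_pos hc
          rw [this]; rfl
        · have : et μ n (.node r (ex μ n (T n).lft) (ex μ n (T n).rgt)) =
            .node r (ex μ n (T n).lft) (et μ n (ex μ n (T n).rgt)) := if_neg hc
          rw [this]; rfl
      · rfl
  -- evolution of the two subtrees
  have hstep : ∀ n, n1 + 1 ≤ n →
      (ev n → Phi μ n (ex μ n (T n).lft) ≤ Phi μ n (ex μ n (T n).rgt) →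
        (T (n + 1)).lft = et μ n (ex μ n (T n).lft)) ∧
      (ev n → ¬ Phi μ n (ex μ n (T n).lft) ≤ Phi μ n (ex μ n (T n).rgt) →
        (T (n + 1)).lft = ex μ n (T n).lft ∧ (T (n + 1)).rgt = et μ n (ex μ n (T n).rgt)) ∧
      (¬ ev n → (T (n + 1)).lft = ex μ n (T n).lft ∧ (T (n + 1)).rgt = ex μ n (T n).rgt) := by
    intro n hn
    have h1 := h.evo n (by omega)
    have h2 := h.live n (by omega)
    rw [hnode n hn, ex_node h2] at h1
    refine ⟨fun he hc => ?_, fun he hc => ?_, fun he => ?_⟩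
    · rw [if_pos he] at h1
      have : et μ n (.node r (ex μ n (T n).lft) (ex μ n (T n).rgt)) =
        .node r (et μ n (ex μ n (T n).lft)) (.leaf (child μ n (run μ n).N (run μ n).E r 1)) :=
        if_pos hc
      rw [h1, this]; rfl
    · rw [if_pos he] at h1
      have : et μ n (.node r (ex μ n (T n).lft) (ex μ n (T n).rgt)) =
        .node r (ex μ n (T n).lft) (et μ n (ex μ n (T n).rgt)) := if_neg hc
      rw [h1, this]; exact ⟨rfl, rfl⟩
    · rw [if_neg he] at h1
      rw [h1]; exact ⟨rfl, rfl⟩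
  have hok : ∀ n, n1 + 1 ≤ n → TrOK μ n (run μ n).N (run μ n).E (.node r (T n).lft (T n).rgt) := by
    intro n hn
    rw [← hnode n hn]; exact h.ok n (by omega)
  have hPhi : ∀ n, n1 + 1 ≤ n → Phi μ n (ex μ n (T n)) =
      xr μ n r + min (Phi μ n (ex μ n (T n).lft)) (Phi μ n (ex μ n (T n).rgt)) := by
    intro n hn
    conv_lhs => rw [hnode n hn, ex_node (h.live n (by omega))]
    rfl
  by_cases hcase : ∀ m, ∃ n, m ≤ n ∧ ev n ∧
      Phi μ n (ex μ n (T n).lft) ≤ Phi μ n (ex μ n (T n).rgt)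
  · -- infinitely many events go to the left
    have hev' : ∀ n, n1 + 1 ≤ n → (T (n + 1)).lft =
        if (ev n ∧ Phi μ n (ex μ n (T n).lft) ≤ Phi μ n (ex μ n (T n).rgt)) then
          et μ n (ex μ n (T n).lft) else ex μ n (T n).lft := by
      intro n hn
      obtain ⟨s1, s2, s3⟩ := hstep n hn
      split_ifs with hc
      · exact s1 hc.1 hc.2
      · by_cases he : ev n
        · exact (s2 he (fun hc' => hc ⟨he, hc'⟩)).1
        · exact (s3 he).1
    have hrt : ∀ n, n1 + 1 ≤ n → (T (n + 1)).lft.rt = (ex μ n (T n).lft).rt := by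
      intro n hn
      rw [hev' n hn]
      split_ifs
      · exact ext_rt _
      · rfl
    obtain ⟨n2, hn2, hfin⟩ := finite_expiry hμ hL (R := fun n => (T n).lft.rt) (n1 := n1 + 1)
      (fun n hn => (hok n hn).2.1.rt)
      (fun n hn he => (hrt n hn).trans (ex_rt_neg he))
      (fun n hn he => (hrt n hn).trans (ex_rt_pos he))
    refine ⟨fun n => (T n).lft, n2,
      fun n => ev n ∧ Phi μ n (ex μ n (T n).lft) ≤ Phi μ n (ex μ n (T n).rgt),
      (T n2).lft.rt, ⟨fun n hn => (hok n (by omega)).2.1, ?_, fun n hn => (hfin n hn).1,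
        fun n hn => (hfin n hn).2, hcase, ?_, ?_⟩, (hok n2 hn2).2.2.2.1⟩
    · intro n hn
      have h1 := hev' n (by omega)
      rw [h1]
      by_cases hc : ev n ∧ Phi μ n (ex μ n (T n).lft) ≤ Phi μ n (ex μ n (T n).rgt)
      · rw [if_pos hc, if_pos hc]
      · rw [if_neg hc, if_neg hc]
    · intro n hn he
      have h1 := h.bound n (by omega) he.1
      rw [hPhi n (by omega), min_eq_left he.2] at h1
      linarith
    · intro n hn q hq
      apply h.mem n (by omega)
      rw [hnode n (by omega)]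
      exact Or.inr (Or.inl hq)
  · -- finitely many events go to the left
    push Not at hcase
    obtain ⟨m, hm⟩ := hcase
    have hm' : ∀ n, max m (n1 + 1) ≤ n → ev n →
        ¬ Phi μ n (ex μ n (T n).lft) ≤ Phi μ n (ex μ n (T n).rgt) := by
      intro n hn he
      exact not_le.2 (hm n (le_of_max_le_left hn) he)
    have hev' : ∀ n, max m (n1 + 1) ≤ n → (T (n + 1)).rgt =
        if ev n then et μ n (ex μ n (T n).rgt) else ex μ n (T n).rgt := by
      intro n hn
      obtain ⟨s1, s2, s3⟩ := hstep n (le_of_max_le_right hn)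
      split_ifs with hc
      · exact (s2 hc (hm' n hn hc)).2
      · exact (s3 hc).2
    have hrt : ∀ n, max m (n1 + 1) ≤ n → (T (n + 1)).rgt.rt = (ex μ n (T n).rgt).rt := by
      intro n hn
      rw [hev' n hn]
      split_ifs
      · exact ext_rt _
      · rfl
    obtain ⟨n2, hn2, hfin⟩ := finite_expiry hμ hL (R := fun n => (T n).rgt.rt)
      (n1 := max m (n1 + 1))
      (fun n hn => (hok n (le_of_max_le_right hn)).2.2.1.rt)
      (fun n hn he => (hrt n hn).trans (ex_rt_neg he))
      (fun n hn he => (hrt n hn).trans (ex_rt_pos he))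
    have hn2' : n1 + 1 ≤ n2 := le_of_max_le_right hn2
    refine ⟨fun n => (T n).rgt, n2, ev,
      (T n2).rgt.rt, ⟨fun n hn => (hok n (by omega)).2.2.1, ?_, fun n hn => (hfin n hn).1,
        fun n hn => (hfin n hn).2, h.inf, ?_, ?_⟩, (hok n2 hn2').2.2.2.2.2.1⟩
    · intro n hn
      exact hev' n (hn2.trans hn)
    · intro n hn he
      have h1 := h.bound n (by omega) he
      have h2 := hm' n (hn2.trans hn) he
      rw [hPhi n (by omega), min_eq_right (not_le.1 h2).le] at h1
      linarith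
    · intro n hn q hq
      apply h.mem n (by omega)
      rw [hnode n (by omega)]
      exact Or.inr (Or.inr hq)

/-- The whole run. -/
theorem subRun_zero (hμ : Adv μ) (hL : LocHyp μ) :
    SubRun μ (fun n => (run μ n).t) 0 (XS μ) (fun _ => 0) rootRec := by
  classical
  refine ⟨fun n _ => run_ok hL n, fun n _ => ?_, fun n _ => (rt_run n).1, fun n _ h => h.1 rfl,
    fun m => exists_XS hμ hL m, fun n _ h => ?_, fun n _ q hq => hq⟩
  · exact run_succ_t n
  · rw [zero_add]; exact h

/-- Package for the recursion. -/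
structure Pk (μ : ℕ → ℕ → ℕ → ℝ) where
  T : ℕ → Tr
  n0 : ℕ
  ev : ℕ → Prop
  P : ℕ → ℝ
  r : Rec
  h : SubRun μ T n0 ev P r

theorem exists_finalPath (hμ : Adv μ) (hL : LocHyp μ) : ∃ r, FinalPath μ r := by
  classical
  have hnext : ∀ p : Pk μ, ∃ p' : Pk μ, IsCh p.r p'.r ∧ p'.P = fun n => p.P n + xr μ n p.r := by
    intro p
    obtain ⟨T', n0', ev', r', h', hc⟩ := p.h.next hμ hL
    exact ⟨⟨T', n0', ev', _, r', h'⟩, hc, rfl⟩
  choose nxt hn1 hn2 using hnext
  let p0 : Pk μ := ⟨_, 0, _, _, rootRec, subRun_zero hμ hL⟩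
  let p : ℕ → Pk μ := fun j => Nat.rec p0 (fun _ q => nxt q) j
  have hp0 : p 0 = p0 := rfl
  have hps : ∀ j, p (j + 1) = nxt (p j) := fun j => rfl
  have hch : ∀ j, IsCh (p j).r (p (j + 1)).r := fun j => by rw [hps]; exact hn1 _
  have hP : ∀ j n, (p j).P n = ∑ i ∈ Finset.range j, xr μ n (p i).r := by
    intro j n
    induction j with
    | zero => rw [hp0]; simp [p0]
    | succ j ih => rw [hps, hn2, Finset.sum_range_succ, ← ih]
  have hrec : ∀ j, RecOK μ (p j).n0 (run μ (p j).n0).N (run μ (p j).n0).E (p j).r := by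
    intro j
    have h1 := (p j).h.ok (p j).n0 le_rfl
    have h2 := (p j).h.root (p j).n0 le_rfl
    rw [← h2]; exact h1.rt
  have hd : ∀ j, (p j).r.d = j := by
    intro j
    induction j with
    | zero => rfl
    | succ j ih => rw [(hch j).d, ih]
  refine ⟨fun j => (p j).r, rfl, hch, ?_, ?_, ?_, ?_⟩
  · intro j
    have h1 := (hrec (j + 1)).loc (by rw [hd (j + 1)]; omega)
    have h2 := hch j
    rw [h2.Lp, h2.ip, h2.τp, h2.τpp] at h1
    exact h1
  · intro j
    have := (hrec j).dtau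
    rwa [hd] at this
  · intro j
    refine ⟨(p j).n0, fun n hn => ?_⟩
    apply (p j).h.mem n hn
    rw [← (p j).h.root n hn]; exact mem_rt _
  · intro j n
    obtain ⟨n', hn', he⟩ := (p j).h.inf (max n (p j).n0)
    have h1 := (p j).h.bound n' (le_of_max_le_right hn') he
    have h2 := (p j).h.ok n' (le_of_max_le_right hn')
    have h3 : TrOK μ n' (run μ n').N (run μ n').E (ex μ n' ((p j).T n')) := expi_ok hL h2
    have h4 := xr_le_Phi hμ h3
    have h5 := (p j).h.root n' (le_of_max_le_right hn')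
    have h6 := (p j).h.live n' (le_of_max_le_right hn')
    have h7 : (ex μ n' ((p j).T n')).rt = (p j).r := by
      rw [ex_rt_neg (by rw [h5]; exact h6), h5]
    rw [h7] at h4
    rw [hP] at h1
    have h8 : ∑ i ∈ Finset.range (j + 1), xr μ n (p i).r ≤
        ∑ i ∈ Finset.range (j + 1), xr μ n' (p i).r :=
      Finset.sum_le_sum fun i _ => xr_mono hμ (le_of_max_le_left hn') _
    rw [Finset.sum_range_succ] at h8
    rw [Finset.sum_range_succ] at h8 ⊢
    linarith

end OWD
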