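import Pool.Agent.H22.OW.Cyl
import Pool.Agent.H22.OW.CompA

/-!
MP_9d9f9c_lc: the left-c.e. test given by the construction.
-/

open MeasureTheory Set Filter Topology

namespace OWD

instance cantor_prob : IsProbabilityMeasure cantor := by
  unfold cantor; infer_instance

/-- The test. -/
def Gtest (μ : ℕ → ℕ → ℕ → ℝ) (m : ℕ) : Set (ℕ → Bool) :=
  {Z | ∃ n, m ≤ n ∧ ∃ q, Tr.Mem q (run μ n).t ∧ q.d ≠ 0 ∧
    1 / (2 : ℝ) ^ q.L ≤ beta μ n - beta μ m ∧ q.i = val Z q.L}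

/-- The properties of the measure used in `Capacity.lean`. -/
theorem cantor_measOK :
    (cantor ∅).toReal = 0 ∧ (∀ s t : Set (ℕ → Bool), s ⊆ t → (cantor s).toReal ≤ (cantor t).toReal) ∧
    (∀ s t : Set (ℕ → Bool), (cantor (s ∪ t)).toReal ≤ (cantor s).toReal + (cantor t).toReal) ∧
    (∀ L i : ℕ, (cantor {Z | val Z L = i}).toReal ≤ 1 / 2 ^ L) ∧
    (∀ L i : ℕ, {Z | val Z (L + 1) = i} ⊆ {Z | val Z L = i / 2}) := by
  refine ⟨by simp, fun s t h => ?_, fun s t => ?_, fun L i => ?_, fun L i Z hZ => ?_⟩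
  · exact ENNReal.toReal_mono (measure_ne_top _ _) (measure_mono h)
  · rw [← ENNReal.toReal_add (measure_ne_top _ _) (measure_ne_top _ _)]
    exact ENNReal.toReal_mono (ENNReal.add_ne_top.2 ⟨measure_ne_top _ _, measure_ne_top _ _⟩)
      (measure_union_le s t)
  · by_cases hi : i < 2 ^ L
    · rw [cantor_cyl L i hi]
      simp
    · have : {Z : ℕ → Bool | val Z L = i} = ∅ := by
        ext Z
        simp only [mem_ofPred_eq, mem_empty_iff_false, iff_false]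
        intro h
        have := val_lt Z L
        omega
      rw [this]
      simp
  · have h : val Z (L + 1) = i := hZ
    change val Z L = i / 2
    rw [← h, val_succ_div]

theorem gtest_leftCE {μ : ℕ → ℕ → ℕ → ℝ}
    (hmono : Monotone (beta μ)) (hb : ∀ n, beta μ n ≤ 13)
    (hcomp : Computable (fun n => ((run μ n).N, (run μ n).E)))
    (hre : REPred (fun p : ℕ × List Bool => ∃ n, p.1 ≤ n ∧ ∃ q,
      Tr.Mem q (run μ n).t ∧ q.d ≠ 0 ∧
      1 / (2 : ℝ) ^ q.L ≤ beta μ n - beta μ p.1 ∧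
      q.L = p.2.length ∧ q.i = valL p.2))
    (hcap : ∀ m n, m ≤ n → (cantor (⋃ k ∈ {k | m ≤ k ∧ k ≤ n}, ⋃ q ∈ {q | Tr.Mem q (run μ k).t ∧
      q.d ≠ 0 ∧ 1 / (2 : ℝ) ^ q.L ≤ beta μ k - beta μ m}, {Z | val Z q.L = q.i})).toReal ≤
        9 * (beta μ n - beta μ m)) :
    LeftCETest (Gtest μ) := by
  have hrat : ∀ s, ((rat ((run μ s).N, 0, 2 ^ (run μ s).E - 1) : ℚ) : ℝ) = beta μ s := by
    intro s
    unfold rat beta
    have h1 : (1 : ℕ) ≤ 2 ^ (run μ s).E := Nat.one_le_two_pow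
    push_cast [Nat.cast_sub h1]
    simp
  have hbdd : BddAbove (range (beta μ)) := ⟨13, by rintro _ ⟨n, rfl⟩; exact hb n⟩
  have hlub : IsLUB (range (beta μ)) (⨆ s, beta μ s) := isLUB_ciSup hbdd
  refine ⟨⟨_, hre, fun m => ?_⟩, fun m Z hZ => ?_, fun s => rat ((run μ s).N, 0, 2 ^ (run μ s).E - 1),
    ⨆ s, beta μ s, ⟨fun s => ((run μ s).N, 0, 2 ^ (run μ s).E - 1), ?_, fun s => rfl⟩, ?_, ?_,
    9, fun m => ?_⟩
  · ext Z
    simp only [Gtest, mem_ofPred_eq, length_pre, valL_pre]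
    constructor
    · rintro ⟨n, h1, q, h2, h3, h4, h5⟩
      exact ⟨q.L, n, h1, q, h2, h3, h4, rfl, h5⟩
    · rintro ⟨k, n, h1, q, h2, h3, h4, h5, h6⟩
      exact ⟨n, h1, q, h2, h3, h4, by rw [h6, h5]⟩
  · obtain ⟨n, h1, q, h2, h3, h4, h5⟩ := hZ
    refine ⟨n, by omega, q, h2, h3, h4.trans ?_, h5⟩
    have := hmono (Nat.le_succ m)
    rw [Nat.succ_eq_add_one] at this
    linarith
  · have h1 : Primrec fun p : ℕ × ℕ => (p.1, 0, 2 ^ p.2 - 1) := by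
      refine Primrec.pair Primrec.fst (Primrec.pair (Primrec.const 0) ?_)
      exact Primrec.nat_sub.comp (Cp.pow_pr (Primrec.const 2) Primrec.snd) (Primrec.const 1)
    exact h1.to_comp.comp hcomp
  · intro a b hab
    have h1 := hmono hab
    rw [← hrat a, ← hrat b] at h1
    exact_mod_cast h1
  · simp only [hrat]
    exact hlub
  · rw [hrat m]
    have hsub : Gtest μ m ⊆ ⋃ n : ℕ, ⋃ k ∈ {k | m ≤ k ∧ k ≤ n}, ⋃ q ∈ {q | Tr.Mem q (run μ k).t ∧
        q.d ≠ 0 ∧ 1 / (2 : ℝ) ^ q.L ≤ beta μ k - beta μ m}, {Z | val Z q.L = q.i} := by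
      rintro Z ⟨n, h1, q, h2, h3, h4, h5⟩
      refine mem_iUnion.2 ⟨n, mem_iUnion₂.2 ⟨n, ⟨h1, le_rfl⟩, mem_iUnion₂.2 ⟨q, ⟨h2, h3, h4⟩, ?_⟩⟩⟩
      exact h5.symm
    refine (measure_mono hsub).trans ?_
    have hmon : Monotone fun n : ℕ => ⋃ k ∈ {k | m ≤ k ∧ k ≤ n}, ⋃ q ∈ {q | Tr.Mem q (run μ k).t ∧
        q.d ≠ 0 ∧ 1 / (2 : ℝ) ^ q.L ≤ beta μ k - beta μ m}, {Z : ℕ → Bool | val Z q.L = q.i} := by
      intro a b hab
      apply biUnion_mono
      · rintro k ⟨h1, h2⟩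
        exact ⟨h1, h2.trans hab⟩
      · intro k _
        exact Subset.rfl
    rw [hmon.measure_iUnion]
    apply iSup_le
    intro n
    rcases Nat.lt_or_ge n m with h | h
    · have : (⋃ k ∈ {k | m ≤ k ∧ k ≤ n}, ⋃ q ∈ {q | Tr.Mem q (run μ k).t ∧
        q.d ≠ 0 ∧ 1 / (2 : ℝ) ^ q.L ≤ beta μ k - beta μ m}, {Z : ℕ → Bool | val Z q.L = q.i}) = ∅ := by
        rw [eq_empty_iff_forall_notMem]
        intro Z hZ
        obtain ⟨k, ⟨h1, h2⟩, _⟩ := mem_iUnion₂.1 hZ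
        omega
      rw [this]
      simp
    · have h1 := hcap m n h
      have h2 : beta μ n ≤ ⨆ s, beta μ s := le_ciSup hbdd n
      rw [← ENNReal.ofReal_toReal (measure_ne_top cantor _)]
      apply ENNReal.ofReal_le_ofReal
      linarith

end OWD
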