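import Pool.Agent.H22.OW.Density
import Pool.Agent.H22.OW.Maximal
import Pool.Agent.H22.OW.Cyl
import Pool.Agent.H22.OW.Adversary
import Pool.Agent.H22.OW.Expansion
import Pool.Agent.H22.OW.Capacity
import Pool.Agent.H22.OW.Path
import Pool.Agent.H22.OW.DensOne
import Pool.Agent.H22.OW.Test
import Pool.Agent.H22.OW.Comp

/-!
MP_9d9f9c_lc: assembly.
-/

open MeasureTheory Set Filter Topology

namespace OWD

/-- The limit point is caught by the test. -/
theorem mem_gtest {μ : ℕ → ℕ → ℕ → ℝ} (hμ : Adv μ) (hL : LocHyp μ) {r : ℕ → Rec}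
    (hr : FinalPath μ r) {z : ℝ}
    (hz : ∀ j, z ∈ Ioo (((r j).i : ℝ) / 2 ^ (r j).L) ((((r j).i : ℝ) + 1) / 2 ^ (r j).L))
    (hzd : ∀ L i : ℕ, z ≠ (i : ℝ) / 2 ^ L) {Z : ℕ → Bool} (hZ : binval Z = z) (m : ℕ) :
    Z ∈ Gtest μ m := by
  have hd : ∀ j, (r j).d = j := by
    intro j
    induction j with
    | zero => rw [hr.zero]; rfl
    | succ j ih => rw [(hr.ch j).d, ih]
  have hlev : ∀ j, j ≤ (r j).L := by
    intro j
    induction j with
    | zero => exact Nat.zero_le _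
    | succ j ih => have := (hr.ch j).LL; omega
  have hpos : 0 < beta μ (m + 1) - beta μ m :=
    sub_pos.2 (beta_strictMono (Nat.lt_succ_self m))
  obtain ⟨j, hj⟩ := exists_pow_lt_of_lt_one hpos (by norm_num : (1 / 2 : ℝ) < 1)
  obtain ⟨n0, hn0⟩ := hr.mem (j + 1)
  refine ⟨max n0 (m + 1), by omega, r (j + 1), hn0 _ (le_max_left _ _), ?_, ?_, ?_⟩
  · rw [hd]; omega
  · have h1 : beta μ (m + 1) ≤ beta μ (max n0 (m + 1)) :=
      beta_strictMono.monotone (le_max_right _ _)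
    have h2 : 1 / (2 : ℝ) ^ (r (j + 1)).L ≤ (1 / 2) ^ j := by
      rw [one_div_pow]
      apply one_div_le_one_div_of_le (by positivity)
      exact pow_le_pow_right₀ (by norm_num) (by have := hlev (j + 1); omega)
    linarith
  · have h1 := binval_cell hZ hzd (r (j + 1)).L
    obtain ⟨h2, h3⟩ := hz (j + 1)
    obtain ⟨h4, h5⟩ := h1
    have hp : (0 : ℝ) < 2 ^ (r (j + 1)).L := by positivity
    rw [div_lt_iff₀ hp] at h2
    rw [lt_div_iff₀ hp] at h3
    rw [div_le_iff₀ hp] at h4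
    rw [lt_div_iff₀ hp] at h5
    have h6 : ((r (j + 1)).i : ℝ) < (val Z (r (j + 1)).L : ℝ) + 1 := h2.trans h5
    have h7 : (val Z (r (j + 1)).L : ℝ) < ((r (j + 1)).i : ℝ) + 1 := h4.trans_lt h3
    have h8 : (r (j + 1)).i < val Z (r (j + 1)).L + 1 := by exact_mod_cast h6
    have h9 : val Z (r (j + 1)).L < (r (j + 1)).i + 1 := by exact_mod_cast h7
    omega

/-- There is a density random real that is not OW-random. -/
theorem main : ∃ z ∈ Icc (0 : ℝ) 1, DensityRandom z ∧ ¬ OWRandomReal z := by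
  obtain ⟨M, hM, hAdv, hU, hG⟩ := exists_adversary
  have hcomp := run_computable hM
  have hre := test_re hM
  set μ : ℕ → ℕ → ℕ → ℝ := fun n L i => (M n L i : ℝ) / (4 ^ n * 2 ^ L) with hμ
  have hL : LocHyp μ := fun n m m' L Lp ip s h1 h2 h3 h4 h5 => exists_locOK hAdv h1 h2 h3 h4 h5
  obtain ⟨r, hr⟩ := exists_finalPath hAdv hL
  obtain ⟨z, hz0, hz1, hzd, hz⟩ := exists_point hr
  obtain ⟨Z, hZ⟩ := exists_expansion hz0 hz1
  refine ⟨z, ⟨hz0.le, hz1.le⟩, ⟨⟨Z, hZ, ?_⟩, ?_⟩, ?_⟩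
  · intro G hGu hGm hZG
    obtain ⟨W, κ, hW, hκ, k, hk⟩ := hG G hGu hGm
    obtain ⟨n, hn⟩ := hk Z (mem_iInter.1 hZG k)
    apply avoid hAdv hr hz hW hκ n
    exact mem_iUnion₂.2 ⟨val Z n, hn, binval_cell hZ hzd n⟩
  · rintro C ⟨U, hUo, rfl⟩ hzC
    obtain ⟨W, κ, hW, hsub, hsup⟩ := hU U hUo
    have hz' : ∀ n, z ∉ Wset W n := fun n h => hzC.2 (hsub (mem_iUnion.2 ⟨n, h⟩))
    apply lowerDensity_eq_one (U' := ⋃ n, Wset W n) hz0 hz1 _ (density0 hAdv hr hz hW hz')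
    intro x hx hxC
    have hxU : x ∈ U := by
      by_contra hcon
      exact hxC ⟨⟨hx.1.le, hx.2.le⟩, hcon⟩
    by_cases hdy : ∃ L i : ℕ, x = (i : ℝ) / 2 ^ L
    · exact Or.inr hdy
    · push Not at hdy
      exact Or.inl (hsup x hxU hx.1 hx.2 hdy)
  · rintro ⟨Z', hZ', hOW⟩
    obtain ⟨c1, c2, c3, c4, c5⟩ := cantor_measOK
    have hν : MeasOK (fun s => (cantor s).toReal) (fun L i => {Z | val Z L = i}) :=
      ⟨c1, c2, c3, c4, c5⟩
    have hT : LeftCETest (Gtest μ) := gtest_leftCE beta_strictMono.monotone (beta_le hAdv hL)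
      hcomp hre (fun m n hmn => capacity hL hν hmn)
    exact hOW _ hT (mem_iInter.2 fun m => mem_gtest hAdv hL hr hz hzd hZ' m)

end OWD
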