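import Pool.Agent.H22.OW.Inv

/-!
MP_9d9f9c_lc: the growth counter is bounded.
-/

open Finset

namespace OWD

variable {μ : ℕ → ℕ → ℕ → ℝ} {n N E : ℕ}

theorem Adv.mono' (hμ : Adv μ) {m n : ℕ} (h : m ≤ n) (L i : ℕ) : μ m L i ≤ μ n L i := by
  induction h with
  | refl => exact le_rfl
  | step _ ih => exact ih.trans (hμ.mono _ _ _)

theorem xr_nonneg (hμ : Adv μ) {r : Rec} (h : r.τ ≤ n) : 0 ≤ xr μ n r := by
  unfold xr
  split_ifs
  · exact le_rfl
  · have := hμ.mono' h (r.Lp + 1) (2 * r.ip + r.s)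
    have h2 : (0 : ℝ) ≤ 2 ^ r.L := by positivity
    exact mul_nonneg (by linarith) h2

theorem xr_mono (hμ : Adv μ) {m n : ℕ} (h : m ≤ n) (r : Rec) : xr μ m r ≤ xr μ n r := by
  unfold xr
  split_ifs
  · exact le_rfl
  · have := hμ.mono' h (r.Lp + 1) (2 * r.ip + r.s)
    gcongr

theorem xr_place (r : Rec) : xr μ n (place μ n N E r) = 0 := by
  unfold xr place
  simp

theorem xr_child (r : Rec) (s : ℕ) : xr μ n (child μ n N E r s) = 0 := by
  unfold child; exact xr_place _

/-- The weight of a record in the potential. -/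
noncomputable def psi (μ : ℕ → ℕ → ℕ → ℝ) (n N E : ℕ) (r : Rec) : ℝ :=
  (1 / 2) ^ r.d * xr μ n r * (2 * life r - age N E r)

/-- The potential. -/
noncomputable def Psi (μ : ℕ → ℕ → ℕ → ℝ) (n N E : ℕ) : Tr → ℝ
  | .leaf r => psi μ n N E r
  | .node r l t => psi μ n N E r + Psi μ n N E l + Psi μ n N E t

/-- The weighted sum of `xr`. -/
noncomputable def Sx (μ : ℕ → ℕ → ℕ → ℝ) (n : ℕ) : Tr → ℝ
  | .leaf r => (1 / 2) ^ r.d * xr μ n r
  | .node r l t => (1 / 2) ^ r.d * xr μ n r + Sx μ n l + Sx μ n t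

theorem psi_nonneg (hμ : Adv μ) {r : Rec} (h : RecOK μ n N E r) : 0 ≤ psi μ n N E r := by
  unfold psi
  by_cases hd : r.d = 0
  · have : xr μ n r = 0 := by simp [xr, hd]
    rw [this]; simp
  · have h1 := xr_nonneg hμ h.tau
    have h2 := h.age hd
    have h3 : (0 : ℝ) ≤ (1 / 2) ^ r.d := by positivity
    exact mul_nonneg (mul_nonneg h3 h1) (by linarith)

theorem Psi_nonneg (hμ : Adv μ) {t : Tr} (h : TrOK μ n N E t) : 0 ≤ Psi μ n N E t := by
  induction t with
  | leaf r => exact psi_nonneg hμ h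
  | node r l t ihl iht =>
    have h1 := psi_nonneg hμ h.1
    have h2 := ihl h.2.1
    have h3 := iht h.2.2.1
    simp only [Psi]; linarith

theorem psi_place (r : Rec) : psi μ n N E (place μ n N E r) = 0 := by
  unfold psi; rw [xr_place]; ring

theorem Psi_expi (hμ : Adv μ) {t : Tr} (h : TrOK μ n N E t) :
    Psi μ n N E (expi μ n N E t) ≤ Psi μ n N E t := by
  induction t with
  | leaf r =>
    by_cases h' : Expired N E r
    · simp only [expi, h', if_true, Psi, psi_place]
      exact psi_nonneg hμ h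
    · simp only [expi, h', if_false, Psi]; exact le_rfl
  | node r l t ihl iht =>
    by_cases h' : Expired N E r
    · simp only [expi, h', if_true, Psi, psi_place]
      exact Psi_nonneg hμ h
    · simp only [expi, h', if_false, Psi]
      have h2 := ihl h.2.1
      have h3 := iht h.2.2.1
      linarith

theorem Psi_ext (hμ : Adv μ) {t : Tr} (h : TrOK μ n N E t) :
    Psi μ n N E (ext μ n N E t) ≤ Psi μ n N E t := by
  have hc : ∀ (r : Rec) (s : ℕ), psi μ n N E (child μ n N E r s) = 0 := by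
    intro r s; unfold psi; rw [xr_child]; ring
  induction t with
  | leaf r =>
    simp only [ext, Psi, hc]; linarith
  | node r l t ihl iht =>
    have h2 := ihl h.2.1
    have h3 := iht h.2.2.1
    have h4 := Psi_nonneg hμ h.2.2.1
    by_cases h' : Phi μ n l ≤ Phi μ n t
    · simp only [ext, h', if_true, Psi, hc]; linarith
    · simp only [ext, h', if_false, Psi]; linarith

theorem Psi_grow {N' E' : ℕ} {δ : ℝ} (hN : (N' : ℝ) / 2 ^ E' = (N : ℝ) / 2 ^ E + δ) (t : Tr) :
    Psi μ n N' E' t = Psi μ n N E t - δ * Sx μ n t := by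
  have key : ∀ r : Rec, psi μ n N' E' r =
      psi μ n N E r - δ * ((1 / 2) ^ r.d * xr μ n r) := by
    intro r; unfold psi age; rw [hN]; ring
  induction t with
  | leaf r => simp only [Psi, Sx, key]
  | node r l t ihl iht => simp only [Psi, Sx, key, ihl, iht]; ring

theorem Sx_nonneg (hμ : Adv μ) {t : Tr} (h : TrOK μ n N E t) : 0 ≤ Sx μ n t := by
  have key : ∀ r : Rec, RecOK μ n N E r → 0 ≤ (1 / 2 : ℝ) ^ r.d * xr μ n r := fun r hr =>
    mul_nonneg (by positivity) (xr_nonneg hμ hr.tau)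
  induction t with
  | leaf r => exact key r h
  | node r l t ihl iht =>
    have h1 := key r h.1
    have h2 := ihl h.2.1
    have h3 := iht h.2.2.1
    simp only [Sx]; linarith

theorem Phi_le_Sx {t : Tr} (h : TrOK μ n N E t) : (1 / 2 : ℝ) ^ t.rt.d * Phi μ n t ≤ Sx μ n t := by
  induction t with
  | leaf r => simp only [Phi, Sx, rt_leaf]; exact le_rfl
  | node r l t ihl iht =>
    have h2 := ihl h.2.1
    have h3 := iht h.2.2.1
    have h4 := h.2.2.2.1.d
    have h5 := h.2.2.2.2.2.1.d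
    rw [h4, pow_succ] at h2
    rw [h5, pow_succ] at h3
    simp only [Phi, Sx, rt_node]
    have hp : (0 : ℝ) < (1 / 2) ^ r.d := by positivity
    have h6 : min (Phi μ n l) (Phi μ n t) ≤ (Phi μ n l + Phi μ n t) / 2 := by
      have := min_le_left (Phi μ n l) (Phi μ n t)
      have := min_le_right (Phi μ n l) (Phi μ n t)
      linarith
    have h7 : (1 / 2 : ℝ) ^ r.d * min (Phi μ n l) (Phi μ n t) ≤
      (1 / 2) ^ r.d * ((Phi μ n l + Phi μ n t) / 2) := by gcongr
    nlinarith

/-- A nonnegative additive function of cells is monotone. -/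
theorem cell_le {ν : ℕ → ℕ → ℝ} (h0 : ∀ L i, 0 ≤ ν L i)
    (hs : ∀ L i, ν L i = ν (L + 1) (2 * i) + ν (L + 1) (2 * i + 1)) (L k i : ℕ) :
    ν (L + k) i ≤ ν L (i / 2 ^ k) := by
  induction k generalizing i with
  | zero => simp
  | succ k ih =>
    have h1 : ν (L + (k + 1)) i ≤ ν (L + k) (i / 2) := by
      rw [hs (L + k) (i / 2)]
      have ha := h0 (L + k + 1) (2 * (i / 2))
      have hb := h0 (L + k + 1) (2 * (i / 2) + 1)
      rcases Nat.even_or_odd' i with ⟨j, hj | hj⟩
      · have e : 2 * (i / 2) = i := by omega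
        rw [e] at ha hb ⊢
        rw [← add_assoc]; linarith
      · have e : 2 * (i / 2) + 1 = i := by omega
        rw [e] at hb ⊢
        rw [← add_assoc]; linarith
    refine h1.trans ((ih (i / 2)).trans (le_of_eq ?_))
    rw [Nat.div_div_eq_div_mul, pow_succ, mul_comm 2]

theorem Adv.diff_nonneg (hμ : Adv μ) {m n : ℕ} (h : m ≤ n) (L i : ℕ) :
    0 ≤ μ n L i - μ m L i := sub_nonneg.2 (hμ.mono' h L i)

theorem Adv.diff_split (hμ : Adv μ) (m n : ℕ) (L i : ℕ) :
    μ n L i - μ m L i = (μ n (L + 1) (2 * i) - μ m (L + 1) (2 * i)) +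
      (μ n (L + 1) (2 * i + 1) - μ m (L + 1) (2 * i + 1)) := by
  rw [hμ.split n L i, hμ.split m L i]; ring

theorem Adv.diff_le (hμ : Adv μ) {m n : ℕ} (h : m ≤ n) (L k i : ℕ) :
    μ n (L + k) i - μ m (L + k) i ≤ μ n L (i / 2 ^ k) - μ m L (i / 2 ^ k) :=
  cell_le (ν := fun L i => μ n L i - μ m L i) (fun L i => hμ.diff_nonneg h L i)
    (fun L i => hμ.diff_split m n L i) L k i

/-- The added mass of the cell of a record is at most the added mass of its slot. -/
theorem RecOK.slot (hμ : Adv μ) {n' : ℕ} {r : Rec} (h : RecOK μ n' N E r) (hd : r.d ≠ 0) {a b : ℕ}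
    (hab : a ≤ b) : μ b r.L r.i - μ a r.L r.i ≤
      μ b (r.Lp + 1) (2 * r.ip + r.s) - μ a (r.Lp + 1) (2 * r.ip + r.s) := by
  have h1 := h.LL hd
  have h2 := ((h.loc hd).1.div (by omega) h.ss).1
  have h3 := hμ.diff_le hab (r.Lp + 1) (r.L - r.Lp - 1) r.i
  rw [h2] at h3
  have e : r.Lp + 1 + (r.L - r.Lp - 1) = r.L := by omega
  rwa [e] at h3

theorem psi_mu (hμ : Adv μ) {n' : ℕ} {r : Rec} (h : RecOK μ n' N E r) (hd : r.d ≠ 0) :
    psi μ (n + 1) N E r - psi μ n N E r ≤ 2 * (3 / 4) ^ r.d *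
      (μ (n + 1) (r.Lp + 1) (2 * r.ip + r.s) - μ n (r.Lp + 1) (2 * r.ip + r.s)) := by
  have hD := hμ.diff_nonneg (Nat.le_succ n) (r.Lp + 1) (2 * r.ip + r.s)
  rw [Nat.succ_eq_add_one] at hD
  set D := μ (n + 1) (r.Lp + 1) (2 * r.ip + r.s) - μ n (r.Lp + 1) (2 * r.ip + r.s) with hDdef
  have e1 : xr μ (n + 1) r - xr μ n r = D * 2 ^ r.L := by
    simp only [xr, hd, if_false]; rw [hDdef]; ring
  have e2 : psi μ (n + 1) N E r - psi μ n N E r =
      (1 / 2) ^ r.d * (D * 2 ^ r.L) * (2 * life r - age N E r) := by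
    rw [← e1]; unfold psi; ring
  rw [e2]
  have hage := h.age0
  have h3 : (1 / 2 : ℝ) ^ r.d * (D * 2 ^ r.L) * (2 * life r - age N E r) ≤
      (1 / 2) ^ r.d * (D * 2 ^ r.L) * (2 * life r) := by
    apply mul_le_mul_of_nonneg_left (by linarith) (by positivity)
  refine h3.trans (le_of_eq ?_)
  unfold life
  have e3 : (3 / 4 : ℝ) ^ r.d = (1 / 2) ^ r.d * (3 / 2) ^ r.d := by
    rw [← mul_pow]; norm_num
  rw [e3]
  field_simp

/-- Growth of the potential with the adversary, for the subtree of a record of positive depth. -/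
theorem Psi_mu (hμ : Adv μ) {n' : ℕ} {t : Tr} (h : TrOK μ n' N E t) (hd : t.rt.d ≠ 0) :
    Psi μ (n + 1) N E t - Psi μ n N E t ≤ 8 * (3 / 4) ^ t.rt.d *
      (μ (n + 1) (t.rt.Lp + 1) (2 * t.rt.ip + t.rt.s) -
        μ n (t.rt.Lp + 1) (2 * t.rt.ip + t.rt.s)) := by
  induction t with
  | leaf r =>
    simp only [Psi, rt_leaf] at hd ⊢
    have h1 := psi_mu (n := n) hμ h hd
    have hD := hμ.diff_nonneg (Nat.le_succ n) (r.Lp + 1) (2 * r.ip + r.s)
    rw [Nat.succ_eq_add_one] at hD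
    have hp : (0 : ℝ) < (3 / 4) ^ r.d := by positivity
    refine h1.trans ?_
    apply mul_le_mul_of_nonneg_right _ hD
    linarith
  | node r l t ihl iht =>
    simp only [rt_node] at hd
    obtain ⟨h1, h2, h3, h4, h5, h6, h7, h8⟩ := h
    have a1 := ihl h2 (by rw [h4.d]; omega)
    have a2 := iht h3 (by rw [h6.d]; omega)
    have a3 := psi_mu (n := n) hμ h1 hd
    have a4 := h1.slot hμ hd (Nat.le_succ n)
    have a5 := hμ.diff_split n (n + 1) r.L r.i
    rw [Nat.succ_eq_add_one] at a4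
    rw [h4.d, h4.Lp, h4.ip, h5] at a1
    rw [h6.d, h6.Lp, h6.ip, h7] at a2
    simp only [Psi, rt_node]
    rw [add_zero] at a1
    have hp : (0 : ℝ) < (3 / 4) ^ r.d := by positivity
    have a6 : 8 * (3 / 4 : ℝ) ^ (r.d + 1) * (μ (n + 1) (r.L + 1) (2 * r.i) -
        μ n (r.L + 1) (2 * r.i)) + 8 * (3 / 4) ^ (r.d + 1) *
        (μ (n + 1) (r.L + 1) (2 * r.i + 1) - μ n (r.L + 1) (2 * r.i + 1)) =
        6 * (3 / 4) ^ r.d * (μ (n + 1) r.L r.i - μ n r.L r.i) := by
      rw [a5, pow_succ]; ring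
    have a7 : 6 * (3 / 4 : ℝ) ^ r.d * (μ (n + 1) r.L r.i - μ n r.L r.i) ≤
        6 * (3 / 4) ^ r.d * (μ (n + 1) (r.Lp + 1) (2 * r.ip + r.s) -
          μ n (r.Lp + 1) (2 * r.ip + r.s)) := by
      apply mul_le_mul_of_nonneg_left a4 (by positivity)
    linarith

/-- Growth of the potential with the adversary, for the whole tree. -/
theorem Psi_mu_root (hμ : Adv μ) {n' : ℕ} {t : Tr} (h : TrOK μ n' N E t) (hr : t.rt = rootRec) :
    Psi μ (n + 1) N E t - Psi μ n N E t ≤ 6 * (μ (n + 1) 0 0 - μ n 0 0) := by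
  have hD := hμ.diff_nonneg (Nat.le_succ n) 0 0
  rw [Nat.succ_eq_add_one] at hD
  have hroot : ∀ m, psi μ m N E rootRec = 0 := by
    intro m; simp [psi, xr, rootRec]
  cases t with
  | leaf r =>
    simp only [rt_leaf] at hr
    subst hr
    simp only [Psi, hroot]; linarith
  | node r l t =>
    simp only [rt_node] at hr
    subst hr
    obtain ⟨h1, h2, h3, h4, h5, h6, h7, h8⟩ := h
    have a1 := Psi_mu (n := n) hμ h2 (by rw [h4.d]; omega)
    have a2 := Psi_mu (n := n) hμ h3 (by rw [h6.d]; omega)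
    have a5 := hμ.diff_split n (n + 1) 0 0
    rw [h4.d, h4.Lp, h4.ip, h5] at a1
    rw [h6.d, h6.Lp, h6.ip, h7] at a2
    simp only [Psi, hroot]
    simp only [rootRec] at a1 a2
    norm_num at a1 a2 a5
    linarith

theorem Sx_ext_nonneg (hμ : Adv μ) {t : Tr} (h : TrOK μ n N E t) :
    0 ≤ Sx μ n (ext μ n N E t) := by
  have key : ∀ r : Rec, RecOK μ n N E r → 0 ≤ (1 / 2 : ℝ) ^ r.d * xr μ n r := fun r hr =>
    mul_nonneg (by positivity) (xr_nonneg hμ hr.tau)
  induction t with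
  | leaf r =>
    have := key r h
    simp only [ext, Sx, xr_child]; linarith
  | node r l t ihl iht =>
    have h1 := key r h.1
    have h2 := ihl h.2.1
    have h3 := iht h.2.2.1
    have h4 := Sx_nonneg hμ h.2.1
    by_cases h' : Phi μ n l ≤ Phi μ n t
    · simp only [ext, h', if_true, Sx, xr_child]; linarith
    · simp only [ext, h', if_false, Sx]; linarith

/-- The invariant for the growth. -/
theorem growth_inv (hμ : Adv μ) (hL : LocHyp μ) (n : ℕ) :
    beta μ n + Psi μ n (run μ n).N (run μ n).E (run μ n).t ≤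
      6 * μ n 0 0 + 1 - 1 / 2 ^ (run μ n).E := by
  induction n with
  | zero =>
    simp [beta, run, Psi, psi, xr, rootRec, hμ.zero]
  | succ n ih =>
    have h0 := run_ok (μ := μ) hL n
    have h1 := tre_ok (μ := μ) hL n
    have h2 := Psi_expi hμ h0
    have hroot := (rt_run (μ := μ) (n + 1)).1
    have hrun := run_ok (μ := μ) hL (n + 1)
    have a3 := Psi_mu_root (n := n) hμ hrun hroot
    have hE := E_succ (μ := μ) n
    have ht := run_succ_t (μ := μ) n
    have hb := beta_succ (μ := μ) n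
    have hb' : ((run μ (n + 1)).N : ℝ) / 2 ^ (run μ (n + 1)).E =
        ((run μ n).N : ℝ) / 2 ^ (run μ n).E + 1 / 2 ^ (run μ (n + 1)).E := hb
    have a2 := Psi_grow (μ := μ) (n := n) hb' (run μ (n + 1)).t
    have hδ : (0 : ℝ) < 1 / 2 ^ (run μ (n + 1)).E := by positivity
    by_cases hX : XS μ n
    · rw [if_pos hX] at hE ht
      have a1 := Psi_ext hμ h1
      have a4 := Sx_ext_nonneg hμ h1
      rw [← ht] at a1 a4
      have a5 : 2 * (1 / (2 : ℝ) ^ (run μ (n + 1)).E) ≤ 1 / 2 ^ (run μ n).E := by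
        rw [hE, pow_add, show 3 * n + 6 = (3 * n + 5) + 1 from rfl, pow_succ]
        have h6 : (1 : ℝ) ≤ 2 ^ (3 * n + 5) := one_le_pow₀ (by norm_num)
        rw [show 2 * (1 / ((2 : ℝ) ^ (run μ n).E * (2 ^ (3 * n + 5) * 2))) =
          1 / ((2 : ℝ) ^ (run μ n).E * 2 ^ (3 * n + 5)) by field_simp]
        apply one_div_le_one_div_of_le (by positivity)
        exact le_mul_of_one_le_right (by positivity) h6
      have a6 : 0 ≤ 1 / (2 : ℝ) ^ (run μ (n + 1)).E * Sx μ n (run μ (n + 1)).t :=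
        mul_nonneg hδ.le a4
      unfold tre at a1
      linarith
    · rw [if_neg hX] at hE ht
      have a4 := Phi_le_Sx h1
      rw [(rt_run (μ := μ) n).2] at a4
      have a5 : 1 < Sx μ n (tre μ n) := by
        have : (1 : ℝ) < Phi μ n (tre μ n) := not_le.1 hX
        simp only [rootRec, pow_zero, one_mul] at a4
        linarith
      rw [ht] at a2 a3
      rw [ht]
      have a6 : 1 / (2 : ℝ) ^ (run μ (n + 1)).E < 1 / (2 : ℝ) ^ (run μ (n + 1)).E *
          Sx μ n (tre μ n) := by nlinarith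
      rw [hE] at a2 a3 a6 hb ⊢
      unfold tre at a2 a3 a6 h1 h2 ⊢
      linarith

theorem beta_le (hμ : Adv μ) (hL : LocHyp μ) (n : ℕ) : beta μ n ≤ 13 := by
  have h1 := growth_inv hμ hL n
  have h2 := Psi_nonneg hμ (run_ok (μ := μ) hL n)
  have h3 := hμ.total n
  have h4 : (0 : ℝ) < 1 / 2 ^ (run μ n).E := by positivity
  linarith

theorem beta_strictMono : StrictMono (beta μ) := by
  apply strictMono_nat_of_lt_succ
  intro n
  rw [beta_succ]
  have h4 : (0 : ℝ) < 1 / 2 ^ (run μ (n + 1)).E := by positivity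
  linarith

/-- There are infinitely many extension stages. -/
theorem exists_XS (hμ : Adv μ) (hL : LocHyp μ) (m : ℕ) : ∃ n, m ≤ n ∧ XS μ n := by
  by_contra hcon
  push Not at hcon
  have hE : ∀ k, (run μ (m + k)).E = (run μ m).E := by
    intro k
    induction k with
    | zero => rfl
    | succ k ih =>
      have := E_succ (μ := μ) (m + k)
      rw [if_neg (hcon (m + k) (by omega))] at this
      rw [← add_assoc, this, ih]
  have hb : ∀ k : ℕ, beta μ (m + k) = beta μ m + k * (1 / 2 ^ (run μ m).E) := by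
    intro k
    induction k with
    | zero => simp
    | succ k ih =>
      rw [← add_assoc, beta_succ, ih]
      have := hE (k + 1)
      rw [← add_assoc] at this
      rw [this]; push_cast; ring
  obtain ⟨k, hk⟩ := exists_nat_gt ((14 - beta μ m) * 2 ^ (run μ m).E)
  have h1 := beta_le hμ hL (m + k)
  rw [hb k] at h1
  have h2 : (0 : ℝ) < 2 ^ (run μ m).E := by positivity
  have h3 : 14 - beta μ m < k * (1 / 2 ^ (run μ m).E) := by
    rw [mul_one_div, lt_div_iff₀ h2]; exact hk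
  linarith

end OWD
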