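import Pool.Agent.H22.OW.Fam

/-!
MP_9d9f9c_lc: invariants of the construction.
-/

open Finset

namespace OWD

/-- Existence of locations (proved in `Maximal.lean`). -/
def LocHyp (μ : ℕ → ℕ → ℕ → ℝ) : Prop :=
  ∀ n m m' L Lp ip s : ℕ, Lp + 3 ≤ L → (s = 0 ∨ s = 1) → ip < 2 ^ Lp → m ≤ n → m' ≤ m →
    ∃ i, i ≤ 2 ^ L ∧ LocOK μ n L i Lp ip s m m'

/-- Invariants of a record at a stage with tags `n`, growth counter `N / 2 ^ E`. -/
structure RecOK (μ : ℕ → ℕ → ℕ → ℝ) (n N E : ℕ) (r : Rec) : Prop where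
  lev : r.L ≤ E
  dep : r.d ≤ n
  idx : r.i < 2 ^ r.L
  tau : r.τ ≤ n
  taup : r.τp ≤ r.τ
  taupp : r.τpp ≤ r.τp
  dtau : r.d ≤ r.τ + 1
  root : r.d = 0 → r = rootRec
  LL : r.d ≠ 0 → r.Lp + 4 ≤ r.L
  ss : r.s = 0 ∨ r.s = 1
  ipp : r.ip < 2 ^ r.Lp
  loc : r.d ≠ 0 → LocOK μ r.τ r.L r.i r.Lp r.ip r.s r.τp r.τpp
  age : r.d ≠ 0 → age N E r ≤ 2 * life r
  age0 : 0 ≤ OWD.age N E r

/-- Invariants of a tree. -/
def TrOK (μ : ℕ → ℕ → ℕ → ℝ) (n N E : ℕ) : Tr → Prop
  | .leaf r => RecOK μ n N E r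
  | .node r l t => RecOK μ n N E r ∧ TrOK μ n N E l ∧ TrOK μ n N E t ∧
      IsCh r l.rt ∧ l.rt.s = 0 ∧ IsCh r t.rt ∧ t.rt.s = 1 ∧ l.last < t.rt.L

/-- No record is expired. -/
def Young (N E : ℕ) : Tr → Prop
  | .leaf r => ¬ Expired N E r
  | .node r l t => ¬ Expired N E r ∧ Young N E l ∧ Young N E t

variable {μ : ℕ → ℕ → ℕ → ℝ} {n N E : ℕ}

theorem rt_leaf (r : Rec) : (Tr.leaf r).rt = r := rfl
theorem rt_node (r : Rec) (l t : Tr) : (Tr.node r l t).rt = r := rfl
theorem last_leaf (r : Rec) : (Tr.leaf r).last = r.L := rfl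
theorem last_node (r : Rec) (l t : Tr) : (Tr.node r l t).last = t.last := rfl

theorem life_pos (r : Rec) : 0 < life r := by unfold life; positivity

theorem TrOK.rt {t : Tr} (h : TrOK μ n N E t) : RecOK μ n N E t.rt := by
  cases t with
  | leaf r => exact h
  | node r l t => exact h.1

theorem TrOK.rt_le_last {t : Tr} (h : TrOK μ n N E t) : t.rt.L ≤ t.last := by
  induction t with
  | leaf r => exact le_rfl
  | node r l t _ iht =>
    obtain ⟨_, _, h3, _, _, h6, _, _⟩ := h
    have := iht h3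
    have := h6.LL
    simp only [rt_node, last_node] at *
    omega

theorem TrOK.last_le {t : Tr} (h : TrOK μ n N E t) : t.last ≤ E := by
  induction t with
  | leaf r => exact h.lev
  | node r l t _ iht => exact iht h.2.2.1

theorem mem_le_last {t : Tr} (h : TrOK μ n N E t) {q : Rec} (hq : Tr.Mem q t) :
    t.rt.L ≤ q.L ∧ q.L ≤ t.last := by
  induction t with
  | leaf r => simp only [Tr.Mem] at hq; subst hq; exact ⟨le_rfl, le_rfl⟩
  | node r l t ihl iht =>
    have hlast := h.rt_le_last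
    obtain ⟨h1, h2, h3, h4, h5, h6, h7, h8⟩ := h
    simp only [Tr.Mem] at hq
    simp only [rt_node, last_node] at *
    have h9 := h4.LL
    have h10 := h6.LL
    have h11 := h2.rt_le_last
    have h12 := h3.rt_le_last
    rcases hq with hq | hq | hq
    · subst hq; exact ⟨le_rfl, hlast⟩
    · have := ihl h2 hq; omega
    · have := iht h3 hq; omega

theorem TrOK.mem {t : Tr} (h : TrOK μ n N E t) {q : Rec} (hq : Tr.Mem q t) :
    RecOK μ n N E q := by
  induction t with
  | leaf r => simp only [Tr.Mem] at hq; subst hq; exact h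
  | node r l t ihl iht =>
    obtain ⟨h1, h2, h3, _⟩ := h
    simp only [Tr.Mem] at hq
    rcases hq with hq | hq | hq
    · subst hq; exact h1
    · exact ihl h2 hq
    · exact iht h3 hq

theorem mem_rt (t : Tr) : Tr.Mem t.rt t := by
  cases t with
  | leaf r => rfl
  | node r l t => exact Or.inl rfl

/-- The location found by `loc`. -/
theorem loc_spec (hL : LocHyp μ) {n m m' L Lp ip s : ℕ}
    (h1 : Lp + 3 ≤ L) (hs : s = 0 ∨ s = 1) (hip : ip < 2 ^ Lp) (hm : m ≤ n) (hm' : m' ≤ m) :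
    LocOK μ n L (loc μ n L Lp ip s m m') Lp ip s m m' := by
  classical
  obtain ⟨i, hi, hi'⟩ := hL n m m' L Lp ip s h1 hs hip hm hm'
  unfold loc
  exact Nat.findGreatest_spec (P := fun i => LocOK μ n L i Lp ip s m m') hi hi'

/-- A location in the middle half of a slot is a cell of level `L`. -/
theorem Mid.lt {L i Lp ip s : ℕ} (h : Mid L i Lp ip s) (h1 : Lp + 3 ≤ L) (hs : s = 0 ∨ s = 1)
    (hip : ip < 2 ^ Lp) : i < 2 ^ L := by
  obtain ⟨_, h2⟩ := h
  have h3 : 8 * ip + 4 * s + 3 ≤ 2 ^ (Lp + 3) := by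
    have : 2 ^ (Lp + 3) = 8 * 2 ^ Lp := by rw [pow_add]; ring
    rcases hs with rfl | rfl <;> omega
  calc i < (8 * ip + 4 * s + 3) * 2 ^ (L - Lp - 3) := h2
    _ ≤ 2 ^ (Lp + 3) * 2 ^ (L - Lp - 3) := Nat.mul_le_mul_right _ h3
    _ = 2 ^ L := by rw [← pow_add]; congr 1; omega

theorem Mid.div {L i Lp ip s : ℕ} (h : Mid L i Lp ip s) (h1 : Lp + 3 ≤ L) (hs : s = 0 ∨ s = 1) :
    i / 2 ^ (L - Lp - 1) = 2 * ip + s ∧ i / 2 ^ (L - Lp) = ip := by
  obtain ⟨h2, h3⟩ := h
  obtain ⟨k, rfl⟩ : ∃ k, L = Lp + 3 + k := ⟨L - (Lp + 3), by omega⟩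
  have e1 : Lp + 3 + k - Lp - 3 = k := by omega
  have e2 : Lp + 3 + k - Lp - 1 = k + 2 := by omega
  have e3 : Lp + 3 + k - Lp = k + 3 := by omega
  rw [e1] at h2 h3
  rw [e2, e3]
  have hp : 0 < 2 ^ k := by positivity
  constructor
  · apply Nat.div_eq_of_lt_le
    · calc (2 * ip + s) * 2 ^ (k + 2) = (8 * ip + 4 * s) * 2 ^ k := by rw [pow_add]; ring
        _ ≤ (8 * ip + 4 * s + 1) * 2 ^ k := Nat.mul_le_mul_right _ (by omega)
        _ ≤ i := h2
    · calc i < (8 * ip + 4 * s + 3) * 2 ^ k := h3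
        _ ≤ (8 * ip + 4 * s + 4) * 2 ^ k := Nat.mul_le_mul_right _ (by omega)
        _ = (2 * ip + s + 1) * 2 ^ (k + 2) := by rw [pow_add]; ring
  · apply Nat.div_eq_of_lt_le
    · calc ip * 2 ^ (k + 3) = (8 * ip) * 2 ^ k := by rw [pow_add]; ring
        _ ≤ (8 * ip + 4 * s + 1) * 2 ^ k := Nat.mul_le_mul_right _ (by omega)
        _ ≤ i := h2
    · calc i < (8 * ip + 4 * s + 3) * 2 ^ k := h3
        _ ≤ (8 * ip + 8) * 2 ^ k := Nat.mul_le_mul_right _ (by rcases hs with rfl | rfl <;> omega)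
        _ = (ip + 1) * 2 ^ (k + 3) := by rw [pow_add]; ring

/-! ### Relocation -/

theorem place_ok (hL : LocHyp μ) {r : Rec} (h : RecOK μ n N E r) (hd : r.d ≠ 0) :
    RecOK μ n N E (place μ n N E r) := by
  have h4 := h.LL hd
  have hloc := loc_spec hL (n := n) (m := r.τp) (m' := r.τpp) (L := r.L) (Lp := r.Lp) (ip := r.ip)
    (s := r.s) (by omega) h.ss h.ipp (h.taup.trans h.tau) h.taupp
  refine ⟨h.lev, h.dep, hloc.1.lt (by omega) h.ss h.ipp, le_rfl, h.taup.trans h.tau, h.taupp, ?_,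
    fun h0 => absurd h0 hd, h.LL, h.ss, h.ipp, fun _ => hloc, ?_, ?_⟩
  · have := h.dep; simp only [place]; omega
  · intro _
    have : OWD.age N E (place μ n N E r) = 0 := by simp [OWD.age, place]
    rw [this]
    have := life_pos (place μ n N E r)
    linarith
  · have : OWD.age N E (place μ n N E r) = 0 := by simp [OWD.age, place]
    rw [this]

/-- The root record of the tree after relocation. -/
theorem expi_rt (t : Tr) : (expi μ n N E t).rt = t.rt ∨
    (Expired N E t.rt ∧ (expi μ n N E t) = .leaf (place μ n N E t.rt)) := by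
  cases t with
  | leaf r =>
    by_cases h : Expired N E r
    · right; exact ⟨h, by simp [expi, h, Tr.rt]⟩
    · left; simp [expi, h, Tr.rt]
  | node r l t =>
    by_cases h : Expired N E r
    · right; exact ⟨h, by simp [expi, h, Tr.rt]⟩
    · left; simp [expi, h, Tr.rt]

theorem expi_last {t : Tr} (h : TrOK μ n N E t) : (expi μ n N E t).last ≤ t.last := by
  induction t with
  | leaf r =>
    by_cases h' : Expired N E r
    · simp [expi, h', Tr.last, place]
    · simp [expi, h', Tr.last]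
  | node r l t _ iht =>
    by_cases h' : Expired N E r
    · have := h.rt_le_last
      simpa [expi, h', Tr.last, place, Tr.rt] using this
    · simpa [expi, h', Tr.last] using iht h.2.2.1

/-- Being a child is not changed by relocation. -/
theorem isCh_expi {r : Rec} {t : Tr} (h : TrOK μ n N E t) (hc : IsCh r t.rt) :
    IsCh r (expi μ n N E t).rt ∧ (expi μ n N E t).rt.s = t.rt.s ∧
      (expi μ n N E t).rt.L = t.rt.L := by
  rcases expi_rt (μ := μ) (n := n) (N := N) (E := E) t with h1 | ⟨_, h1⟩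
  · rw [h1]; exact ⟨hc, rfl, rfl⟩
  · rw [h1]
    simp only [Tr.rt]
    exact ⟨⟨hc.d, hc.Lp, hc.ip, hc.s, hc.τp, hc.τpp, (hc.ττ.trans h.rt.tau), hc.LL, hc.τL⟩,
      rfl, rfl⟩

theorem expi_ok (hL : LocHyp μ) {t : Tr} (h : TrOK μ n N E t) :
    TrOK μ n N E (expi μ n N E t) := by
  induction t with
  | leaf r =>
    by_cases h' : Expired N E r
    · simp only [expi, h', if_true]
      exact place_ok hL h h'.1
    · simp only [expi, h', if_false]
      exact h
  | node r l t ihl iht =>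
    by_cases h' : Expired N E r
    · simp only [expi, h', if_true]
      exact place_ok hL h.1 h'.1
    · simp only [expi, h', if_false]
      obtain ⟨h1, h2, h3, h4, h5, h6, h7, h8⟩ := h
      obtain ⟨a1, a2, a3⟩ := isCh_expi h2 h4
      obtain ⟨b1, b2, b3⟩ := isCh_expi h3 h6
      refine ⟨h1, ihl h2, iht h3, a1, a2.trans h5, b1, b2.trans h7, ?_⟩
      rw [b3]
      exact (expi_last h2).trans_lt h8

theorem place_young (r : Rec) : ¬ Expired N E (place μ n N E r) := by
  rintro ⟨_, h2⟩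
  have : OWD.age N E (place μ n N E r) = 0 := by simp [OWD.age, place]
  rw [this] at h2
  exact absurd h2 (not_le.2 (life_pos _))

theorem expi_young (t : Tr) : Young N E (expi μ n N E t) := by
  induction t with
  | leaf r =>
    by_cases h' : Expired N E r
    · simp only [expi, h', if_true, Young]
      exact place_young r
    · simp only [expi, h', if_false, Young, not_false_eq_true]
  | node r l t ihl iht =>
    by_cases h' : Expired N E r
    · simp only [expi, h', if_true, Young]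
      exact place_young r
    · simp only [expi, h', if_false, Young, not_false_eq_true, true_and]
      exact ⟨ihl, iht⟩

/-! ### Growth of the counter -/

theorem RecOK.grow {N' E' : ℕ} {r : Rec} (h : RecOK μ n N E r) (hy : ¬ Expired N E r)
    (hE : E ≤ E') (hN : (N' : ℝ) / 2 ^ E' = (N : ℝ) / 2 ^ E + 1 / 2 ^ E') :
    RecOK μ (n + 1) N' E' r := by
  have hage : OWD.age N' E' r = OWD.age N E r + 1 / 2 ^ E' := by
    unfold OWD.age; rw [hN]; ring
  have hpos : (0 : ℝ) < 1 / 2 ^ E' := by positivity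
  have hle : (1 : ℝ) / 2 ^ E' ≤ life r := by
    unfold life
    have h1 : (1 : ℝ) ≤ (3 / 2) ^ r.d := one_le_pow₀ (by norm_num)
    have h2 : (1 : ℝ) / 2 ^ E' ≤ 1 / 2 ^ r.L := by
      apply one_div_le_one_div_of_le (by positivity)
      exact pow_le_pow_right₀ (by norm_num) (h.lev.trans hE)
    calc (1 : ℝ) / 2 ^ E' ≤ 1 / 2 ^ r.L := h2
      _ ≤ (3 / 2) ^ r.d / 2 ^ r.L := by gcongr
  refine ⟨h.lev.trans hE, h.dep.trans (Nat.le_succ n), h.idx, h.tau.trans (Nat.le_succ n), h.taup,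
    h.taupp, h.dtau, h.root, h.LL, h.ss, h.ipp, h.loc, ?_, ?_⟩
  · intro hd
    have h3 : OWD.age N E r < life r := by
      by_contra hcon
      exact hy ⟨hd, not_lt.1 hcon⟩
    rw [hage]; linarith
  · rw [hage]
    have := h.age0
    linarith

theorem TrOK.grow {N' E' : ℕ} {t : Tr} (h : TrOK μ n N E t) (hy : Young N E t)
    (hE : E ≤ E') (hN : (N' : ℝ) / 2 ^ E' = (N : ℝ) / 2 ^ E + 1 / 2 ^ E') :
    TrOK μ (n + 1) N' E' t := by
  induction t with
  | leaf r => exact RecOK.grow h hy hE hN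
  | node r l t ihl iht =>
    obtain ⟨h1, h2, h3, h4, h5, h6, h7, h8⟩ := h
    exact ⟨h1.grow hy.1 hE hN, ihl h2 hy.2.1, iht h3 hy.2.2, h4, h5, h6, h7, h8⟩

/-! ### Extension -/

theorem child_ok (hL : LocHyp μ) {N' E' : ℕ} {r : Rec} (h : RecOK μ n N E r)
    (hE : E' = E + (3 * n + 6)) (hN : (N' : ℝ) / 2 ^ E' = (N : ℝ) / 2 ^ E + 1 / 2 ^ E') {s : ℕ}
    (hs : s = 0 ∨ s = 1) :
    RecOK μ (n + 1) N' E' (child μ n N E r s) ∧ IsCh r (child μ n N E r s) := by
  have hlev := h.lev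
  have hdep := h.dep
  have htau := h.tau
  have hloc := loc_spec hL (n := n) (m := r.τ) (m' := r.τp)
    (L := E + n + 4 + 2 * (n - r.d) + s) (Lp := r.L) (ip := r.i)
    (s := s) (by omega) hs h.idx h.tau h.taup
  have hage : OWD.age N' E' (child μ n N E r s) = 1 / 2 ^ E' := by
    unfold OWD.age; rw [hN]; simp [child, place]
  have hlevE : E + n + 4 + 2 * (n - r.d) + s ≤ E' := by rcases hs with rfl | rfl <;> omega
  refine ⟨⟨hlevE, ?_, hloc.1.lt (by omega) hs h.idx, Nat.le_succ n, h.tau, h.taup, ?_, ?_, ?_, hs,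
    h.idx, fun _ => hloc, ?_, ?_⟩, ⟨rfl, rfl, rfl, hs, rfl, rfl, h.tau, ?_, ?_⟩⟩
  · simp only [child, place]; omega
  · simp only [child, place]; omega
  · intro h0; simp [child, place] at h0
  · intro _; simp only [child, place]; omega
  · intro _
    rw [hage]
    unfold life
    have h1 : (1 : ℝ) ≤ (3 / 2) ^ (child μ n N E r s).d := one_le_pow₀ (by norm_num)
    have h2 : (1 : ℝ) / 2 ^ E' ≤ 1 / 2 ^ (child μ n N E r s).L := by
      apply one_div_le_one_div_of_le (by positivity)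
      exact pow_le_pow_right₀ (by norm_num) hlevE
    have h3 : (1 : ℝ) / 2 ^ (child μ n N E r s).L ≤
      (3 / 2) ^ (child μ n N E r s).d / 2 ^ (child μ n N E r s).L := by gcongr
    have h4 : (0 : ℝ) < (3 / 2) ^ (child μ n N E r s).d / 2 ^ (child μ n N E r s).L := by
      positivity
    linarith
  · rw [hage]; positivity
  · simp only [child, place]; omega
  · simp only [child, place]; omega

theorem ext_rt (t : Tr) : (ext μ n N E t).rt = t.rt := by
  cases t with
  | leaf r => rfl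
  | node r l t =>
    by_cases h : Phi μ n l ≤ Phi μ n t <;> simp [ext, h, Tr.rt]

theorem ext_ok (hL : LocHyp μ) {N' E' : ℕ} {t : Tr} (h : TrOK μ n N E t) (hy : Young N E t)
    (hE : E' = E + (3 * n + 6)) (hN : (N' : ℝ) / 2 ^ E' = (N : ℝ) / 2 ^ E + 1 / 2 ^ E') :
    TrOK μ (n + 1) N' E' (ext μ n N E t) ∧
      (ext μ n N E t).last ≤ E + n + 4 + 2 * (n - t.rt.d) + 1 := by
  induction t with
  | leaf r =>
    have hr : RecOK μ n N E r := h
    obtain ⟨a1, a2⟩ := child_ok hL hr hE hN (s := 0) (Or.inl rfl)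
    obtain ⟨b1, b2⟩ := child_ok hL hr hE hN (s := 1) (Or.inr rfl)
    refine ⟨⟨hr.grow hy (by omega) hN, a1, b1, a2, rfl, b2, rfl, ?_⟩, ?_⟩
    · simp [Tr.last, Tr.rt, child, place]
    · simp [ext, Tr.last, Tr.rt, child, place]
  | node r l t ihl iht =>
    obtain ⟨h1, h2, h3, h4, h5, h6, h7, h8⟩ := h
    obtain ⟨y1, y2, y3⟩ := hy
    by_cases hc : Phi μ n l ≤ Phi μ n t
    · obtain ⟨i1, i2⟩ := ihl h2 y2
      obtain ⟨b1, b2⟩ := child_ok hL h1 hE hN (s := 1) (Or.inr rfl)
      have hd := h4.d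
      have hdep := h2.rt.dep
      simp only [ext, hc, if_true]
      refine ⟨⟨h1.grow y1 (by omega) hN, i1, b1, ?_, ?_, b2, rfl, ?_⟩, ?_⟩
      · rw [ext_rt]; exact h4
      · rw [ext_rt]; exact h5
      · simp only [Tr.rt, child, place]
        omega
      · simp [Tr.last, Tr.rt, child, place]
    · obtain ⟨i1, i2⟩ := iht h3 y3
      have hd := h6.d
      simp only [ext, hc, if_false]
      refine ⟨⟨h1.grow y1 (by omega) hN, h2.grow y2 (by omega) hN, i1, h4, h5, ?_, ?_, ?_⟩, ?_⟩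
      · rw [ext_rt]; exact h6
      · rw [ext_rt]; exact h7
      · rw [ext_rt]; exact h8
      · simp only [Tr.last, Tr.rt]
        omega

/-! ### The run -/

theorem stepX_eq (n N E : ℕ) :
    ((N * 2 ^ (3 * n + 6) + 1 : ℕ) : ℝ) / 2 ^ (E + (3 * n + 6)) =
      (N : ℝ) / 2 ^ E + 1 / 2 ^ (E + (3 * n + 6)) := by
  push_cast
  rw [pow_add 2 E, add_div, mul_div_mul_comm, div_self (by positivity), mul_one]

theorem stepG_eq (N E : ℕ) :
    ((N + 1 : ℕ) : ℝ) / 2 ^ E = (N : ℝ) / 2 ^ E + 1 / 2 ^ E := by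
  push_cast
  field_simp

theorem rootRec_ok : RecOK μ 0 0 0 rootRec := by
  constructor <;> simp [rootRec, OWD.age]

/-- The main invariant. -/
theorem run_ok (hL : LocHyp μ) (n : ℕ) :
    TrOK μ n (run μ n).N (run μ n).E (run μ n).t := by
  induction n with
  | zero => exact rootRec_ok
  | succ n ih =>
    have h1 := expi_ok hL ih
    have h2 := expi_young (μ := μ) (n := n) (N := (run μ n).N) (E := (run μ n).E) (run μ n).t
    simp only [run, step]
    split_ifs with hX
    · exact (ext_ok hL h1 h2 rfl (stepX_eq _ _ _)).1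
    · exact h1.grow h2 le_rfl (stepG_eq _ _)

theorem tre_ok (hL : LocHyp μ) (n : ℕ) :
    TrOK μ n (run μ n).N (run μ n).E (tre μ n) := expi_ok hL (run_ok hL n)

theorem tre_young (n : ℕ) : Young (run μ n).N (run μ n).E (tre μ n) := expi_young _

open Classical in
theorem run_succ_t (n : ℕ) : (run μ (n + 1)).t =
    if XS μ n then ext μ n (run μ n).N (run μ n).E (tre μ n) else tre μ n := by
  simp only [run, step, XS, tre]
  split_ifs <;> rfl

theorem beta_succ (n : ℕ) : beta μ (n + 1) = beta μ n + 1 / 2 ^ (run μ (n + 1)).E := by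
  simp only [beta, run, step]
  split_ifs
  · exact stepX_eq _ _ _
  · exact stepG_eq _ _

open Classical in
theorem E_succ (n : ℕ) : (run μ (n + 1)).E =
    if XS μ n then (run μ n).E + (3 * n + 6) else (run μ n).E := by
  simp only [run, step, XS, tre]
  split_ifs <;> rfl

theorem rt_run (n : ℕ) : (run μ n).t.rt = rootRec ∧ (tre μ n).rt = rootRec := by
  have key : ∀ n, (run μ n).t.rt = rootRec → (tre μ n).rt = rootRec := by
    intro n h
    rcases expi_rt (μ := μ) (n := n) (N := (run μ n).N) (E := (run μ n).E) (run μ n).t with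
      h1 | ⟨h1, _⟩
    · exact h1.trans h
    · rw [h] at h1; exact absurd rfl h1.1
  induction n with
  | zero => exact ⟨rfl, key 0 rfl⟩
  | succ n ih =>
    have h : (run μ (n + 1)).t.rt = rootRec := by
      rw [run_succ_t]
      split_ifs
      · rw [ext_rt]; exact ih.2
      · exact ih.2
    exact ⟨h, key _ h⟩

end OWD
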